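import Mathlib

/-!
Counting lemma of the escape theorem.
-/

namespace Esc

open Finset

namespace Cnt

variable {V : Type*} [DecidableEq V]

/-- closed neighbourhood -/
def nb (T : Finset V) (N : V → Finset V) (c : V) : Finset V :=
  insert c (N c ∪ T.filter (fun c' => c ∈ N c'))

lemma exists_small (T : Finset V) (N : V → Finset V) (D0 : ℕ) (hN : ∀ c ∈ T, (N c).card ≤ D0)
    (hT : T.Nonempty) : ∃ c ∈ T, (nb T N c).card ≤ 2 * D0 + 1 := by
  have h1 : ∑ c ∈ T, (T.filter (fun c' => c ∈ N c')).card ≤ ∑ _c ∈ T, D0 := by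
    have h2 : ∑ c ∈ T, (T.filter (fun c' => c ∈ N c')).card
        = ∑ c' ∈ T, (T.filter (fun c => c ∈ N c')).card := by
      simp only [Finset.card_filter]
      exact Finset.sum_comm
    rw [h2]
    refine Finset.sum_le_sum fun c' hc' => ?_
    refine (Finset.card_le_card fun x hx => ?_).trans (hN c' hc')
    exact (Finset.mem_filter.1 hx).2
  obtain ⟨c, hc, hle⟩ := Finset.exists_le_of_sum_le hT h1
  refine ⟨c, hc, ?_⟩
  unfold nb
  have h3 := Finset.card_insert_le c (N c ∪ T.filter (fun c' => c ∈ N c'))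
  have h4 := Finset.card_union_le (N c) (T.filter (fun c' => c ∈ N c'))
  have h5 := hN c hc
  omega

lemma not_mem_nb {T : Finset V} {N : V → Finset V} {c x : V} (hx : x ∈ T) (h : x ∉ nb T N c) :
    x ≠ c ∧ x ∉ N c ∧ c ∉ N x := by
  unfold nb at h
  rw [Finset.mem_insert, Finset.mem_union, Finset.mem_filter] at h
  push Not at h
  exact ⟨h.1, h.2.1, h.2.2 hx⟩

end Cnt

open Cnt

/-- digraph lemma -/
theorem three_free {V : Type*} [DecidableEq V] (T : Finset V) (N : V → Finset V) (D0 : ℕ)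
    (hN : ∀ c ∈ T, (N c).card ≤ D0) (hT : 2 * (2 * D0 + 1) < T.card) :
    ∃ c1 ∈ T, ∃ c2 ∈ T, ∃ c3 ∈ T, c1 ≠ c2 ∧ c1 ≠ c3 ∧ c2 ≠ c3 ∧
      c1 ∉ N c2 ∧ c1 ∉ N c3 ∧ c2 ∉ N c1 ∧ c2 ∉ N c3 ∧ c3 ∉ N c1 ∧ c3 ∉ N c2 := by
  obtain ⟨c1, h1, h1'⟩ := exists_small T N D0 hN (Finset.card_pos.1 (by omega))
  set T1 := T \ nb T N c1 with hT1
  have hc1 : 2 * D0 + 1 < T1.card := by
    have : T.card - (nb T N c1).card ≤ T1.card := Finset.le_card_sdiff (nb T N c1) T
    omega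
  have hsub1 : T1 ⊆ T := Finset.sdiff_subset
  obtain ⟨c2, h2, h2'⟩ := exists_small T1 N D0 (fun c hc => hN c (hsub1 hc))
    (Finset.card_pos.1 (by omega))
  set T2 := T1 \ nb T1 N c2 with hT2
  have hc2 : 0 < T2.card := by
    have : T1.card - (nb T1 N c2).card ≤ T2.card := Finset.le_card_sdiff (nb T1 N c2) T1
    omega
  obtain ⟨c3, h3⟩ := Finset.card_pos.1 hc2
  have h31 := Finset.mem_sdiff.1 h3
  have h21 := Finset.mem_sdiff.1 h2
  have h311 := Finset.mem_sdiff.1 h31.1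
  have a := not_mem_nb h21.1 h21.2
  have b := not_mem_nb h311.1 h311.2
  have c := not_mem_nb h31.1 h31.2
  exact ⟨c1, h1, c2, h21.1, c3, h311.1, a.1.symm, b.1.symm, c.1.symm, a.2.2, b.2.2, a.2.1, c.2.2,
    b.2.1, c.2.1⟩

/-- counting lemma -/
theorem counting {I Fc : Type*} [Fintype I] [Fintype Fc] [DecidableEq Fc] (D0 L : ℕ) (h step : ℝ)
    (_hh : 0 ≤ h) (hstep : 2 * h < step)
    (W : I → (Fc → Fin (L + 1)) → Fc → ℝ) (vis : I → (Fc → Fin (L + 1)) → Fc → Finset Fc)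
    (hcard : ∀ i σ c, (vis i σ c).card ≤ D0)
    (hmono : ∀ i σ σ' c, σ ≤ σ' → W i σ c ≤ W i σ' c)
    (hindep : ∀ i σ σ' c, σ ≤ σ' → (∀ c' ∈ vis i σ c, σ c' = σ' c') → W i σ' c ≤ W i σ c)
    (hslope : ∀ i σ σ' c, σ ≤ σ' → W i σ c + (((σ' c : ℕ) : ℝ) - ((σ c : ℕ) : ℝ)) * step ≤ W i σ' c)
    (hcount : Fintype.card I * Fintype.card Fc ^ 3 < (L + 1) ^ 2) :
    ∃ σ : Fc → Fin (L + 1), ∀ i, ∀ μ : ℝ, (∀ c, μ ≤ W i σ c) →
      (Finset.univ.filter (fun c => W i σ c ≤ μ + h)).card ≤ 2 * (2 * D0 + 1) := by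
  classical
  -- the bad set of a gate and a triple
  set Bd : I → Fc → Fc → Fc → (Fc → Fin (L + 1)) → Prop := fun i c1 c2 c3 σ =>
    (c1 ≠ c2 ∧ c1 ≠ c3 ∧ c2 ≠ c3) ∧
    (c1 ∉ vis i σ c2 ∧ c1 ∉ vis i σ c3 ∧ c2 ∉ vis i σ c1 ∧ c2 ∉ vis i σ c3 ∧ c3 ∉ vis i σ c1 ∧
      c3 ∉ vis i σ c2) ∧
    (|W i σ c1 - W i σ c2| ≤ h ∧ |W i σ c1 - W i σ c3| ≤ h ∧ |W i σ c2 - W i σ c3| ≤ h) with hBd
  -- one comparison
  have key : ∀ i c1 c2 c3 σ σ', Bd i c1 c2 c3 σ → Bd i c1 c2 c3 σ' →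
      (∀ c, c ≠ c2 → c ≠ c3 → σ c = σ' c) → ¬ (σ c2 < σ' c2) := by
    intro i c1 c2 c3 σ σ' hb hb' hag hlt
    obtain ⟨⟨d12, d13, d23⟩, ⟨v12, v13, v21, v23, v31, v32⟩, w12, w13, w23⟩ := hb
    obtain ⟨_, ⟨v12', v13', v21', v23', v31', v32'⟩, w12', w13', w23'⟩ := hb'
    set τ := σ ⊔ σ' with hτ
    have hστ : σ ≤ τ := le_sup_left
    have hστ' : σ' ≤ τ := le_sup_right
    have hoff : ∀ c, c ≠ c2 → c ≠ c3 → σ c = τ c ∧ σ' c = τ c := by
      intro c h2 h3
      have e := hag c h2 h3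
      have : τ c = σ c ⊔ σ' c := rfl
      rw [this, e, sup_idem]
      exact ⟨rfl, rfl⟩
    have e1 : W i τ c1 ≤ W i σ c1 := hindep i σ τ c1 hστ fun c' hc' =>
      (hoff c' (fun h => v21 (h ▸ hc')) (fun h => v31 (h ▸ hc'))).1
    have e1' : W i σ' c1 ≤ W i τ c1 := hmono i σ' τ c1 hστ'
    have hτ2 : τ c2 = σ' c2 := by
      have : τ c2 = σ c2 ⊔ σ' c2 := rfl
      rw [this, sup_eq_right.2 hlt.le]
    have e2 : W i τ c2 ≤ W i σ' c2 := hindep i σ' τ c2 hστ' fun c' hc' => by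
      by_cases h2 : c' = c2
      · rw [h2, hτ2]
      · exact (hoff c' h2 (fun h => v32' (h ▸ hc'))).2
    set ρ := Function.update τ c2 (σ c2) with hρ
    have hρ2 : ρ c2 = σ c2 := Function.update_self _ _ _
    have hρn : ∀ c, c ≠ c2 → ρ c = τ c := fun c hc => Function.update_of_ne hc _ _
    have hρτ : ρ ≤ τ := by
      intro c
      by_cases hc : c = c2
      · rw [hc, hρ2]; exact hστ c2
      · rw [hρn c hc]
    have hσρ : σ ≤ ρ := by
      intro c
      by_cases hc : c = c2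
      · rw [hc, hρ2]
      · rw [hρn c hc]; exact hστ c
    have e3 := hslope i ρ τ c2 hρτ
    have e4 : W i σ c2 ≤ W i ρ c2 := hmono i σ ρ c2 hσρ
    rw [hρ2, hτ2] at e3
    have hlt' : ((σ c2 : ℕ) : ℝ) + 1 ≤ ((σ' c2 : ℕ) : ℝ) := by
      have : (σ c2 : ℕ) + 1 ≤ (σ' c2 : ℕ) := hlt
      exact_mod_cast this
    have hst : 0 < step := by linarith
    have e5 : step ≤ (((σ' c2 : ℕ) : ℝ) - ((σ c2 : ℕ) : ℝ)) * step := by nlinarith
    have f1 := (abs_le.1 w12).2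
    have f2 := (abs_le.1 w12').1
    have f3 := (abs_le.1 w12').2
    linarith
  -- symmetry in the last two cells
  have hsymm : ∀ i c1 c2 c3 σ, Bd i c1 c2 c3 σ → Bd i c1 c3 c2 σ := by
    intro i c1 c2 c3 σ hb
    obtain ⟨⟨d12, d13, d23⟩, ⟨v12, v13, v21, v23, v31, v32⟩, w12, w13, w23⟩ := hb
    refine ⟨⟨d13, d12, d23.symm⟩, ⟨v13, v12, v31, v32, v21, v23⟩, w13, w12, ?_⟩
    rw [abs_sub_comm]; exact w23
  have hinj : ∀ i c1 c2 c3 σ σ', Bd i c1 c2 c3 σ → Bd i c1 c2 c3 σ' →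
      (∀ c, c ≠ c2 → c ≠ c3 → σ c = σ' c) → σ = σ' := by
    intro i c1 c2 c3 σ σ' hb hb' hag
    funext c
    by_cases h2 : c = c2
    · rw [h2]
      refine le_antisymm (not_lt.1 ?_) (not_lt.1 ?_)
      · exact key i c1 c2 c3 σ' σ hb' hb fun c h1 h2 => (hag c h1 h2).symm
      · exact key i c1 c2 c3 σ σ' hb hb' hag
    · by_cases h3 : c = c3
      · rw [h3]
        refine le_antisymm (not_lt.1 ?_) (not_lt.1 ?_)
        · exact key i c1 c3 c2 σ' σ (hsymm _ _ _ _ _ hb') (hsymm _ _ _ _ _ hb)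
            fun c h1 h2 => (hag c h2 h1).symm
        · exact key i c1 c3 c2 σ σ' (hsymm _ _ _ _ _ hb) (hsymm _ _ _ _ _ hb')
            fun c h1 h2 => hag c h2 h1
      · exact hag c h2 h3
  -- size of a bad set
  set BF : I × Fc × Fc × Fc → Finset (Fc → Fin (L + 1)) := fun q =>
    Finset.univ.filter (fun σ => Bd q.1 q.2.1 q.2.2.1 q.2.2.2 σ) with hBF
  have hBFcard : ∀ q, (BF q).card ≤ (L + 1) ^ (Fintype.card Fc - 2) := by
    rintro ⟨i, c1, c2, c3⟩
    by_cases hd : c2 ≠ c3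
    · set R : (Fc → Fin (L + 1)) → ({c : Fc // c ∉ ({c2, c3} : Finset Fc)} → Fin (L + 1)) :=
        fun σ c => σ c with hR
      have h1 : Set.InjOn R (BF (i, c1, c2, c3)) := by
        intro σ hσ σ' hσ' hRR
        have hs : Bd i c1 c2 c3 σ := (Finset.mem_filter.1 hσ).2
        have hs' : Bd i c1 c2 c3 σ' := (Finset.mem_filter.1 hσ').2
        refine hinj i c1 c2 c3 σ σ' hs hs' fun c h2 h3 => ?_
        have := congrFun hRR ⟨c, by simp [h2, h3]⟩
        exact this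
      have h2 := Finset.card_le_card_of_injOn R (t := Finset.univ) (fun _ _ => Finset.mem_coe.2 (Finset.mem_univ _)) h1
      refine h2.trans (le_of_eq ?_)
      rw [Finset.card_univ, Fintype.card_fun, Fintype.card_fin, Fintype.card_subtype_compl,
        Fintype.card_coe, Finset.card_pair hd]
    · have : BF (i, c1, c2, c3) = ∅ := by
        rw [hBF]
        simp only
        rw [Finset.filter_eq_empty_iff]
        intro σ _ hb
        exact hd hb.1.2.2
      rw [this]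
      simp
  -- a good choice
  have hgood : ∃ σ : Fc → Fin (L + 1), ∀ q, σ ∉ BF q := by
    by_contra hcon
    push Not at hcon
    have hcov : (Finset.univ : Finset (Fc → Fin (L + 1))) ⊆ Finset.univ.biUnion BF := by
      intro σ _
      obtain ⟨q, hq⟩ := hcon σ
      exact Finset.mem_biUnion.2 ⟨q, Finset.mem_univ _, hq⟩
    have h3 : 3 ≤ Fintype.card Fc := by
      obtain ⟨⟨i, c1, c2, c3⟩, hq⟩ := hcon (fun _ => 0)
      have hb : Bd i c1 c2 c3 (fun _ => 0) := (Finset.mem_filter.1 hq).2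
      obtain ⟨d12, d13, d23⟩ := hb.1
      have : ({c1, c2, c3} : Finset Fc).card = 3 := Finset.card_eq_three.2
        ⟨c1, c2, c3, d12, d13, d23, rfl⟩
      rw [← this]
      exact Finset.card_le_univ _
    have h1 := (Finset.card_le_card hcov).trans Finset.card_biUnion_le
    have h2 : ∑ q : I × Fc × Fc × Fc, (BF q).card
        ≤ ∑ _q : I × Fc × Fc × Fc, (L + 1) ^ (Fintype.card Fc - 2) :=
      Finset.sum_le_sum fun q _ => hBFcard q
    rw [Finset.sum_const, smul_eq_mul, Finset.card_univ, Fintype.card_prod, Fintype.card_prod,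
      Fintype.card_prod] at h2
    rw [Finset.card_univ, Fintype.card_fun, Fintype.card_fin] at h1
    have h4 : (L + 1) ^ Fintype.card Fc = (L + 1) ^ 2 * (L + 1) ^ (Fintype.card Fc - 2) := by
      rw [← pow_add]
      congr 1
      omega
    have h5 : 0 < (L + 1) ^ (Fintype.card Fc - 2) := by positivity
    have h6 : Fintype.card I * (Fintype.card Fc * (Fintype.card Fc * Fintype.card Fc))
        = Fintype.card I * Fintype.card Fc ^ 3 := by ring
    rw [h6] at h2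
    have h7 := h1.trans h2
    rw [h4] at h7
    have h8 := Nat.le_of_mul_le_mul_right h7 h5
    omega
  obtain ⟨σ, hσ⟩ := hgood
  refine ⟨σ, fun i μ hμ => ?_⟩
  by_contra hbig
  push Not at hbig
  obtain ⟨c1, h1, c2, h2, c3, h3, d12, d13, d23, v12, v13, v21, v23, v31, v32⟩ :=
    three_free (Finset.univ.filter (fun c => W i σ c ≤ μ + h)) (vis i σ) D0
      (fun c _ => hcard i σ c) hbig
  have g1 := (Finset.mem_filter.1 h1).2
  have g2 := (Finset.mem_filter.1 h2).2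
  have g3 := (Finset.mem_filter.1 h3).2
  have m1 := hμ c1
  have m2 := hμ c2
  have m3 := hμ c3
  refine hσ (i, c1, c2, c3) (Finset.mem_filter.2 ⟨Finset.mem_univ _, ⟨d12, d13, d23⟩,
    ⟨v12, v13, v21, v23, v31, v32⟩, ?_, ?_, ?_⟩)
  · rw [abs_le]; constructor <;> linarith
  · rw [abs_le]; constructor <;> linarith
  · rw [abs_le]; constructor <;> linarith

end Esc
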