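import Pool.Agent.helper33.Esc.Defs

/-!
Module D of the escape theorem: min-plus powers and barrier.
-/

noncomputable section

namespace Esc

open MeasureTheory Set Filter Topology

namespace ModD

/-! ### infima and suprema -/

lemma iInf_near {ι : Type*} [Nonempty ι] {f g : ι → ℝ} {c : ℝ} (hf : BddBelow (range f))
    (h : ∀ i, f i ≤ g i + c) : ⨅ i, f i ≤ (⨅ i, g i) + c := by
  have : (⨅ i, f i) - c ≤ ⨅ i, g i := by
    refine le_ciInf fun i => ?_
    have := (ciInf_le hf i).trans (h i)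
    linarith
  linarith

lemma abs_iInf_sub {ι : Type*} [Nonempty ι] {f g : ι → ℝ} {c : ℝ} (hf : BddBelow (range f))
    (hg : BddBelow (range g)) (h : ∀ i, |f i - g i| ≤ c) : |(⨅ i, f i) - ⨅ i, g i| ≤ c := by
  rw [abs_le]
  constructor
  · have := iInf_near (c := c) hg fun i => by
      have := (abs_le.1 (h i)).1
      show g i ≤ f i + c
      linarith
    linarith
  · have := iInf_near (c := c) hf fun i => by
      have := (abs_le.1 (h i)).2
      show f i ≤ g i + c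
      linarith
    linarith

lemma abs_iSup_sub {ι : Type*} [Nonempty ι] {f g : ι → ℝ} {c : ℝ} (hf : BddAbove (range f))
    (hg : BddAbove (range g)) (h : ∀ i, |f i - g i| ≤ c) : |(⨆ i, f i) - ⨆ i, g i| ≤ c := by
  rw [abs_le]
  constructor
  · have : (⨆ i, g i) ≤ (⨆ i, f i) + c := ciSup_le fun i => by
      have h1 := le_ciSup hf i
      have h2 := (abs_le.1 (h i)).1
      linarith
    linarith
  · have : (⨆ i, f i) ≤ (⨆ i, g i) + c := ciSup_le fun i => by
      have h1 := le_ciSup hg i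
      have h2 := (abs_le.1 (h i)).2
      linarith
    linarith

lemma contOn_of_lip {Y : Type*} [PseudoMetricSpace Y] {C : Set Y} {f : Y → ℝ} {L : ℝ}
    (h : ∀ x ∈ C, ∀ w ∈ C, |f x - f w| ≤ L * dist x w) : ContinuousOn f C := by
  rw [Metric.continuousOn_iff]
  intro b hb ε hε
  refine ⟨ε / (|L| + 1), by positivity, fun a ha hab => ?_⟩
  rw [Real.dist_eq]
  calc |f a - f b| ≤ L * dist a b := h a ha b hb
    _ ≤ (|L| + 1) * dist a b := by
        have := le_abs_self L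
        have := dist_nonneg (x := a) (y := b)
        nlinarith
    _ < (|L| + 1) * (ε / (|L| + 1)) := by
        have : 0 < |L| + 1 := by positivity
        exact mul_lt_mul_of_pos_left hab this
    _ = ε := by field_simp

end ModD

open ModD

variable {Y : Type*} [PseudoMetricSpace Y] {K : Y → Y → ℝ} {C A : Set Y} {B Λ : ℝ}

namespace KD

lemma B_nonneg (h : KD K C A B Λ) : 0 ≤ B := by
  obtain ⟨c, hc⟩ := h.ne
  exact (abs_nonneg _).trans (h.bd c (h.sub hc) c (h.sub hc))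

lemma kp_bd (h : KD K C A B Λ) (n : ℕ) : ∀ z ∈ A, ∀ z' ∈ A, |kp K C (n + 1) z z'| ≤ B * (n + 1) := by
  have _i := h.ne.to_subtype
  induction n with
  | zero => intro z hz z' hz'; simpa [kp] using h.bd z hz z' hz'
  | succ n ih =>
    intro z hz z' hz'
    show |⨅ x : C, (K z x + kp K C (n + 1) x z')| ≤ _
    have h1 : ∀ x : C, |K z x + kp K C (n + 1) x z'| ≤ B * (n + 1 + 1) := by
      intro x
      have h2 := h.bd z hz x (h.sub x.2)
      have h3 := ih x (h.sub x.2) z' hz'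
      have := abs_add_le (K z x) (kp K C (n + 1) x z')
      linarith
    have hbdd : BddBelow (range fun x : C => K z x + kp K C (n + 1) x z') := by
      refine ⟨-(B * (n + 1 + 1)), ?_⟩
      rintro _ ⟨x, rfl⟩
      exact (abs_le.1 (h1 x)).1
    push_cast
    rw [abs_le]
    constructor
    · exact le_ciInf fun x => (abs_le.1 (h1 x)).1
    · obtain ⟨c, hc⟩ := h.ne
      exact (ciInf_le hbdd ⟨c, hc⟩).trans (abs_le.1 (h1 ⟨c, hc⟩)).2

lemma kp_bdd (h : KD K C A B Λ) (n : ℕ) {z z' : Y} (hz : z ∈ A) (hz' : z' ∈ A) :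
    BddBelow (range fun x : C => K z x + kp K C (n + 1) x z') := by
  refine ⟨-B - B * (n + 1), ?_⟩
  rintro _ ⟨x, rfl⟩
  have h2 := (abs_le.1 (h.bd z hz x (h.sub x.2))).1
  have h3 := (abs_le.1 (h.kp_bd n x (h.sub x.2) z' hz')).1
  simp only
  linarith

lemma kp_red_left (h : KD K C A B Λ) {z c z' : Y} (hc : ∀ x ∈ A, K z x = K c x) (hz' : z' ∈ A)
    (n : ℕ) : kp K C (n + 1) z z' = kp K C (n + 1) c z' := by
  cases n with
  | zero => exact hc z' hz'
  | succ n =>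
    show (⨅ x : C, (K z x + kp K C (n + 1) x z')) = ⨅ x : C, (K c x + kp K C (n + 1) x z')
    congr 1
    funext x
    rw [hc x (h.sub x.2)]

lemma kp_red_right (h : KD K C A B Λ) {z' c : Y} (hc : ∀ x ∈ A, K x z' = K x c) (n : ℕ) :
    ∀ z ∈ A, kp K C (n + 1) z z' = kp K C (n + 1) z c := by
  induction n with
  | zero => intro z hz; exact hc z hz
  | succ n ih =>
    intro z _
    show (⨅ x : C, (K z x + kp K C (n + 1) x z')) = ⨅ x : C, (K z x + kp K C (n + 1) x c)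
    congr 1
    funext x
    rw [ih x (h.sub x.2)]

lemma Λ_dist (h : KD K C A B Λ) {z w : Y} (hz : z ∈ A) (hw : w ∈ A) : 0 ≤ Λ * dist z w := by
  have := (abs_nonneg _).trans (h.lip z hz w hw z hz z hz)
  simpa using this

lemma kp_lip' (h : KD K C A B Λ) (n : ℕ) : ∀ z ∈ A, ∀ w ∈ A, ∀ z' ∈ A, ∀ w' ∈ A,
    |kp K C (n + 1) z z' - kp K C (n + 1) w w'| ≤ Λ * (dist z w + dist z' w') := by
  have _i := h.ne.to_subtype
  induction n with
  | zero => exact h.lip
  | succ n ih =>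
    intro z hz w hw z' hz' w' hw'
    refine abs_iInf_sub (h.kp_bdd n hz hz') (h.kp_bdd n hw hw') fun x => ?_
    have h1 := h.lip z hz w hw x (h.sub x.2) x (h.sub x.2)
    have h2 := ih x (h.sub x.2) x (h.sub x.2) z' hz' w' hw'
    rw [dist_self] at h1 h2
    have h3 := abs_add_le (K z x - K w x) (kp K C (n + 1) x z' - kp K C (n + 1) x w')
    rw [show K z x + kp K C (n + 1) x z' - (K w x + kp K C (n + 1) x w')
      = K z x - K w x + (kp K C (n + 1) x z' - kp K C (n + 1) x w') by ring]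
    linarith

lemma exists_first (h : KD K C A B Λ) (n : ℕ) {z z' : Y} (hz : z ∈ A) (hz' : z' ∈ A) :
    ∃ x ∈ C, kp K C (n + 2) z z' = K z x + kp K C (n + 1) x z' := by
  have _i := h.ne.to_subtype
  have hc : ContinuousOn (fun x => K z x + kp K C (n + 1) x z') C := by
    refine contOn_of_lip (L := 2 * Λ) fun x hx w hw => ?_
    have h1 := h.lip z hz z hz x (h.sub hx) w (h.sub hw)
    have h2 := h.kp_lip' n x (h.sub hx) w (h.sub hw) z' hz' z' hz'
    rw [dist_self] at h1 h2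
    have h3 := abs_add_le (K z x - K z w) (kp K C (n + 1) x z' - kp K C (n + 1) w z')
    rw [show K z x + kp K C (n + 1) x z' - (K z w + kp K C (n + 1) w z')
      = K z x - K z w + (kp K C (n + 1) x z' - kp K C (n + 1) w z') by ring]
    linarith
  obtain ⟨x, hx, hmin⟩ := h.comp.exists_isMinOn h.ne hc
  refine ⟨x, hx, le_antisymm (ciInf_le (h.kp_bdd n hz hz') ⟨x, hx⟩) ?_⟩
  exact le_ciInf fun w => hmin w.2

end KD

lemma cost_succ' (K : Y → Y → ℝ) (x : ℕ → Y) (T : ℕ) :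
    cost K x (T + 1) = K (x 0) (x 1) + cost K (fun i => x (i + 1)) T := by
  unfold cost
  rw [Finset.sum_range_succ', add_comm]

lemma cost_add (K : Y → Y → ℝ) (x : ℕ → Y) (T T' : ℕ) :
    cost K x (T + T') = cost K x T + cost K (fun i => x (T + i)) T' := by
  unfold cost
  rw [Finset.sum_range_add]
  rfl

theorem kp_le_cost (h : KD K C A B Λ) {T : ℕ} (hT : 1 ≤ T) {x : ℕ → Y} (hx : ∀ i ≤ T, x i ∈ A) :
    kp K C T (x 0) (x T) ≤ cost K x T := by
  have _i := h.ne.to_subtype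
  obtain ⟨n, rfl⟩ : ∃ n, T = n + 1 := ⟨T - 1, by omega⟩
  clear hT
  induction n generalizing x with
  | zero => simp [cost, kp]
  | succ n ih =>
    obtain ⟨c, hc, hc'⟩ := h.red (x 1) (hx 1 (by omega))
    rw [cost_succ']
    have h1 := ih (x := fun i => x (i + 1)) (fun i hi => hx _ (by omega))
    have h2 : kp K C (n + 1 + 1) (x 0) (x (n + 1 + 1))
        ≤ K (x 0) c + kp K C (n + 1) c (x (n + 1 + 1)) :=
      ciInf_le (h.kp_bdd n (hx 0 (by omega)) (hx _ le_rfl)) ⟨c, hc⟩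
    rw [← (hc' (x 0) (hx 0 (by omega))).2,
      ← h.kp_red_left (fun y hy => (hc' y hy).1) (hx _ le_rfl) n] at h2
    simp only [zero_add] at h1
    linarith

theorem exists_path (h : KD K C A B Λ) {T : ℕ} (hT : 1 ≤ T) {z z' : Y} (hz : z ∈ A) (hz' : z' ∈ A) :
    ∃ x, IsPath C T z z' x ∧ cost K x T = kp K C T z z' := by
  obtain ⟨n, rfl⟩ : ∃ n, T = n + 1 := ⟨T - 1, by omega⟩
  clear hT
  induction n generalizing z with
  | zero =>
    refine ⟨fun i => if i = 0 then z else z', ⟨by simp, by simp, fun i h1 h2 => by omega⟩, ?_⟩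
    simp [cost, kp]
  | succ n ih =>
    obtain ⟨c, hc, hc'⟩ := h.exists_first n hz hz'
    obtain ⟨x, ⟨h1, h2, h3⟩, h4⟩ := ih (h.sub hc)
    refine ⟨fun i => if i = 0 then z else x (i - 1), ⟨by simp, ?_, ?_⟩, ?_⟩
    · simpa using h2
    · intro i hi1 hi2
      simp only [hi1.ne', if_false]
      rcases Nat.eq_or_lt_of_le hi1 with h5 | h5
      · rw [← h5]
        simp only [Nat.succ_eq_add_one, zero_add, Nat.sub_self]
        rw [h1]; exact hc
      · exact h3 (i - 1) (by omega) (by omega)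
    · rw [cost_succ']
      simp only [if_true, Nat.add_eq_zero_iff, one_ne_zero, and_false, if_false,
        Nat.add_sub_cancel, Nat.sub_self]
      rw [h1]
      rw [hc', ← h4]

lemma IsPath.mem {T : ℕ} {z z' : Y} {x : ℕ → Y} (hx : IsPath C T z z' x) (hCA : C ⊆ A)
    (hz : z ∈ A) (hz' : z' ∈ A) : ∀ i ≤ T, x i ∈ A := by
  intro i hi
  rcases Nat.eq_zero_or_pos i with h0 | h0
  · rw [h0, hx.1]; exact hz
  rcases Nat.eq_or_lt_of_le hi with h1 | h1
  · rw [h1, hx.2.1]; exact hz'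
  · exact hCA (hx.2.2 i h0 h1)

theorem kp_add_le (h : KD K C A B Λ) {T T' : ℕ} (hT : 1 ≤ T) (hT' : 1 ≤ T') {z x z' : Y} (hz : z ∈ A)
    (hx : x ∈ A) (hz' : z' ∈ A) : kp K C (T + T') z z' ≤ kp K C T z x + kp K C T' x z' := by
  obtain ⟨u, hu, hu'⟩ := exists_path h hT hz hx
  obtain ⟨v, hv, hv'⟩ := exists_path h hT' hx hz'
  set w : ℕ → Y := fun i => if i < T then u i else v (i - T) with hw
  have hw0 : w 0 = z := by
    rw [hw]
    simp only [show 0 < T by omega, if_true]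
    exact hu.1
  have hwT : w (T + T') = z' := by
    rw [hw]
    simp only [show ¬ (T + T' < T) by omega, if_false, Nat.add_sub_cancel_left]
    exact hv.2.1
  have hmem : ∀ i ≤ T + T', w i ∈ A := by
    intro i hi
    by_cases hiT : i < T
    · simp only [hw, hiT, if_true]
      exact hu.mem h.sub hz hx i hiT.le
    · simp only [hw, hiT, if_false]
      exact hv.mem h.sub hx hz' (i - T) (by omega)
  have h1 := kp_le_cost h (by omega : 1 ≤ T + T') hmem
  rw [hw0, hwT, cost_add] at h1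
  have h2 : cost K w T = cost K u T := by
    unfold cost
    refine Finset.sum_congr rfl fun i hi => ?_
    rw [Finset.mem_range] at hi
    have e1 : w i = u i := by simp only [hw, hi, if_true]
    have e2 : w (i + 1) = u (i + 1) := by
      rcases Nat.lt_or_ge (i + 1) T with h5 | h5
      · simp only [hw, h5, if_true]
      · have h6 : i + 1 = T := by omega
        rw [h6, hu.2.1]
        simp only [hw, lt_irrefl, if_false, Nat.sub_self]
        exact hv.1
    rw [e1, e2]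
  have h3 : cost K (fun i => w (T + i)) T' = cost K v T' := by
    unfold cost
    refine Finset.sum_congr rfl fun i _ => ?_
    have e : ∀ j, w (T + j) = v j := fun j => by
      simp only [hw, show ¬ (T + j < T) by omega, if_false, Nat.add_sub_cancel_left]
    show K (w (T + i)) (w (T + (i + 1))) = _
    rw [e, e]
  linarith

theorem kp_add_eq (h : KD K C A B Λ) {T T' : ℕ} (hT : 1 ≤ T) (hT' : 1 ≤ T') {z z' : Y} (hz : z ∈ A)
    (hz' : z' ∈ A) : ∃ x ∈ C, kp K C (T + T') z z' = kp K C T z x + kp K C T' x z' := by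
  obtain ⟨u, hu, hu'⟩ := exists_path h (by omega : 1 ≤ T + T') hz hz'
  have hm := hu.mem h.sub hz hz'
  have hC : u T ∈ C := hu.2.2 T (by omega) (by omega)
  refine ⟨u T, hC, le_antisymm (kp_add_le h hT hT' hz (h.sub hC) hz') ?_⟩
  rw [← hu', cost_add]
  have h1 := kp_le_cost h hT (x := u) (fun i hi => hm i (by omega))
  have h2 := kp_le_cost h hT' (x := fun i => u (T + i)) (fun i hi => hm _ (by omega))
  simp only [Nat.add_zero] at h2
  rw [hu.1] at h1
  rw [hu.2.1] at h2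
  linarith

theorem kp_lip (h : KD K C A B Λ) {T : ℕ} (hT : 1 ≤ T) {z z' w w' : Y} (hz : z ∈ A) (hz' : z' ∈ A)
    (hw : w ∈ A) (hw' : w' ∈ A) :
    |kp K C T z z' - kp K C T w w'| ≤ Λ * (dist z w + dist z' w') := by
  obtain ⟨n, rfl⟩ : ∃ n, T = n + 1 := ⟨T - 1, by omega⟩
  exact h.kp_lip' n z hz w hw z' hz' w' hw'

namespace KD

/-- oscillation -/
lemma osc (h : KD K C A B Λ) {T : ℕ} (hT : 1 ≤ T) {z z' w w' : Y} (hz : z ∈ A) (hz' : z' ∈ A)
    (hw : w ∈ A) (hw' : w' ∈ A) : kp K C T z z' ≤ kp K C T w w' + 4 * B := by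
  obtain ⟨n, rfl⟩ : ∃ n, T = n + 1 := ⟨T - 1, by omega⟩
  clear hT
  -- change the first point
  have hleft : ∀ n, ∀ z ∈ A, ∀ w ∈ A, ∀ z' ∈ A, kp K C (n + 1) z z' ≤ kp K C (n + 1) w z' + 2 * B := by
    intro n z hz w hw z' hz'
    cases n with
    | zero =>
      have h1 := (abs_le.1 (h.bd z hz z' hz')).2
      have h2 := (abs_le.1 (h.bd w hw z' hz')).1
      show K z z' ≤ K w z' + 2 * B
      linarith
    | succ n =>
      have _i := h.ne.to_subtype
      refine iInf_near (h.kp_bdd n hz hz') fun x => ?_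
      have h1 := (abs_le.1 (h.bd z hz x (h.sub x.2))).2
      have h2 := (abs_le.1 (h.bd w hw x (h.sub x.2))).1
      linarith
  have hright : ∀ n, ∀ z ∈ A, ∀ z' ∈ A, ∀ w' ∈ A,
      kp K C (n + 1) z z' ≤ kp K C (n + 1) z w' + 2 * B := by
    intro n
    induction n with
    | zero =>
      intro z hz z' hz' w' hw'
      have h1 := (abs_le.1 (h.bd z hz z' hz')).2
      have h2 := (abs_le.1 (h.bd z hz w' hw')).1
      show K z z' ≤ K z w' + 2 * B
      linarith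
    | succ n ih =>
      intro z hz z' hz' w' hw'
      have _i := h.ne.to_subtype
      refine iInf_near (h.kp_bdd n hz hz') fun x => ?_
      have := ih x (h.sub x.2) z' hz' w' hw'
      linarith
  have h1 := hleft n z hz w hw z' hz'
  have h2 := hright n w hw z' hz' w' hw'
  linarith

/-- minimum over the fundamental domain -/
def mT (K : Y → Y → ℝ) (C : Set Y) (T : ℕ) : ℝ := ⨅ x : C × C, kp K C T x.1 x.2

lemma mT_le (h : KD K C A B Λ) {T : ℕ} (hT : 1 ≤ T) {z z' : Y} (hz : z ∈ A) (hz' : z' ∈ A) :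
    mT K C T ≤ kp K C T z z' := by
  obtain ⟨n, rfl⟩ : ∃ n, T = n + 1 := ⟨T - 1, by omega⟩
  obtain ⟨c, hc, hc'⟩ := h.red z hz
  obtain ⟨e, he, he'⟩ := h.red z' hz'
  rw [h.kp_red_left (fun y hy => (hc' y hy).1) hz' n,
    h.kp_red_right (fun y hy => (he' y hy).2) n c (h.sub hc)]
  refine ciInf_le (f := fun x : C × C => kp K C (n + 1) x.1 x.2) ⟨-(B * (n + 1)), ?_⟩
    (⟨⟨c, hc⟩, ⟨e, he⟩⟩ : C × C)
  rintro _ ⟨x, rfl⟩
  exact (abs_le.1 (h.kp_bd n x.1 (h.sub x.1.2) x.2 (h.sub x.2.2))).1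

lemma le_mT (h : KD K C A B Λ) {T : ℕ} {a : ℝ} (H : ∀ z ∈ A, ∀ z' ∈ A, a ≤ kp K C T z z') :
    a ≤ mT K C T := by
  have _i := h.ne.to_subtype
  exact le_ciInf fun x => H _ (h.sub x.1.2) _ (h.sub x.2.2)

lemma le_mT_add (h : KD K C A B Λ) {T : ℕ} (hT : 1 ≤ T) {z z' : Y} (hz : z ∈ A) (hz' : z' ∈ A) :
    kp K C T z z' ≤ mT K C T + 4 * B := by
  have := h.le_mT (T := T) (a := kp K C T z z' - 4 * B) fun w hw w' hw' => by
    have := h.osc hT hz hz' hw hw'
    linarith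
  linarith

lemma mT_add (h : KD K C A B Λ) {T T' : ℕ} (hT : 1 ≤ T) (hT' : 1 ≤ T') :
    mT K C T + mT K C T' ≤ mT K C (T + T') := by
  refine h.le_mT fun z hz z' hz' => ?_
  obtain ⟨x, hx, hx'⟩ := kp_add_eq h hT hT' hz hz'
  rw [hx']
  exact add_le_add (h.mT_le hT hz (h.sub hx)) (h.mT_le hT' (h.sub hx) hz')

lemma mT_mul (h : KD K C A B Λ) {T : ℕ} (hT : 1 ≤ T) (k : ℕ) :
    ((k + 1 : ℕ) : ℝ) * mT K C T ≤ mT K C ((k + 1) * T) := by
  induction k with
  | zero => simp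
  | succ k ih =>
    have h1 := h.mT_add (T := (k + 1) * T) (T' := T) (by nlinarith) hT
    rw [show (k + 1 + 1) * T = (k + 1) * T + T by ring]
    push_cast at ih ⊢
    linarith

lemma kp_mul (h : KD K C A B Λ) {T : ℕ} (hT : 1 ≤ T) (k : ℕ) {z z' : Y} (hz : z ∈ A) (hz' : z' ∈ A) :
    kp K C ((k + 1) * T) z z' ≤ ((k + 1 : ℕ) : ℝ) * (mT K C T + 4 * B) := by
  induction k generalizing z' with
  | zero =>
    have := h.le_mT_add hT hz hz'
    simpa using this
  | succ k ih =>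
    have h1 := kp_add_le h (T := (k + 1) * T) (T' := T) (by nlinarith) hT hz hz' hz'
    have h2 := h.le_mT_add hT hz' hz'
    have h3 := ih hz'
    rw [show (k + 1 + 1) * T = (k + 1) * T + T by ring]
    push_cast at h3 ⊢
    linarith

lemma cross_bound (h : KD K C A B Λ) {T T' : ℕ} (hT : 1 ≤ T) (hT' : 1 ≤ T') :
    mT K C T' / T' ≤ (mT K C T + 4 * B) / T := by
  obtain ⟨c, hc⟩ := h.ne
  have hT0 : (0 : ℝ) < T := by exact_mod_cast hT
  have hT0' : (0 : ℝ) < T' := by exact_mod_cast hT'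
  rw [div_le_div_iff₀ hT0' hT0]
  obtain ⟨k, rfl⟩ : ∃ k, T = k + 1 := ⟨T - 1, by omega⟩
  obtain ⟨k', rfl⟩ : ∃ k', T' = k' + 1 := ⟨T' - 1, by omega⟩
  have h1 := h.mT_mul hT' k
  have h2 := h.kp_mul hT k' (h.sub hc) (h.sub hc)
  have h3 := h.mT_le (T := (k + 1) * (k' + 1)) (by nlinarith) (h.sub hc) (h.sub hc)
  rw [mul_comm (k' + 1) (k + 1)] at h2
  linarith

end KD

theorem al_spec (h : KD K C A B Λ) {T : ℕ} (hT : 1 ≤ T) {z z' : Y} (hz : z ∈ A) (hz' : z' ∈ A) :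
    |kp K C T z z' + al K C * T| ≤ 4 * B := by
  have hT0 : (0 : ℝ) < T := by exact_mod_cast hT
  have hal : al K C = - ⨆ T : ℕ, KD.mT K C (T + 1) / ((T + 1 : ℕ) : ℝ) := rfl
  have h1 : (⨆ T : ℕ, KD.mT K C (T + 1) / ((T + 1 : ℕ) : ℝ)) ≤ (KD.mT K C T + 4 * B) / T :=
    ciSup_le fun n => h.cross_bound hT (by omega)
  have hbdd : BddAbove (range fun T : ℕ => KD.mT K C (T + 1) / ((T + 1 : ℕ) : ℝ)) := by
    refine ⟨(KD.mT K C T + 4 * B) / T, ?_⟩
    rintro _ ⟨n, rfl⟩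
    exact h.cross_bound hT (by omega)
  have h2 : KD.mT K C T / T ≤ ⨆ T : ℕ, KD.mT K C (T + 1) / ((T + 1 : ℕ) : ℝ) := by
    have := le_ciSup hbdd (T - 1)
    rwa [show T - 1 + 1 = T by omega] at this
  rw [← neg_neg (⨆ T : ℕ, KD.mT K C (T + 1) / ((T + 1 : ℕ) : ℝ)), ← hal] at h1 h2
  rw [le_div_iff₀ hT0] at h1
  rw [div_le_iff₀ hT0] at h2
  have h3 := h.mT_le hT hz hz'
  have h4 := h.le_mT_add hT hz hz'
  rw [abs_le]
  constructor <;> linarith

/-- characterization of `al` -/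
theorem le_al (h : KD K C A B Λ) {a C' : ℝ}
    (H : ∀ n : ℕ, ∃ T ≥ n, 1 ≤ T ∧ ∃ z ∈ A, ∃ z' ∈ A, kp K C T z z' + a * T ≤ C') : a ≤ al K C := by
  by_contra hlt
  push Not at hlt
  obtain ⟨n, hn⟩ := exists_nat_gt ((C' + 4 * B) / (a - al K C))
  obtain ⟨T, hT, hT1, z, hz, z', hz', hle⟩ := H n
  have h1 := (abs_le.1 (al_spec h hT1 hz hz')).1
  have h2 : (n : ℝ) ≤ T := by exact_mod_cast hT
  have h3 : 0 < a - al K C := by linarith
  rw [div_lt_iff₀ h3] at hn
  nlinarith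

theorem al_le (h : KD K C A B Λ) {a C' : ℝ}
    (H : ∀ n : ℕ, ∃ T ≥ n, 1 ≤ T ∧ ∃ z ∈ A, ∃ z' ∈ A, - C' ≤ kp K C T z z' + a * T) : al K C ≤ a := by
  by_contra hlt
  push Not at hlt
  obtain ⟨n, hn⟩ := exists_nat_gt ((C' + 4 * B) / (al K C - a))
  obtain ⟨T, hT, hT1, z, hz, z', hz', hle⟩ := H n
  have h1 := (abs_le.1 (al_spec h hT1 hz hz')).2
  have h2 : (n : ℝ) ≤ T := by exact_mod_cast hT
  have h3 : 0 < al K C - a := by linarith
  rw [div_lt_iff₀ h3] at hn
  nlinarith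

/-! ### the barrier -/

namespace KD

/-- normalized cost -/
def nk (K : Y → Y → ℝ) (C : Set Y) (T : ℕ) (z z' : Y) : ℝ := kp K C T z z' + al K C * (T : ℝ)

/-- tail infimum -/
def tl (K : Y → Y → ℝ) (C : Set Y) (S : ℕ) (z z' : Y) : ℝ := ⨅ j : ℕ, nk K C (S + j + 1) z z'

lemma bar_def (K : Y → Y → ℝ) (C : Set Y) (z z' : Y) : bar K C z z' = ⨆ S : ℕ, tl K C S z z' := rfl

lemma nk_bd (h : KD K C A B Λ) {T : ℕ} (hT : 1 ≤ T) {z z' : Y} (hz : z ∈ A) (hz' : z' ∈ A) :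
    |nk K C T z z'| ≤ 4 * B := al_spec h hT hz hz'

lemma nk_bdd (h : KD K C A B Λ) (S : ℕ) {z z' : Y} (hz : z ∈ A) (hz' : z' ∈ A) :
    BddBelow (range fun j : ℕ => nk K C (S + j + 1) z z') := by
  refine ⟨-(4 * B), ?_⟩
  rintro _ ⟨j, rfl⟩
  exact (abs_le.1 (h.nk_bd (by omega) hz hz')).1

lemma tl_le (h : KD K C A B Λ) {S T : ℕ} (hST : S < T) {z z' : Y} (hz : z ∈ A) (hz' : z' ∈ A) :
    tl K C S z z' ≤ nk K C T z z' := by
  have := ciInf_le (h.nk_bdd S hz hz') (T - S - 1)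
  rwa [show S + (T - S - 1) + 1 = T by omega] at this

lemma le_tl {S : ℕ} {z z' : Y} {a : ℝ} (H : ∀ T, S < T → a ≤ nk K C T z z') : a ≤ tl K C S z z' :=
  le_ciInf fun j => H _ (by omega)

lemma tl_bd (h : KD K C A B Λ) (S : ℕ) {z z' : Y} (hz : z ∈ A) (hz' : z' ∈ A) :
    |tl K C S z z'| ≤ 4 * B := by
  rw [abs_le]
  constructor
  · exact le_tl fun T hT => (abs_le.1 (h.nk_bd (by omega) hz hz')).1
  · exact (h.tl_le (Nat.lt_succ_self S) hz hz').trans (abs_le.1 (h.nk_bd (by omega) hz hz')).2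

lemma tl_bdd (h : KD K C A B Λ) {z z' : Y} (hz : z ∈ A) (hz' : z' ∈ A) :
    BddAbove (range fun S : ℕ => tl K C S z z') := by
  refine ⟨4 * B, ?_⟩
  rintro _ ⟨S, rfl⟩
  exact (abs_le.1 (h.tl_bd S hz hz')).2

lemma tl_mono (h : KD K C A B Λ) {S S' : ℕ} (hS : S ≤ S') {z z' : Y} (hz : z ∈ A) (hz' : z' ∈ A) :
    tl K C S z z' ≤ tl K C S' z z' := le_tl fun T hT => h.tl_le (by omega) hz hz'

lemma tl_le_bar (h : KD K C A B Λ) (S : ℕ) {z z' : Y} (hz : z ∈ A) (hz' : z' ∈ A) :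
    tl K C S z z' ≤ bar K C z z' := le_ciSup (h.tl_bdd hz hz') S

/-- it suffices to bound the tails eventually -/
lemma bar_le_of (h : KD K C A B Λ) {S0 : ℕ} {z z' : Y} (hz : z ∈ A) (hz' : z' ∈ A) {a : ℝ}
    (H : ∀ S, S0 ≤ S → tl K C S z z' ≤ a) : bar K C z z' ≤ a :=
  ciSup_le fun S => (h.tl_mono (le_max_left S S0) hz hz').trans (H _ (le_max_right _ _))

/-- there are arbitrarily long almost optimal durations -/
lemma exists_nk_lt (h : KD K C A B Λ) (S : ℕ) {z z' : Y} (hz : z ∈ A) (hz' : z' ∈ A) {ε : ℝ}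
    (hε : 0 < ε) : ∃ T, S < T ∧ nk K C T z z' < bar K C z z' + ε := by
  by_contra hcon
  push Not at hcon
  have h1 := le_tl hcon
  have h2 := h.tl_le_bar S hz hz'
  linarith

lemma tl_near (h : KD K C A B Λ) (S : ℕ) {z z' w w' : Y} (hz : z ∈ A) (hz' : z' ∈ A) (hw : w ∈ A)
    (hw' : w' ∈ A) : |tl K C S z z' - tl K C S w w'| ≤ Λ * (dist z w + dist z' w') := by
  refine abs_iInf_sub (h.nk_bdd S hz hz') (h.nk_bdd S hw hw') fun j => ?_
  have := kp_lip h (T := S + j + 1) (by omega) hz hz' hw hw'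
  unfold nk
  rwa [add_sub_add_right_eq_sub]

end KD

open KD

theorem bar_bd (h : KD K C A B Λ) {z z' : Y} (hz : z ∈ A) (hz' : z' ∈ A) : |bar K C z z'| ≤ 4 * B := by
  rw [abs_le]
  constructor
  · exact (abs_le.1 (h.tl_bd 0 hz hz')).1.trans (h.tl_le_bar 0 hz hz')
  · exact ciSup_le fun S => (abs_le.1 (h.tl_bd S hz hz')).2

theorem bar_lip (h : KD K C A B Λ) {z z' w w' : Y} (hz : z ∈ A) (hz' : z' ∈ A) (hw : w ∈ A) (hw' : w' ∈ A) :
    |bar K C z z' - bar K C w w'| ≤ Λ * (dist z w + dist z' w') :=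
  abs_iSup_sub (h.tl_bdd hz hz') (h.tl_bdd hw hw') fun S => h.tl_near S hz hz' hw hw'

namespace KD

/-- finite nets in the fundamental domain -/
lemma exists_net (h : KD K C A B Λ) {r : ℝ} (hr : 0 < r) :
    ∃ N : Finset Y, (∀ c ∈ N, c ∈ C) ∧ ∀ z ∈ C, ∃ c ∈ N, dist z c < r := by
  obtain ⟨t, htC, ht, hcov⟩ := h.comp.finite_cover_balls hr
  refine ⟨ht.toFinset, fun c hc => htC (by simpa using hc), fun z hz => ?_⟩
  have := hcov hz
  simp only [mem_iUnion, Metric.mem_ball] at this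
  obtain ⟨c, hc, hd⟩ := this
  exact ⟨c, by simpa using hc, hd⟩

/-- approximation of the pair of points by a net, for all normalized costs at once -/
lemma exists_net2 (h : KD K C A B Λ) {ε : ℝ} (hε : 0 < ε) :
    ∃ N : Finset Y, (∀ c ∈ N, c ∈ A) ∧ ∀ z ∈ A, ∀ z' ∈ A, ∃ c ∈ N, ∃ c' ∈ N,
      (∀ T, 1 ≤ T → |kp K C T z z' - kp K C T c c'| ≤ ε) ∧
      |bar K C z z' - bar K C c c'| ≤ ε := by
  have hL : 0 < 2 * (|Λ| + 1) := by positivity
  obtain ⟨N, hN, hcov⟩ := h.exists_net (r := ε / (2 * (|Λ| + 1))) (by positivity)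
  refine ⟨N, fun c hc => h.sub (hN c hc), fun z hz z' hz' => ?_⟩
  obtain ⟨e, he, he1⟩ := h.red z hz
  obtain ⟨e', he', he1'⟩ := h.red z' hz'
  obtain ⟨c, hc, hd⟩ := hcov e he
  obtain ⟨c', hc', hd'⟩ := hcov e' he'
  have hkp : ∀ T, 1 ≤ T → kp K C T z z' = kp K C T e e' := by
    intro T hT
    obtain ⟨n, rfl⟩ : ∃ n, T = n + 1 := ⟨T - 1, by omega⟩
    rw [h.kp_red_left (fun y hy => (he1 y hy).1) hz' n,
      h.kp_red_right (fun y hy => (he1' y hy).2) n e (h.sub he)]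
  have hbar : bar K C z z' = bar K C e e' := by
    unfold bar
    congr 1
    funext S
    congr 1
    funext j
    rw [hkp _ (by omega)]
  have hbound : Λ * (dist e c + dist e' c') ≤ ε := by
    have h1 : Λ ≤ |Λ| + 1 := (le_abs_self Λ).trans (by linarith)
    have h2 : 0 ≤ dist e c + dist e' c' := by positivity
    have h3 : dist e c + dist e' c' ≤ 2 * (ε / (2 * (|Λ| + 1))) := by linarith
    calc Λ * (dist e c + dist e' c') ≤ (|Λ| + 1) * (dist e c + dist e' c') :=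
          mul_le_mul_of_nonneg_right h1 h2
      _ ≤ (|Λ| + 1) * (2 * (ε / (2 * (|Λ| + 1)))) :=
          mul_le_mul_of_nonneg_left h3 (by positivity)
      _ = ε := by field_simp
  refine ⟨c, hc, c', hc', fun T hT => ?_, ?_⟩
  · rw [hkp T hT]
    exact (kp_lip h hT (h.sub he) (h.sub he') (h.sub (hN c hc)) (h.sub (hN c' hc'))).trans hbound
  · rw [hbar]
    exact (bar_lip h (h.sub he) (h.sub he') (h.sub (hN c hc)) (h.sub (hN c' hc'))).trans hbound

end KD

theorem bar_low (h : KD K C A B Λ) {ε : ℝ} (hε : 0 < ε) :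
    ∃ S0 : ℕ, ∀ T ≥ S0, 1 ≤ T → ∀ z ∈ A, ∀ z' ∈ A, bar K C z z' - ε ≤ kp K C T z z' + al K C * T := by
  classical
  obtain ⟨N, hN, hcov⟩ := h.exists_net2 (ε := ε / 3) (by positivity)
  have h1 : ∀ q : Y × Y, ∃ S : ℕ, q.1 ∈ A → q.2 ∈ A → bar K C q.1 q.2 - ε / 3 ≤ tl K C S q.1 q.2 := by
    intro q
    by_cases hq : q.1 ∈ A ∧ q.2 ∈ A
    · by_contra hcon
      push Not at hcon
      have h2 : bar K C q.1 q.2 ≤ bar K C q.1 q.2 - ε / 3 :=
        ciSup_le fun S => (hcon S).2.2.le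
      linarith
    · exact ⟨0, fun h1 h2 => absurd ⟨h1, h2⟩ hq⟩
  choose Sf hSf using h1
  refine ⟨(N ×ˢ N).sup Sf + 1, fun T hT hT1 z hz z' hz' => ?_⟩
  obtain ⟨c, hc, c', hc', hk, hb⟩ := hcov z hz z' hz'
  have h3 := hSf (c, c') (hN c hc) (hN c' hc')
  have h4 : Sf (c, c') ≤ (N ×ˢ N).sup Sf := Finset.le_sup (Finset.mk_mem_product hc hc')
  have h5 := h.tl_le (S := Sf (c, c')) (T := T) (by omega) (hN c hc) (hN c' hc')
  have h6 := abs_le.1 (hk T hT1)
  have h7 := abs_le.1 hb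
  unfold nk at h5
  simp only at h3
  linarith [h6.1, h7.2]

theorem gk_le (h : KD K C A B Λ) {F : Finset ℕ} (c : ℕ → ℝ) {T : ℕ} (hT : T ∈ F) (z z' : Y) :
    gk K C F c z z' ≤ kp K C T z z' + c T := by
  have _ := h
  exact ciInf_le (f := fun T : F => kp K C T z z' + c T) (Set.finite_range _).bddBelow ⟨T, hT⟩

theorem gk_attained {F : Finset ℕ} (hF : F.Nonempty) (c : ℕ → ℝ) (z z' : Y) :
    ∃ T ∈ F, gk K C F c z z' = kp K C T z z' + c T := by
  have _i : Nonempty F := hF.to_subtype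
  obtain ⟨T, hT⟩ := exists_eq_ciInf_of_finite (f := fun T : F => kp K C T z z' + c T)
  exact ⟨T, T.2, hT.symm⟩

theorem bar_win (h : KD K C A B Λ) {ε : ℝ} (hε : 0 < ε) (S0 : ℕ) :
    ∃ F : Finset ℕ, F.Nonempty ∧ (∀ T ∈ F, S0 ≤ T) ∧ ∀ z ∈ A, ∀ z' ∈ A,
      |gk K C F (fun T => al K C * T) z z' - bar K C z z'| ≤ ε := by
  classical
  obtain ⟨N, hN, hcov⟩ := h.exists_net2 (ε := ε / 3) (by positivity)
  obtain ⟨S1, hS1⟩ := bar_low h hε
  set S2 := max (max S0 S1) 1 with hS2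
  have h1 : ∀ q : Y × Y, ∃ T : ℕ, S2 < T ∧ (q.1 ∈ A → q.2 ∈ A →
      nk K C T q.1 q.2 < bar K C q.1 q.2 + ε / 3) := by
    intro q
    by_cases hq : q.1 ∈ A ∧ q.2 ∈ A
    · obtain ⟨T, hT, hT'⟩ := h.exists_nk_lt S2 hq.1 hq.2 (ε := ε / 3) (by positivity)
      exact ⟨T, hT, fun _ _ => hT'⟩
    · exact ⟨S2 + 1, by omega, fun h1 h2 => absurd ⟨h1, h2⟩ hq⟩
  choose Tf hTf1 hTf2 using h1
  have hF1 : ∀ T ∈ (N ×ˢ N).image Tf, S2 < T := by
    intro T hT
    rw [Finset.mem_image] at hT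
    obtain ⟨q, _, rfl⟩ := hT
    exact hTf1 q
  obtain ⟨c0, hc0⟩ := h.ne
  have hne : ((N ×ˢ N).image Tf).Nonempty := by
    obtain ⟨c, hc, c', hc', _⟩ := hcov c0 (h.sub hc0) c0 (h.sub hc0)
    exact ⟨_, Finset.mem_image_of_mem _ (Finset.mk_mem_product hc hc')⟩
  have hle0 : S0 ≤ S2 := (le_max_left _ _).trans (le_max_left _ _)
  have hle1 : S1 ≤ S2 := (le_max_right _ _).trans (le_max_left _ _)
  have hle2 : 1 ≤ S2 := le_max_right _ _
  refine ⟨(N ×ˢ N).image Tf, hne, fun T hT => by have := hF1 T hT; omega, fun z hz z' hz' => ?_⟩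
  rw [abs_le]
  constructor
  · obtain ⟨T, hT, hT'⟩ := gk_attained hne (fun T => al K C * (T : ℝ)) z z' (K := K) (C := C)
    rw [hT']
    have h2 := hF1 T hT
    have := hS1 T (by omega) (by omega) z hz z' hz'
    linarith
  · obtain ⟨c, hc, c', hc', hk, hb⟩ := hcov z hz z' hz'
    have h2 := hTf2 (c, c') (hN c hc) (hN c' hc')
    have h3 : Tf (c, c') ∈ (N ×ˢ N).image Tf :=
      Finset.mem_image_of_mem _ (Finset.mk_mem_product hc hc')
    have h4 := gk_le h (fun T => al K C * (T : ℝ)) h3 z z'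
    have h5 := hF1 _ h3
    have h6 := abs_le.1 (hk (Tf (c, c')) (by omega))
    have h7 := abs_le.1 hb
    unfold nk at h2
    simp only at h2 h4
    linarith [h6.2, h7.1]

theorem bar_left_le (h : KD K C A B Λ) {T : ℕ} (hT : 1 ≤ T) {z x z' : Y} (hz : z ∈ A) (hx : x ∈ A)
    (hz' : z' ∈ A) : bar K C z z' ≤ kp K C T z x + al K C * T + bar K C x z' := by
  refine h.bar_le_of (S0 := T) hz hz' fun S hS => ?_
  have h1 : tl K C S z z' - (kp K C T z x + al K C * T) ≤ tl K C (S - T) x z' := by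
    refine le_tl fun n hn => ?_
    have h2 := h.tl_le (S := S) (T := T + n) (by omega) hz hz'
    have h3 := kp_add_le h hT (by omega : 1 ≤ n) hz hx hz'
    unfold nk at *
    push_cast at h2 ⊢
    linarith
  have h2 := h.tl_le_bar (S - T) hx hz'
  linarith

theorem bar_right_le (h : KD K C A B Λ) {T : ℕ} (hT : 1 ≤ T) {z x z' : Y} (hz : z ∈ A) (hx : x ∈ A)
    (hz' : z' ∈ A) : bar K C z z' ≤ bar K C z x + (kp K C T x z' + al K C * T) := by
  refine h.bar_le_of (S0 := T) hz hz' fun S hS => ?_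
  have h1 : tl K C S z z' - (kp K C T x z' + al K C * T) ≤ tl K C (S - T) z x := by
    refine le_tl fun n hn => ?_
    have h2 := h.tl_le (S := S) (T := n + T) (by omega) hz hz'
    have h3 := kp_add_le h (by omega : 1 ≤ n) hT hz hx hz'
    unfold nk at *
    push_cast at h2 ⊢
    linarith
  have h2 := h.tl_le_bar (S - T) hz hx
  linarith

namespace KD

lemma bar_contOn_left (h : KD K C A B Λ) {z' : Y} (hz' : z' ∈ A) :
    ContinuousOn (fun x => bar K C x z') C :=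
  contOn_of_lip (L := Λ) fun x hx w hw => by
    have := bar_lip h (h.sub hx) hz' (h.sub hw) hz'
    rwa [dist_self, add_zero] at this

lemma bar_contOn_right (h : KD K C A B Λ) {z : Y} (hz : z ∈ A) :
    ContinuousOn (fun x => bar K C z x) C :=
  contOn_of_lip (L := Λ) fun x hx w hw => by
    have := bar_lip h hz (h.sub hx) hz (h.sub hw)
    rwa [dist_self, zero_add] at this

lemma kp_contOn_left (h : KD K C A B Λ) {T : ℕ} (hT : 1 ≤ T) {z' : Y} (hz' : z' ∈ A) :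
    ContinuousOn (fun x => kp K C T x z') C :=
  contOn_of_lip (L := Λ) fun x hx w hw => by
    have := kp_lip h hT (h.sub hx) hz' (h.sub hw) hz'
    rwa [dist_self, add_zero] at this

lemma kp_contOn_right (h : KD K C A B Λ) {T : ℕ} (hT : 1 ≤ T) {z : Y} (hz : z ∈ A) :
    ContinuousOn (fun x => kp K C T z x) C :=
  contOn_of_lip (L := Λ) fun x hx w hw => by
    have := kp_lip h hT hz (h.sub hx) hz (h.sub hw)
    rwa [dist_self, zero_add] at this

end KD

theorem bar_left_eq (h : KD K C A B Λ) {T : ℕ} (hT : 1 ≤ T) {z z' : Y} (hz : z ∈ A) (hz' : z' ∈ A) :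
    ∃ x ∈ C, bar K C z z' = kp K C T z x + al K C * T + bar K C x z' := by
  have hc : ContinuousOn (fun x => kp K C T z x + al K C * T + bar K C x z') C :=
    ((h.kp_contOn_right hT hz).add continuousOn_const).add (h.bar_contOn_left hz')
  obtain ⟨x, hx, hmin⟩ := h.comp.exists_isMinOn h.ne hc
  refine ⟨x, hx, le_antisymm (bar_left_le h hT hz (h.sub hx) hz') ?_⟩
  refine le_of_forall_pos_le_add fun ε hε => ?_
  obtain ⟨S0, hS0⟩ := bar_low h hε
  have h1 : kp K C T z x + al K C * T + bar K C x z' - ε ≤ tl K C (T + S0) z z' := by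
    refine le_tl fun n hn => ?_
    obtain ⟨m, rfl⟩ : ∃ m, n = T + m := ⟨n - T, by omega⟩
    obtain ⟨w, hw, hw'⟩ := kp_add_eq h hT (by omega : 1 ≤ m) hz hz'
    have h2 := hS0 m (by omega) (by omega) w (h.sub hw) z' hz'
    have h3 := hmin hw
    simp only [mem_ofPred_eq] at h3
    unfold nk
    rw [hw']
    push_cast
    linarith
  have h2 := h.tl_le_bar (T + S0) hz hz'
  linarith

theorem bar_right_eq (h : KD K C A B Λ) {T : ℕ} (hT : 1 ≤ T) {z z' : Y} (hz : z ∈ A) (hz' : z' ∈ A) :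
    ∃ x ∈ C, bar K C z z' = bar K C z x + (kp K C T x z' + al K C * T) := by
  have hc : ContinuousOn (fun x => bar K C z x + (kp K C T x z' + al K C * T)) C :=
    (h.bar_contOn_right hz).add ((h.kp_contOn_left hT hz').add continuousOn_const)
  obtain ⟨x, hx, hmin⟩ := h.comp.exists_isMinOn h.ne hc
  refine ⟨x, hx, le_antisymm (bar_right_le h hT hz (h.sub hx) hz') ?_⟩
  refine le_of_forall_pos_le_add fun ε hε => ?_
  obtain ⟨S0, hS0⟩ := bar_low h hε
  have h1 : bar K C z x + (kp K C T x z' + al K C * T) - ε ≤ tl K C (T + S0) z z' := by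
    refine le_tl fun n hn => ?_
    obtain ⟨m, rfl⟩ : ∃ m, n = m + T := ⟨n - T, by omega⟩
    obtain ⟨w, hw, hw'⟩ := kp_add_eq h (by omega : 1 ≤ m) hT hz hz'
    have h2 := hS0 m (by omega) (by omega) z hz w (h.sub hw)
    have h3 := hmin hw
    simp only [mem_ofPred_eq] at h3
    unfold nk
    rw [hw']
    push_cast
    linarith
  have h2 := h.tl_le_bar (T + S0) hz hz'
  linarith

theorem bar_tri (h : KD K C A B Λ) {z x z' : Y} (hz : z ∈ A) (hx : x ∈ A) (hz' : z' ∈ A) :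
    bar K C z z' ≤ bar K C z x + bar K C x z' := by
  have h1 : bar K C z z' - bar K C x z' ≤ tl K C 0 z x := by
    refine le_tl fun T hT => ?_
    have := bar_left_le h (T := T) (by omega) hz hx hz'
    unfold nk
    linarith
  have h2 := h.tl_le_bar 0 hz hx
  linarith

/-! ### comparison of kernels -/

lemma kp_le_add {K' : Y → Y → ℝ} {B' Λ' : ℝ} (h : KD K C A B Λ) (h' : KD K' C A B' Λ') {ρ : ℝ}
    (H : ∀ z ∈ A, ∀ z' ∈ A, K z z' ≤ K' z z' + ρ) {T : ℕ} (hT : 1 ≤ T) {z z' : Y} (hz : z ∈ A)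
    (hz' : z' ∈ A) : kp K C T z z' ≤ kp K' C T z z' + ρ * T := by
  obtain ⟨u, hu, hu'⟩ := exists_path h' hT hz hz'
  have hm := hu.mem h.sub hz hz'
  have h1 := kp_le_cost h hT (x := u) hm
  rw [hu.1, hu.2.1] at h1
  have h2 : cost K u T ≤ cost K' u T + ρ * T := by
    unfold cost
    have h3 : ∑ i ∈ Finset.range T, K (u i) (u (i + 1)) ≤
        ∑ i ∈ Finset.range T, (K' (u i) (u (i + 1)) + ρ) := by
      refine Finset.sum_le_sum fun i hi => ?_
      rw [Finset.mem_range] at hi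
      exact H _ (hm _ (by omega)) _ (hm _ (by omega))
    rw [Finset.sum_add_distrib, Finset.sum_const, Finset.card_range, nsmul_eq_mul] at h3
    linarith
  linarith

theorem kp_sub_le {K' : Y → Y → ℝ} {B' Λ' : ℝ} (h : KD K C A B Λ) (h' : KD K' C A B' Λ') {ρ : ℝ}
    (H : ∀ z ∈ A, ∀ z' ∈ A, |K z z' - K' z z'| ≤ ρ) {T : ℕ} (hT : 1 ≤ T) {z z' : Y} (hz : z ∈ A)
    (hz' : z' ∈ A) : |kp K C T z z' - kp K' C T z z'| ≤ ρ * T := by
  have h1 := kp_le_add h h' (fun z hz z' hz' => by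
    have := (abs_le.1 (H z hz z' hz')).2
    linarith) hT hz hz'
  have h2 := kp_le_add h' h (fun z hz z' hz' => by
    have := (abs_le.1 (H z hz z' hz')).1
    linarith) hT hz hz' (ρ := ρ)
  rw [abs_le]
  constructor <;> linarith

theorem kp_mono {K' : Y → Y → ℝ} {B' Λ' : ℝ} (h : KD K C A B Λ) (h' : KD K' C A B' Λ')
    (H : ∀ z ∈ A, ∀ z' ∈ A, K z z' ≤ K' z z') {T : ℕ} (hT : 1 ≤ T) {z z' : Y} (hz : z ∈ A)
    (hz' : z' ∈ A) : kp K C T z z' ≤ kp K' C T z z' := by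
  have h1 := kp_le_add h h' (ρ := 0) (fun z hz z' hz' => by
    have := H z hz z' hz'
    linarith) hT hz hz'
  linarith

theorem al_sub_le {K' : Y → Y → ℝ} {B' Λ' : ℝ} (h : KD K C A B Λ) (h' : KD K' C A B' Λ') {ρ : ℝ}
    (H : ∀ z ∈ A, ∀ z' ∈ A, |K z z' - K' z z'| ≤ ρ) : |al K C - al K' C| ≤ ρ := by
  obtain ⟨c, hc⟩ := h.ne
  have hcA := h.sub hc
  rw [abs_le]
  constructor
  · have : al K' C - ρ ≤ al K C := by
      refine le_al h (C' := 4 * B') fun n => ⟨n + 1, by omega, by omega, c, hcA, c, hcA, ?_⟩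
      have h1 := (abs_le.1 (kp_sub_le h h' H (T := n + 1) (by omega) hcA hcA)).2
      have h2 := (abs_le.1 (al_spec h' (T := n + 1) (by omega) hcA hcA)).2
      linarith
    linarith
  · have : al K C ≤ al K' C + ρ := by
      refine al_le h (C' := 4 * B') fun n => ⟨n + 1, by omega, by omega, c, hcA, c, hcA, ?_⟩
      have h1 := (abs_le.1 (kp_sub_le h h' H (T := n + 1) (by omega) hcA hcA)).1
      have h2 := (abs_le.1 (al_spec h' (T := n + 1) (by omega) hcA hcA)).1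
      linarith
    linarith

theorem al_mono {K' : Y → Y → ℝ} {B' Λ' : ℝ} (h : KD K C A B Λ) (h' : KD K' C A B' Λ')
    (H : ∀ z ∈ A, ∀ z' ∈ A, K z z' ≤ K' z z') : al K' C ≤ al K C := by
  obtain ⟨c, hc⟩ := h.ne
  have hcA := h.sub hc
  refine le_al h (C' := 4 * B') fun n => ⟨n + 1, by omega, by omega, c, hcA, c, hcA, ?_⟩
  have h1 := kp_mono h h' H (T := n + 1) (by omega) hcA hcA
  have h2 := (abs_le.1 (al_spec h' (T := n + 1) (by omega) hcA hcA)).2
  linarith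

/-! ### kernels with free duration -/

theorem gk_lip (h : KD K C A B Λ) {F : Finset ℕ} (hF : F.Nonempty) (hF1 : ∀ T ∈ F, 1 ≤ T) (c : ℕ → ℝ)
    {z z' w w' : Y} (hz : z ∈ A) (hz' : z' ∈ A) (hw : w ∈ A) (hw' : w' ∈ A) :
    |gk K C F c z z' - gk K C F c w w'| ≤ Λ * (dist z w + dist z' w') := by
  have _i : Nonempty F := hF.to_subtype
  refine abs_iInf_sub (Set.finite_range _).bddBelow (Set.finite_range _).bddBelow fun T => ?_
  rw [add_sub_add_right_eq_sub]
  exact kp_lip h (hF1 T T.2) hz hz' hw hw'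

theorem gk_sub_le {K' : Y → Y → ℝ} {B' Λ' : ℝ} (h : KD K C A B Λ) (h' : KD K' C A B' Λ') {ρ : ℝ}
    (H : ∀ z ∈ A, ∀ z' ∈ A, |K z z' - K' z z'| ≤ ρ) {F : Finset ℕ} (hF : F.Nonempty)
    (hF1 : ∀ T ∈ F, 1 ≤ T) (c : ℕ → ℝ) {z z' : Y} (hz : z ∈ A) (hz' : z' ∈ A) :
    |gk K C F c z z' - gk K' C F c z z'| ≤ ρ * F.sup id := by
  have _i : Nonempty F := hF.to_subtype
  refine abs_iInf_sub (Set.finite_range _).bddBelow (Set.finite_range _).bddBelow fun T => ?_
  rw [add_sub_add_right_eq_sub]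
  have hρ : 0 ≤ ρ := (abs_nonneg _).trans (H z hz z' hz')
  refine (kp_sub_le h h' H (hF1 T T.2) hz hz').trans (mul_le_mul_of_nonneg_left ?_ hρ)
  have : (T : ℕ) ≤ F.sup id := Finset.le_sup (f := id) T.2
  exact_mod_cast this

/-- decoupled window => decoupled barrier -/
theorem bar_decoupled (h : KD K C A B Λ) {F : Finset ℕ} (hF : F.Nonempty) (hF1 : ∀ T ∈ F, 1 ≤ T)
    (c : ℕ → ℝ) {a b : Y → ℝ} {ε : ℝ}
    (H : ∀ z ∈ A, ∀ z' ∈ A, |gk K C F c z z' - a z - b z'| ≤ ε) :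
    ∃ b' : Y → ℝ, ∀ z ∈ A, ∀ z' ∈ A, |bar K C z z' - a z - b' z'| ≤ ε := by
  have _i := h.ne.to_subtype
  obtain ⟨c0, hc0⟩ := h.ne
  obtain ⟨t, ht, hmax⟩ := F.exists_max_image (fun T => al K C * (T : ℝ) - c T) hF
  set θ : ℝ := al K C * (t : ℝ) - c t with hθ
  have hbdd : ∀ z' ∈ A, BddBelow (range fun x : C => b x + bar K C x z') := by
    intro z' hz'
    obtain ⟨T0, hT0, hT0'⟩ := gk_attained hF c c0 c0 (K := K) (C := C)
    refine ⟨-(B * (F.sup id)) - (∑ T ∈ F, |c T|) - a c0 - ε - 4 * B, ?_⟩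
    rintro _ ⟨x, rfl⟩
    obtain ⟨T, hT, hT'⟩ := gk_attained hF c c0 x (K := K) (C := C)
    have h1 := (abs_le.1 (H c0 (h.sub hc0) x (h.sub x.2))).2
    have h2 := (abs_le.1 (bar_bd h (h.sub x.2) hz')).1
    obtain ⟨n, hn⟩ : ∃ n, T = n + 1 := ⟨T - 1, by have := hF1 T hT; omega⟩
    have h3 := (abs_le.1 (h.kp_bd n c0 (h.sub hc0) x (h.sub x.2))).1
    have h4 : (T : ℝ) ≤ F.sup id := by
      have : T ≤ F.sup id := Finset.le_sup (f := id) hT
      exact_mod_cast this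
    have h5 : |c T| ≤ ∑ T ∈ F, |c T| :=
      Finset.single_le_sum (f := fun T => |c T|) (fun i _ => abs_nonneg _) hT
    have h6 := (abs_le.1 (le_refl |c T|)).1
    have h7 : B * (n + 1) ≤ B * (F.sup id : ℕ) := by
      have h8 : ((n : ℝ) + 1) = T := by rw [hn]; push_cast; ring
      rw [h8]
      exact mul_le_mul_of_nonneg_left h4 h.B_nonneg
    rw [hT', hn] at h1
    rw [hn] at h5 h6
    simp only
    linarith
  refine ⟨fun z' => (⨅ x : C, (b x + bar K C x z')) + θ, fun z hz z' hz' => ?_⟩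
  rw [abs_le]
  constructor
  · obtain ⟨x, hx, hx'⟩ := bar_left_eq h (hF1 t ht) hz hz'
    have h1 := gk_le h c ht z x
    have h2 := (abs_le.1 (H z hz x (h.sub hx))).1
    have h3 := ciInf_le (hbdd z' hz') ⟨x, hx⟩
    simp only at h3
    rw [hx']
    linarith
  · have h1 : bar K C z z' - a z - ε - θ ≤ ⨅ x : C, (b x + bar K C x z') := by
      refine le_ciInf fun x => ?_
      obtain ⟨T, hT, hT'⟩ := gk_attained hF c z x (K := K) (C := C)
      have h2 := (abs_le.1 (H z hz x (h.sub x.2))).2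
      have h3 := bar_left_le h (hF1 T hT) hz (h.sub x.2) hz'
      have h4 := hmax T hT
      rw [hT'] at h2
      linarith
    linarith

end Esc
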