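import Pool.Agent.helper33.Esc.Open
import Pool.Agent.helper33.Esc.Bump

/-!
Points of the middle strip (plan section 6a).
-/

noncomputable section

namespace Esc

open MeasureTheory Set Filter Topology
open scoped ContDiff
open H33

namespace KD

variable {Y : Type*} [PseudoMetricSpace Y] {K : Y → Y → ℝ} {C A : Set Y} {B Λ : ℝ}

lemma bar_red_right (h : KD K C A B Λ) {z' c : Y} (hc : ∀ x ∈ A, K x z' = K x c) {z : Y} (hz : z ∈ A) :
    bar K C z z' = bar K C z c := by
  unfold bar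
  congr 1
  funext S
  congr 1
  funext j
  rw [h.kp_red_right hc (S + j) z hz]

lemma bar_red_left (h : KD K C A B Λ) {z c z' : Y} (hc : ∀ x ∈ A, K z x = K c x) (hz' : z' ∈ A) :
    bar K C z z' = bar K C c z' := by
  unfold bar
  congr 1
  funext S
  congr 1
  funext j
  rw [h.kp_red_left hc hz' (S + j)]

end KD

namespace Mid

variable {d : ℕ} {E : Type*} [NormedAddCommGroup E] [InnerProductSpace ℝ E] [FiniteDimensional ℝ E]
  (L : Lat d E)

lemma sub_g_room {p : ℝ} {z : E} (h : 1 / 8 ≤ L.y z - p) (h' : L.y z - p ≤ 7 / 8) :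
    z - L.g ∈ L.room p := by
  show |L.y (z - L.g) - p| ≤ 7 / 8
  rw [H33.y_sub, H33.y_g, abs_le]
  constructor <;> linarith

lemma mem_room {p : ℝ} {z : E} (h : 1 / 8 ≤ L.y z - p) (h' : L.y z - p ≤ 7 / 8) : z ∈ L.room p := by
  show |L.y z - p| ≤ 7 / 8
  rw [abs_le]
  constructor <;> linarith

lemma add_g_room {p : ℝ} {z : E} (h : -(7 / 8) ≤ L.y z - p) (h' : L.y z - p ≤ -(1 / 8)) :
    z + L.g ∈ L.room p := by
  show |L.y (z + L.g) - p| ≤ 7 / 8
  rw [H33.y_add, H33.y_g, abs_le]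
  constructor <;> linarith

/-- a minimizer of a continuous periodic function on the slab -/
lemma exists_min (p : ℝ) {W : E → ℝ}
    (hper : ∀ (m : Fin d → ℤ) z, z ∈ L.room p → 1 / 8 ≤ L.y z - p → W (z + L.lv m) = W z)
    (hc : ContinuousOn W ({z | 1 / 8 ≤ L.y z - p} ∩ L.room p)) :
    ∃ zb, 1 / 8 ≤ L.y zb - p ∧ L.y zb - p ≤ 7 / 8 ∧
      ∀ z, 1 / 8 ≤ L.y z - p → L.y z - p ≤ 7 / 8 → W zb ≤ W z := by
  have hclosed : IsClosed {z : E | 1 / 8 ≤ L.y z - p} :=
    isClosed_le continuous_const ((H33.y_continuous L).sub continuous_const)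
  have hcomp : IsCompact ({z : E | 1 / 8 ≤ L.y z - p} ∩ L.cell p) :=
    (cell_compact L p).inter_left hclosed
  have hred : ∀ z, 1 / 8 ≤ L.y z - p → L.y z - p ≤ 7 / 8 →
      ∃ m : Fin d → ℤ, z + L.lv m ∈ {z : E | 1 / 8 ≤ L.y z - p} ∩ L.cell p := by
    intro z h1 h2
    obtain ⟨m, hm⟩ := exists_lv_cell L p z (mem_room L h1 h2)
    refine ⟨m, ?_, hm⟩
    show 1 / 8 ≤ L.y (z + L.lv m) - p
    rw [H33.y_add, H33.y_lv, add_zero]
    exact h1
  have hne : ({z : E | 1 / 8 ≤ L.y z - p} ∩ L.cell p).Nonempty := by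
    have hy : L.y ((p + 1 / 2) • L.e) = p + 1 / 2 := by
      rw [H33.y_smul, H33.y_e, mul_one]
    obtain ⟨m, hm⟩ := hred ((p + 1 / 2) • L.e) (by rw [hy]; linarith) (by rw [hy]; linarith)
    exact ⟨_, hm⟩
  have hsub : {z : E | 1 / 8 ≤ L.y z - p} ∩ L.cell p ⊆ {z | 1 / 8 ≤ L.y z - p} ∩ L.room p :=
    fun z hz => ⟨hz.1, cell_subset L p hz.2⟩
  obtain ⟨zb, hzb, hmin⟩ := hcomp.exists_isMinOn hne (hc.mono hsub)
  have hzr : |L.y zb - p| ≤ 7 / 8 := cell_subset L p hzb.2
  refine ⟨zb, hzb.1, (abs_le.1 hzr).2, fun z h1 h2 => ?_⟩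
  obtain ⟨m, hm⟩ := hred z h1 h2
  have h3 := hmin hm
  rw [mem_ofPred_eq, hper m z (mem_room L h1 h2) h1] at h3
  exact h3

lemma cost_le {K K' : E → E → ℝ} {δ : ℝ} {x x' : ℕ → E} {T : ℕ}
    (h : ∀ i < T, K' (x' i) (x' (i + 1)) ≤ K (x i) (x (i + 1)) + δ) :
    cost K' x' T ≤ cost K x T + T * δ := by
  unfold cost
  have h3 : ∑ i ∈ Finset.range T, K' (x' i) (x' (i + 1)) ≤
      ∑ i ∈ Finset.range T, (K (x i) (x (i + 1)) + δ) := by
    refine Finset.sum_le_sum fun i hi => ?_
    rw [Finset.mem_range] at hi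
    exact h i hi
  rw [Finset.sum_add_distrib, Finset.sum_const, Finset.card_range, nsmul_eq_mul] at h3
  exact h3

end Mid

open Mid

variable {d : ℕ} {E : Type*} [NormedAddCommGroup E] [InnerProductSpace ℝ E] [FiniteDimensional ℝ E]
  (L : Lat d E)

theorem mid_point {p β Φ M0 s s' δ : ℝ} {f : E → ℝ → ℝ} (hf : L.IsPot f) (hD : L.Dat p β Φ M0 f)
    (hs : M0 ≤ s) (hs' : M0 ≤ s') (hδ : ∀ z ∈ L.room p, ∀ z' ∈ L.room p, |L.kbar f s z z' - L.kbar f s' z z'| ≤ δ)
    {zs : E} (hzs : zs ∈ L.room p) :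
    ∃ z0, 3 / 8 ≤ L.y z0 - p ∧ L.y z0 - p ≤ 5 / 8 ∧ ∀ z, 1 / 8 ≤ L.y z - p → L.y z - p ≤ 7 / 8 →
      bar (L.kbar f s) (L.cell p) zs z0 + bar (L.kbar f s') (L.cell p) (z0 - L.g) zs ≤
      bar (L.kbar f s) (L.cell p) zs z + bar (L.kbar f s') (L.cell p) (z - L.g) zs + 2 * Lat.R1 β * δ := by
  classical
  obtain ⟨M, hM⟩ := isPot_good L hf
  obtain ⟨B, Λ, hB, hΛ, hKD⟩ := kd_kbar L M
  have hK : ∀ s, KD (L.kbar f s) (L.cell p) (L.room p) B Λ := fun s => hKD f hM hf.perb s p
  obtain ⟨ε, hS, h3⟩ := sdata_of_dat L hf hD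
  have hδ0 : 0 ≤ δ := (abs_nonneg _).trans (hδ zs hzs zs hzs)
  have hR0 : (0 : ℝ) ≤ Lat.R1 β := Nat.cast_nonneg _
  have hal : |al (L.kbar f s) (L.cell p) - al (L.kbar f s') (L.cell p)| ≤ δ :=
    al_sub_le (hK s) (hK s') hδ
  have hal1 := (abs_le.1 hal).1
  have hal2 := (abs_le.1 hal).2
  have hshift : ∀ s z w, L.kbar f s (z - L.g) (w - L.g) = L.kbar f s z w := by
    intro s z w
    have := kbar_perg L hf.perg s (z - L.g) (w - L.g)
    rw [sub_add_cancel, sub_add_cancel] at this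
    exact this.symm
  have hshift' : ∀ s z w, L.kbar f s (z + L.g) (w + L.g) = L.kbar f s z w :=
    fun s z w => kbar_perg L hf.perg s z w
  have hperr : ∀ s (m : Fin d → ℤ) z x, L.kbar f s x (z + L.lv m) = L.kbar f s x z := by
    intro s m z x
    have := kbar_per L hf.perb s x z 0 m
    rwa [H33.lv_zero, add_zero] at this
  have hperl : ∀ s (m : Fin d → ℤ) z x, L.kbar f s (z + L.lv m) x = L.kbar f s z x := by
    intro s m z x
    have := kbar_per L hf.perb s z x m 0
    rwa [H33.lv_zero, add_zero] at this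
  set W : E → ℝ := fun z => bar (L.kbar f s) (L.cell p) zs z + bar (L.kbar f s') (L.cell p) (z - L.g) zs
    with hW
  obtain ⟨zb, hzb1, hzb2, hmin⟩ := exists_min L p (W := W) (by
    intro m z hz _
    rw [hW]
    simp only
    rw [(hK s).bar_red_right (z' := z + L.lv m) (c := z) (fun x _ => hperr s m z x) hzs,
      show z + L.lv m - L.g = (z - L.g) + L.lv m by abel,
      (hK s').bar_red_left (z := z - L.g + L.lv m) (c := z - L.g)
        (fun x _ => hperl s' m (z - L.g) x) hzs]) (by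
    refine ModD.contOn_of_lip (L := 2 * Λ) fun x hx w hw => ?_
    have hx2 : L.y x - p ≤ 7 / 8 := (abs_le.1 hx.2).2
    have hw2 : L.y w - p ≤ 7 / 8 := (abs_le.1 hw.2).2
    have h1 := bar_lip (hK s) hzs hx.2 hzs hw.2
    have h2 := bar_lip (hK s') (sub_g_room L hx.1 hx2) hzs (sub_g_room L hw.1 hw2) hzs
    rw [dist_self, zero_add] at h1
    rw [dist_self, add_zero, dist_sub_right] at h2
    rw [hW]
    simp only
    have h4 := abs_add_le (bar (L.kbar f s) (L.cell p) zs x - bar (L.kbar f s) (L.cell p) zs w)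
      (bar (L.kbar f s') (L.cell p) (x - L.g) zs - bar (L.kbar f s') (L.cell p) (w - L.g) zs)
    rw [show bar (L.kbar f s) (L.cell p) zs x + bar (L.kbar f s') (L.cell p) (x - L.g) zs
      - (bar (L.kbar f s) (L.cell p) zs w + bar (L.kbar f s') (L.cell p) (w - L.g) zs)
      = bar (L.kbar f s) (L.cell p) zs x - bar (L.kbar f s) (L.cell p) zs w
      + (bar (L.kbar f s') (L.cell p) (x - L.g) zs - bar (L.kbar f s') (L.cell p) (w - L.g) zs) by ring]
    linarith)
  have hzbr := mem_room L hzb1 hzb2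
  have hzbg := sub_g_room L hzb1 hzb2
  -- it is enough to compare with the minimizer
  suffices hsuf : ∃ z0, 3 / 8 ≤ L.y z0 - p ∧ L.y z0 - p ≤ 5 / 8 ∧ W z0 ≤ W zb + 2 * Lat.R1 β * δ by
    obtain ⟨z0, h1, h2, h3⟩ := hsuf
    refine ⟨z0, h1, h2, fun z hz1 hz2 => ?_⟩
    have := hmin z hz1 hz2
    show W z0 ≤ W z + 2 * Lat.R1 β * δ
    linarith
  set T : ℕ := 900 + 2 * Lat.R1 β + 2 with hT
  by_cases hA : 5 / 8 < L.y zb - p
  · -- path from the left ending at `zb`
    obtain ⟨x, hx, hxe⟩ := bar_right_eq (hK s) (T := T) (by omega) hzs hzbr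
    have hxr := cell_subset L p hx
    obtain ⟨u, hu, huc⟩ := exists_path (hK s) (T := T) (by omega) hxr hzbr
    have hur := hu.mem (cell_subset L p) hxr hzbr
    have hnm := nm_of_min (β := β) (Φ := Φ) (M0 := M0) L (hK s) (h3 s hs) (T := T) (by omega) hur
      (by rw [huc, hu.1, hu.2.1])
    obtain ⟨t, ht1, ht2, ht3⟩ := surg1 hS hnm (i := T - Lat.R1 β) (by omega)
    have htn := abs_lt.1 (hS.ker.N_close ht3.1 (ht3.wide hS).2)
    have hex : ∃ a, L.y (u (T - a)) - p ≤ 5 / 8 := ⟨T - t, by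
      rw [show T - (T - t) = t by omega]; linarith [htn.2]⟩
    set a := Nat.find hex with ha
    have ha1 : L.y (u (T - a)) - p ≤ 5 / 8 := Nat.find_spec hex
    have ha2 : ∀ b, b < a → 5 / 8 < L.y (u (T - b)) - p := fun b hb => not_le.1 (Nat.find_min hex hb)
    have ha3 : a ≤ T - t := Nat.find_min' hex (by
      rw [show T - (T - t) = t by omega]; linarith [htn.2])
    have ha0 : 0 < a := by
      rcases Nat.eq_zero_or_pos a with h | h
      · rw [h, Nat.sub_zero, hu.2.1] at ha1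
        exact absurd ha1 (not_le.2 hA)
      · exact h
    set k := T - a with hk
    have hkT : k + a = T := by omega
    have hk1 : 1 ≤ k := by omega
    have hstep := surg4 hS hnm (by omega) (k := k) (by omega)
    have hnext := ha2 (a - 1) (by omega)
    rw [show T - (a - 1) = k + 1 by omega] at hnext
    have hk3 : 3 / 8 ≤ L.y (u k) - p := by
      have := (abs_lt.1 hstep).2
      linarith
    have hukr := hur k (by omega)
    refine ⟨u k, hk3, ha1, ?_⟩
    -- sites after `k`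
    have hlate : ∀ i, i ≤ a → 1 / 8 ≤ L.y (u (k + i)) - p ∧ L.y (u (k + i)) - p ≤ 7 / 8 := by
      intro i hi
      have hr : |L.y (u (k + i)) - p| ≤ 7 / 8 := hur (k + i) (by omega)
      refine ⟨?_, (abs_le.1 hr).2⟩
      rcases Nat.eq_zero_or_pos i with h | h
      · rw [h, Nat.add_zero]; linarith
      · have := ha2 (a - i) (by omega)
        rw [show T - (a - i) = k + i by omega] at this
        linarith
    have hsplit := cost_add (L.kbar f s) u k a
    rw [hkT] at hsplit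
    have hb1 := bar_right_le (hK s) hk1 hzs hxr hukr
    have hb2 := kp_le_cost (hK s) hk1 (x := u) (fun i hi => hur i (by omega))
    rw [hu.1] at hb2
    have hb3 := bar_left_le (hK s') (T := a) (by omega) (z := u k - L.g) (x := zb - L.g)
      (z' := zs) (by
        have := hlate 0 (by omega)
        exact sub_g_room L this.1 this.2) hzbg hzs
    have hb4 := kp_le_cost (hK s') (T := a) (by omega) (x := fun i => u (k + i) - L.g)
      (fun i hi => sub_g_room L (hlate i hi).1 (hlate i hi).2)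
    simp only [Nat.add_zero] at hb4
    rw [hkT, hu.2.1] at hb4
    have hb5 := cost_le (K := L.kbar f s) (K' := L.kbar f s') (δ := δ) (x := fun i => u (k + i))
      (x' := fun i => u (k + i) - L.g) (T := a) (fun i hi => by
        rw [hshift]
        have := (abs_le.1 (hδ (u (k + i)) (hur _ (by omega)) (u (k + (i + 1))) (hur _ (by omega)))).1
        linarith)
    have hTk : (T : ℝ) = k + a := by rw [← hkT]; push_cast; ring
    have haR : (a : ℝ) ≤ Lat.R1 β := by exact_mod_cast (by omega : a ≤ Lat.R1 β)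
    have ha0' : (0 : ℝ) ≤ a := Nat.cast_nonneg a
    have hWb : W zb = bar (L.kbar f s) (L.cell p) zs zb + bar (L.kbar f s') (L.cell p) (zb - L.g) zs := rfl
    have hWk : W (u k) = bar (L.kbar f s) (L.cell p) zs (u k)
      + bar (L.kbar f s') (L.cell p) (u k - L.g) zs := rfl
    rw [hWb, hWk, hxe, ← huc, hsplit, hTk]
    have e1 : al (L.kbar f s') (L.cell p) * (a : ℝ) ≤ (al (L.kbar f s) (L.cell p) + δ) * a :=
      mul_le_mul_of_nonneg_right (by linarith) ha0'
    have e2 : (a : ℝ) * δ ≤ Lat.R1 β * δ := mul_le_mul_of_nonneg_right haR hδ0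
    nlinarith
  push Not at hA
  by_cases hC : 3 / 8 ≤ L.y zb - p
  · refine ⟨zb, hC, hA, ?_⟩
    have : 0 ≤ 2 * (Lat.R1 β : ℝ) * δ := by positivity
    linarith
  · push Not at hC
    -- path to the right starting at `zb - g`
    obtain ⟨x, hx, hxe⟩ := bar_left_eq (hK s') (T := T) (by omega) hzbg hzs
    have hxr := cell_subset L p hx
    obtain ⟨v, hv, hvc⟩ := exists_path (hK s') (T := T) (by omega) hzbg hxr
    have hvr := hv.mem (cell_subset L p) hzbg hxr
    have hnm := nm_of_min (β := β) (Φ := Φ) (M0 := M0) L (hK s') (h3 s' hs') (T := T) (by omega) hvr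
      (by rw [hvc, hv.1, hv.2.1])
    obtain ⟨t, ht1, ht2, ht3⟩ := surg1 hS hnm (i := 0) (by omega)
    have htn := abs_lt.1 (hS.ker.N_close ht3.1 (ht3.wide hS).2)
    have hex : ∃ a, -(5 / 8) ≤ L.y (v a) - p := ⟨t, by linarith [htn.1]⟩
    set k := Nat.find hex with hkdef
    have ha1 : -(5 / 8) ≤ L.y (v k) - p := Nat.find_spec hex
    have ha2 : ∀ b, b < k → L.y (v b) - p < -(5 / 8) := fun b hb => not_le.1 (Nat.find_min hex hb)
    have ha3 : k ≤ t := Nat.find_min' hex (by linarith [htn.1])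
    have hk1 : 1 ≤ k := by
      rcases Nat.eq_zero_or_pos k with h | h
      · rw [h, hv.1, H33.y_sub, H33.y_g] at ha1
        exfalso
        linarith
      · exact h
    have hstep := surg4 hS hnm (by omega) (k := k - 1) (by omega)
    rw [show k - 1 + 1 = k by omega] at hstep
    have hprev := ha2 (k - 1) (by omega)
    have hk3 : L.y (v k) - p < -(3 / 8) := by
      have := (abs_lt.1 hstep).2
      linarith
    have hvkr := hvr k (by omega)
    have hearly : ∀ i, i ≤ k → -(7 / 8) ≤ L.y (v i) - p ∧ L.y (v i) - p ≤ -(1 / 8) := by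
      intro i hi
      have hr : |L.y (v i) - p| ≤ 7 / 8 := hvr i (by omega)
      refine ⟨(abs_le.1 hr).1, ?_⟩
      rcases Nat.eq_or_lt_of_le hi with h | h
      · rw [h]; linarith
      · linarith [ha2 i h]
    set a := T - k with hadef
    have hkT : k + a = T := by omega
    refine ⟨v k + L.g, ?_, ?_, ?_⟩
    · rw [H33.y_add, H33.y_g]; linarith
    · rw [H33.y_add, H33.y_g]; linarith
    have hsplit := cost_add (L.kbar f s') v k a
    rw [hkT] at hsplit
    have hb1 := bar_left_le (hK s') (T := a) (by omega) hvkr hxr hzs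
    have hb2 := kp_le_cost (hK s') (T := a) (by omega) (x := fun i => v (k + i))
      (fun i hi => hvr _ (by omega))
    simp only [Nat.add_zero] at hb2
    rw [hkT, hv.2.1] at hb2
    have hvk := hearly k le_rfl
    have hb3 := bar_right_le (hK s) hk1 hzs hzbr (add_g_room L hvk.1 hvk.2)
    have hb4 := kp_le_cost (hK s) hk1 (x := fun i => v i + L.g)
      (fun i hi => add_g_room L (hearly i hi).1 (hearly i hi).2)
    rw [hv.1, sub_add_cancel] at hb4
    have hb5 := cost_le (K := L.kbar f s') (K' := L.kbar f s) (δ := δ) (x := v)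
      (x' := fun i => v i + L.g) (T := k) (fun i hi => by
        rw [hshift']
        have := (abs_le.1 (hδ (v i) (hvr _ (by omega)) (v (i + 1)) (hvr _ (by omega)))).2
        linarith)
    have hTk : (T : ℝ) = k + a := by rw [← hkT]; push_cast; ring
    have haR : (k : ℝ) ≤ Lat.R1 β := by exact_mod_cast (by omega : k ≤ Lat.R1 β)
    have hk0' : (0 : ℝ) ≤ k := Nat.cast_nonneg k
    have hWb : W zb = bar (L.kbar f s) (L.cell p) zs zb + bar (L.kbar f s') (L.cell p) (zb - L.g) zs := rfl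
    have hWk : W (v k + L.g) = bar (L.kbar f s) (L.cell p) zs (v k + L.g)
      + bar (L.kbar f s') (L.cell p) (v k + L.g - L.g) zs := rfl
    rw [hWb, hWk, hxe, ← hvc, hsplit, hTk, add_sub_cancel_right]
    have e1 : al (L.kbar f s) (L.cell p) * (k : ℝ) ≤ (al (L.kbar f s') (L.cell p) + δ) * k :=
      mul_le_mul_of_nonneg_right (by linarith) hk0'
    have e2 : (k : ℝ) * δ ≤ Lat.R1 β * δ := mul_le_mul_of_nonneg_right haR hδ0
    nlinarith

end Esc
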