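import Pool.Agent.helper1.Esc.Fam
import Pool.Agent.helper42.TonBump

/-!
The clock: a slowly modulated time change that rushes through all resonances.
-/

noncomputable section

namespace Ton

open Real Filter Topology

/-- derivatives of the smooth step -/
def Ph (k : ℕ) : ℝ → ℝ := iteratedDeriv k Real.smoothTransition

lemma Ph_hasDerivAt (k : ℕ) (x : ℝ) : HasDerivAt (Ph k) (Ph (k + 1) x) x := by
  have h : Differentiable ℝ (iteratedDeriv k Real.smoothTransition) :=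
    (Real.smoothTransition.contDiff (n := ⊤)).differentiable_iteratedDeriv k
      (by exact_mod_cast WithTop.coe_lt_top k)
  have := (h x).hasDerivAt
  rw [← iteratedDeriv_succ] at this
  exact this

lemma Ph_ev_zero {k : ℕ} (hk : 1 ≤ k) {x : ℝ} (hx : x < 0 ∨ 1 < x) : Ph k =ᶠ[𝓝 x] fun _ => 0 := by
  induction k with
  | zero => omega
  | succ k ih =>
    have e : Ph (k + 1) = deriv (Ph k) := by
      funext x
      exact (Ph_hasDerivAt k x).deriv.symm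
    rw [e]
    rcases Nat.eq_zero_or_pos k with h | h
    · subst h
      have h0 : Ph 0 = Real.smoothTransition := by
        unfold Ph; exact iteratedDeriv_zero
      rw [h0]
      rcases hx with hx | hx
      · have h1 : Real.smoothTransition =ᶠ[𝓝 x] fun _ => 0 := by
          filter_upwards [Iio_mem_nhds hx] with y hy
          exact Real.smoothTransition.zero_of_nonpos (le_of_lt hy)
        simpa using h1.deriv
      · have h1 : Real.smoothTransition =ᶠ[𝓝 x] fun _ => 1 := by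
          filter_upwards [Ioi_mem_nhds hx] with y hy
          exact Real.smoothTransition.one_of_one_le (le_of_lt hy)
        simpa using h1.deriv
    · simpa using (ih h).deriv

lemma Ph_zero {k : ℕ} (hk : 1 ≤ k) {x : ℝ} (hx : x < 0 ∨ 1 < x) : Ph k x = 0 :=
  (Ph_ev_zero hk hx).eq_of_nhds

lemma Ph0 : Ph 0 = Real.smoothTransition := by
  unfold Ph; exact iteratedDeriv_zero

lemma Ph_bd (k : ℕ) : ∃ B, 0 ≤ B ∧ ∀ x, |Ph k x| ≤ B := by
  obtain ⟨C, h0, hC⟩ := BdD_S.2 k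
  refine ⟨C, h0, fun x => ?_⟩
  have := hC x
  rwa [norm_iteratedFDeriv_eq_norm_iteratedDeriv] at this

lemma Ph_TL (m : ℕ) : (TL (-1) m 0 (Ph 0)) ∧ ∀ k, 1 ≤ k → ∀ c, TL (-1) m c (Ph k) := by
  have hb0 : Bd 0 (Ph 0) := by
    obtain ⟨B, _, hB⟩ := Ph_bd 0
    exact ⟨B, fun t => by simpa using hB t⟩
  have hb : ∀ k, 1 ≤ k → ∀ c, Bd c (Ph k) := by
    intro k hk c
    obtain ⟨B, hB0, hB⟩ := Ph_bd k
    refine ⟨B * (2 ^ |c|), fun t => ?_⟩
    by_cases ht : t < 0 ∨ 1 < t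
    · rw [Ph_zero hk ht, norm_zero]
      exact mul_nonneg (mul_nonneg hB0 (by positivity)) (jb_rpow_pos _ _).le
    · push Not at ht
      have h1 : jb t ≤ 2 := (jb_le t).trans (by rw [abs_of_nonneg ht.1]; linarith)
      have h2 : 1 ≤ (2:ℝ) ^ |c| * jb t ^ (-c) := by
        have h3 : jb t ^ c ≤ 2 ^ |c| :=
          (jb_rpow_le (le_abs_self c) t).trans
            (Real.rpow_le_rpow (jb_pos t).le h1 (abs_nonneg c))
        calc 1 = jb t ^ c * jb t ^ (-c) := by rw [jb_rpow_add, add_neg_cancel, Real.rpow_zero]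
          _ ≤ _ := mul_le_mul_of_nonneg_right h3 (jb_rpow_pos _ _).le
      calc ‖Ph k t‖ ≤ B * 1 := by simpa using hB t
        _ ≤ B * ((2:ℝ) ^ |c| * jb t ^ (-c)) := mul_le_mul_of_nonneg_left h2 hB0
        _ = _ := by ring
  have hd : ∀ k, deriv (Ph k) = Ph (k + 1) := by
    intro k
    funext x
    exact (Ph_hasDerivAt k x).deriv
  induction m with
  | zero => exact ⟨hb0, hb⟩
  | succ m ih =>
    refine ⟨⟨hb0, fun x => (Ph_hasDerivAt 0 x).differentiableAt, ?_⟩, fun k hk c =>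
      ⟨hb k hk c, fun x => (Ph_hasDerivAt k x).differentiableAt, ?_⟩⟩
    · rw [hd]; exact ih.2 1 le_rfl _
    · rw [hd]; exact ih.2 (k + 1) (by omega) _

section clock

variable (Λ α γ : ℝ) (L : ℕ)

/-- active region of the index `q` -/
def cP (q : ℕ) (t : ℝ) : Prop := (q : ℝ) ^ L ≤ jb t

/-- rescaled time -/
def cw (q : ℕ) (t : ℝ) : ℝ := jb t / (q : ℝ) ^ L

/-- cutoffs and their derivatives -/
def cth (k m : ℕ) (q : ℕ) (t : ℝ) : ℝ := Ph k (cw L q t - 1) * cw L q t ^ m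

/-- phase -/
def cZ (q : ℕ) (t : ℝ) : ℝ := (q : ℝ) * (2 * π * Λ * jb t ^ α)

/-- derivative of the phase -/
def cZd (q : ℕ) (t : ℝ) : ℝ := (q : ℝ) * (2 * π * Λ * (α * (t * jb t ^ (α - 2))))

/-- argument of the smoothed sign -/
def cu (q : ℕ) (t : ℝ) : ℝ := jb t ^ γ * Real.sin (cZ Λ α q t)

/-- its derivative -/
def cud (q : ℕ) (t : ℝ) : ℝ := γ * (t * jb t ^ (γ - 2)) * Real.sin (cZ Λ α q t)
  + jb t ^ γ * (Real.cos (cZ Λ α q t) * cZd Λ α q t)

/-- window -/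
def cH (q : ℕ) (t : ℝ) : ℝ := (1 + Real.cos (cZ Λ α q t)) / 2

/-- one resonance -/
def cf (q : ℕ) (t : ℝ) : ℝ :=
  (Ph 0 t * cth L 0 0 q t) * (jb t ^ (1 - α) * (iG (cu Λ α γ q t) * cH Λ α q t))

lemma cw_hasDerivAt (q : ℕ) (t : ℝ) :
    HasDerivAt (cw L q) (t * jb t ^ (-2 : ℝ) * cw L q t) t := by
  have h := (jb_hasDerivAt t).div_const ((q : ℝ) ^ L)
  have e : t / jb t / (q : ℝ) ^ L = t * jb t ^ (-2 : ℝ) * cw L q t := by
    unfold cw
    have h1 : jb t ^ (-2 : ℝ) * jb t = (jb t)⁻¹ := by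
      rw [← Real.rpow_add_one (jb_pos t).ne', ← Real.rpow_neg_one]
      norm_num
    rw [mul_assoc, ← mul_div_assoc, h1]
    ring
  rw [e] at h
  exact h

lemma cth_hasDerivAt (k m : ℕ) (q : ℕ) (t : ℝ) :
    HasDerivAt (cth L k m q)
      (t * jb t ^ (-2 : ℝ) * (cth L (k + 1) (m + 1) q t + m * cth L k m q t)) t := by
  have h1 := cw_hasDerivAt L q t
  have h2 : HasDerivAt (fun t => Ph k (cw L q t - 1))
      (Ph (k + 1) (cw L q t - 1) * (t * jb t ^ (-2 : ℝ) * cw L q t)) t :=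
    (Ph_hasDerivAt k (cw L q t - 1)).comp t (h1.sub_const 1)
  have h3 := h2.mul (h1.pow m)
  refine h3.congr_deriv ?_
  unfold cth
  rcases Nat.eq_zero_or_pos m with h | h
  · subst h; simp; ring
  · obtain ⟨n, rfl⟩ : ∃ n, m = n + 1 := ⟨m - 1, by omega⟩
    simp only [Pi.pow_apply, Nat.add_sub_cancel]
    ring

lemma cw_bd {k m q : ℕ} (hk : 1 ≤ k ∨ m = 0) {B : ℝ} (hB0 : 0 ≤ B) (hB : ∀ x, |Ph k x| ≤ B)
    (t : ℝ) : |cth L k m q t| ≤ B * 2 ^ m := by
  unfold cth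
  rcases hk with hk | hk
  · by_cases hx : cw L q t - 1 < 0 ∨ 1 < cw L q t - 1
    · rw [Ph_zero hk hx, zero_mul, abs_zero]; positivity
    · push Not at hx
      have h0 : 0 ≤ cw L q t := by linarith [hx.1]
      rw [abs_mul, abs_pow, abs_of_nonneg h0]
      exact mul_le_mul (hB _) (pow_le_pow_left₀ h0 (by linarith [hx.2]) m) (by positivity) hB0
  · subst hk
    simpa using hB _

lemma cth_VL (P : ℕ → ℝ → Prop) (M : ℕ) : ∀ k m : ℕ, (1 ≤ k ∨ m = 0) → VL P (-1) M 0 (cth L k m) := by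
  have hb : ∀ k m : ℕ, (1 ≤ k ∨ m = 0) → VB P 0 (cth L k m) := by
    intro k m hk
    obtain ⟨B, hB0, hB⟩ := Ph_bd k
    exact ⟨B * 2 ^ m, fun q t _ => by simpa using cw_bd L hk hB0 hB t⟩
  induction M with
  | zero => exact hb
  | succ M ih =>
    intro k m hk
    refine ⟨hb k m hk, fun q t => (cth_hasDerivAt L k m q t).differentiableAt, ?_⟩
    have e : (fun q => deriv (cth L k m q))
        = fun q t => t * jb t ^ (-2 : ℝ) * (cth L (k + 1) (m + 1) q t + m * cth L k m q t) := by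
      funext q t
      exact (cth_hasDerivAt L k m q t).deriv
    rw [e]
    have h1 : TL (-1) M 1 (fun t => t * jb t ^ (-2 : ℝ)) :=
      ((TA_id M).mul (TA_jb_rpow (-2) M)).mono le_rfl (by norm_num)
    have h2 := VL.add (ih (k + 1) (m + 1) (Or.inl (by omega))) (VL.const_mul (m : ℝ) (ih k m hk))
    have h3 := (VL.of_TL (P := P) h1).mul h2
    exact h3.mono le_rfl (by norm_num)

lemma cZ_hasDerivAt (q : ℕ) (t : ℝ) : HasDerivAt (cZ Λ α q) (cZd Λ α q t) t := by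
  unfold cZ cZd
  exact ((jb_rpow_hasDerivAt α t).const_mul _).const_mul _

lemma cu_hasDerivAt (q : ℕ) (t : ℝ) : HasDerivAt (cu Λ α γ q) (cud Λ α γ q t) t := by
  unfold cu cud
  exact (jb_rpow_hasDerivAt γ t).mul (cZ_hasDerivAt Λ α q t).sin

lemma cP_index (hL : 1 ≤ L) (q : ℕ) (t : ℝ) (h : cP L q t) : (q : ℝ) ≤ jb t ^ (1 / (L : ℝ)) := by
  unfold cP at h
  have hL0 : (L : ℝ) ≠ 0 := by exact_mod_cast (by omega : L ≠ 0)
  have h1 := Real.rpow_le_rpow (by positivity) h (by positivity : (0:ℝ) ≤ 1 / (L : ℝ))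
  rwa [← Real.rpow_natCast, ← Real.rpow_mul (Nat.cast_nonneg q), mul_one_div_cancel hL0,
    Real.rpow_one] at h1

lemma cZd_VL (hα : 0 < α) (hL : 1 ≤ L) (m : ℕ) :
    VL (cP L) (1 / (L : ℝ) + α - 1) m (-(1 / (L : ℝ) + α - 1)) (cZd Λ α) := by
  have hl : 0 ≤ 1 / (L : ℝ) := by positivity
  have h1 : TL (1 / (L : ℝ) + α - 1) m (1 - α) (fun t => 2 * π * Λ * (α * (t * jb t ^ (α - 2)))) := by
    have h2 : TA (-1) (1 - α) (fun t : ℝ => 2 * π * Λ * (α * (t * jb t ^ (α - 2)))) := by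
      refine ((TA_id.mul (TA_jb_rpow (α - 2))).const_mul α).const_mul (2 * π * Λ) |>.mono le_rfl ?_
      linarith
    exact (h2 m).mono (by linarith) le_rfl
  have h3 := VL.index_mul (P := cP L) (cP_index L hL) h1
  rw [show 1 - α - 1 / (L : ℝ) = -(1 / (L : ℝ) + α - 1) by ring] at h3
  exact h3

lemma ctrig_VL (hα : 0 < α) (hL : 1 ≤ L) (m : ℕ) :
    VL (cP L) (1 / (L : ℝ) + α - 1) m 0 (fun q t => Real.sin (cZ Λ α q t)) ∧
      VL (cP L) (1 / (L : ℝ) + α - 1) m 0 (fun q t => Real.cos (cZ Λ α q t)) :=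
  VL.trig (cZ_hasDerivAt Λ α) (cZd_VL Λ α L hα hL) m

lemma cu_VL (hα : 0 < α) (hL : 1 ≤ L) (m : ℕ) :
    VL (cP L) (1 / (L : ℝ) + α - 1) m (-γ) (cu Λ α γ) := by
  have hl : 0 ≤ 1 / (L : ℝ) := by positivity
  have h1 : TL (1 / (L : ℝ) + α - 1) m (-γ) (fun t => jb t ^ γ) :=
    (TA_jb_rpow γ m).mono (by linarith) le_rfl
  have h2 := (VL.of_TL (P := cP L) h1).mul (ctrig_VL Λ α L hα hL m).1
  rw [add_zero] at h2
  exact h2

lemma cud_VL (hα : 0 < α) (hγ : 0 < γ) (hL : 1 ≤ L) (m : ℕ) :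
    VL (cP L) (γ + 1 / (L : ℝ) + α - 1) m (-(γ + 1 / (L : ℝ) + α - 1)) (cud Λ α γ) := by
  have h1 := (cu_VL Λ α γ L hα hL (m + 1)).2.2
  have e : (fun q => deriv (cu Λ α γ q)) = cud Λ α γ := by
    funext q t
    exact (cu_hasDerivAt Λ α γ q t).deriv
  rw [e] at h1
  exact h1.mono (by linarith) (by linarith)

lemma cf_VL (hα : 0 < α) (hγ : 0 < γ) (hL : 1 ≤ L) (m : ℕ) :
    VL (cP L) (γ + 1 / (L : ℝ) + α - 1) m (-(1 - α)) (cf Λ α γ L) := by
  have hl : 0 ≤ 1 / (L : ℝ) := by positivity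
  have hs : VL (cP L) (γ + 1 / (L : ℝ) + α - 1) m 0 (fun (_ : ℕ) t => Ph 0 t) :=
    VL.of_TL ((Ph_TL m).1.mono (by linarith) le_rfl)
  have hθ := (cth_VL L (cP L) m 0 0 (Or.inr rfl)).mono
    (by linarith : (-1 : ℝ) ≤ γ + 1 / (L : ℝ) + α - 1) le_rfl
  have hJ : VL (cP L) (γ + 1 / (L : ℝ) + α - 1) m (-(1 - α)) (fun (_ : ℕ) t => jb t ^ (1 - α)) :=
    VL.of_TL ((TA_jb_rpow (1 - α) m).mono (by linarith) le_rfl)
  have hG := (VL.iGD (cu_hasDerivAt Λ α γ) (cud_VL Λ α γ L hα hγ hL) m).1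
  have hc := (ctrig_VL Λ α L hα hL m).2.mono
    (by linarith : 1 / (L : ℝ) + α - 1 ≤ γ + 1 / (L : ℝ) + α - 1) (le_refl (0:ℝ))
  have h1 : VL (cP L) (γ + 1 / (L : ℝ) + α - 1) m 0 (fun (_ : ℕ) _ => (1 : ℝ)) :=
    VL.of_TL (TA.const _ (1 : ℝ) m)
  have hH : VL (cP L) (γ + 1 / (L : ℝ) + α - 1) m 0 (cH Λ α) := by
    have := VL.const_mul (1 / 2 : ℝ) (h1.add hc)
    refine this.congr ?_
    funext q t
    unfold cH
    ring
  exact ((hs.mul hθ).mul (hJ.mul (hG.mul hH))).mono le_rfl (by linarith)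

/-- the resonant factor -/
def cE (q : ℕ) (t : ℝ) : ℝ :=
  2 * π * jb t ^ γ * Real.cos (cZ Λ α q t) * iD (cu Λ α γ q t) ^ 3 * cH Λ α q t
    - π * iG (cu Λ α γ q t) * Real.sin (cZ Λ α q t)

/-- bounded remainder -/
def cR (q : ℕ) (t : ℝ) : ℝ :=
  (Ph 1 t * cth L 0 0 q t + Ph 0 t * (t * jb t ^ (-2 : ℝ) * cth L 1 1 q t))
      * (jb t ^ (1 - α) * (iG (cu Λ α γ q t) * cH Λ α q t))
    + (Ph 0 t * cth L 0 0 q t) * ((1 - α) * (t * jb t ^ (1 - α - 2))
      * (iG (cu Λ α γ q t) * cH Λ α q t))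
    + (Ph 0 t * cth L 0 0 q t) * (jb t ^ (1 - α) * (iD (cu Λ α γ q t) ^ 3
      * (γ * (t * jb t ^ (γ - 2)) * Real.sin (cZ Λ α q t)) * cH Λ α q t))

/-- the size of the resonant factor -/
def cF (q : ℕ) (t : ℝ) : ℝ := Ph 0 t * cth L 0 0 q t * ((q : ℝ) * (Λ * α * (t / jb t)))

lemma cf_hasDerivAt (q : ℕ) (t : ℝ) :
    HasDerivAt (cf Λ α γ L q) (cR Λ α γ L q t + cF Λ α L q t * cE Λ α γ q t) t := by
  have hA : HasDerivAt (fun t => Ph 0 t * cth L 0 0 q t)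
      (Ph 1 t * cth L 0 0 q t + Ph 0 t * (t * jb t ^ (-2 : ℝ) * cth L 1 1 q t)) t := by
    have := (Ph_hasDerivAt 0 t).mul (cth_hasDerivAt L 0 0 q t)
    refine this.congr_deriv ?_
    simp
  have hJ := jb_rpow_hasDerivAt (1 - α) t
  have hG := iG_hasDerivAt (cu_hasDerivAt Λ α γ q t)
  have hH : HasDerivAt (cH Λ α q) (-Real.sin (cZ Λ α q t) * cZd Λ α q t / 2) t := by
    unfold cH
    exact ((cZ_hasDerivAt Λ α q t).cos.const_add 1).div_const 2
  have h := hA.mul (hJ.mul (hG.mul hH))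
  refine h.congr_deriv ?_
  have key : jb t ^ (1 - α) * jb t ^ (α - 2) = (jb t)⁻¹ := by
    rw [jb_rpow_add, ← Real.rpow_neg_one]
    congr 1
    ring
  simp only [Pi.mul_apply]
  unfold cR cF cE cud cZd
  rw [div_eq_mul_inv t (jb t), ← key]
  ring

lemma Ph0_nonneg (t : ℝ) : 0 ≤ Ph 0 t := by
  rw [Ph0]; exact Real.smoothTransition.nonneg t

lemma Ph0_le (t : ℝ) : Ph 0 t ≤ 1 := by
  rw [Ph0]; exact Real.smoothTransition.le_one t

lemma cth_nonneg (q : ℕ) (t : ℝ) : 0 ≤ cth L 0 0 q t := by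
  unfold cth
  simpa using Ph0_nonneg _

lemma cth_le (q : ℕ) (t : ℝ) : cth L 0 0 q t ≤ 1 := by
  unfold cth
  simpa using Ph0_le _

lemma cH_nonneg (q : ℕ) (t : ℝ) : 0 ≤ cH Λ α q t := by
  unfold cH
  linarith [Real.neg_one_le_cos (cZ Λ α q t)]

lemma cH_le (q : ℕ) (t : ℝ) : cH Λ α q t ≤ 1 := by
  unfold cH
  linarith [Real.cos_le_one (cZ Λ α q t)]

lemma aux_J (hα : 0 < α) (t : ℝ) : jb t ^ (1 - α) * (|t| * jb t ^ (-2 : ℝ)) ≤ 1 := by
  have h1 : jb t ^ (1 - α) * (|t| * jb t ^ (-2 : ℝ))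
      ≤ jb t ^ (1 - α) * (jb t * jb t ^ (-2 : ℝ)) :=
    mul_le_mul_of_nonneg_left
      (mul_le_mul_of_nonneg_right (abs_le_jb t) (jb_rpow_pos _ _).le) (jb_rpow_pos _ _).le
  refine h1.trans ?_
  have h2 : jb t * jb t ^ (-2 : ℝ) = jb t ^ (-1 : ℝ) := by
    rw [mul_comm, ← Real.rpow_add_one (jb_pos t).ne']
    norm_num
  rw [h2, jb_rpow_add]
  exact Real.rpow_le_one_of_one_le_of_nonpos (one_le_jb t) (by linarith)

lemma cR_bd (hα : 0 < α) (hγ : 0 < γ) : ∃ K, 0 ≤ K ∧ ∀ q t, |cR Λ α γ L q t| ≤ K := by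
  obtain ⟨C1, hC1⟩ := (Ph_TL 0).2 1 le_rfl (1 - α)
  obtain ⟨B1, hB10, hB1⟩ := Ph_bd 1
  have hC1' : ∀ t, |Ph 1 t| * jb t ^ (1 - α) ≤ C1 := by
    intro t
    have h1 := mul_le_mul_of_nonneg_right (hC1 t) (jb_rpow_pos t (1 - α)).le
    rw [mul_assoc, jb_rpow_add, neg_add_cancel, Real.rpow_zero, mul_one] at h1
    exact h1
  have hC10 : 0 ≤ C1 := (mul_nonneg (abs_nonneg _) (jb_rpow_pos 0 (1 - α)).le).trans (hC1' 0)
  refine ⟨(C1 + B1 * 2) + |1 - α| + γ, by positivity, fun q t => ?_⟩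
  have hGH : |iG (cu Λ α γ q t) * cH Λ α q t| ≤ 1 := by
    rw [abs_mul, abs_of_nonneg (cH_nonneg Λ α q t)]
    exact mul_le_one₀ (abs_iG_le_one _) (cH_nonneg Λ α q t) (cH_le Λ α q t)
  have hPθ : |Ph 0 t * cth L 0 0 q t| ≤ 1 := by
    rw [abs_of_nonneg (mul_nonneg (Ph0_nonneg t) (cth_nonneg L q t))]
    exact mul_le_one₀ (Ph0_le t) (cth_nonneg L q t) (cth_le L q t)
  have hJt := aux_J α hα t
  have hJ0 := (jb_rpow_pos t (1 - α)).le
  have h11 := cw_bd L (k := 1) (m := 1) (q := q) (Or.inl le_rfl) hB10 hB1 t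
  rw [pow_one] at h11
  unfold cR
  refine (abs_add_le _ _).trans (add_le_add ((abs_add_le _ _).trans (add_le_add ?_ ?_)) ?_)
  · rw [abs_mul, abs_mul (jb t ^ (1 - α)), abs_of_nonneg hJ0]
    have h1 : |Ph 1 t * cth L 0 0 q t + Ph 0 t * (t * jb t ^ (-2 : ℝ) * cth L 1 1 q t)|
        * jb t ^ (1 - α) ≤ C1 + B1 * 2 := by
      have h2 : |Ph 1 t * cth L 0 0 q t| ≤ |Ph 1 t| := by
        rw [abs_mul, abs_of_nonneg (cth_nonneg L q t)]
        exact mul_le_of_le_one_right (abs_nonneg _) (cth_le L q t)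
      have h3 : |Ph 0 t * (t * jb t ^ (-2 : ℝ) * cth L 1 1 q t)|
          ≤ (|t| * jb t ^ (-2 : ℝ)) * (B1 * 2) := by
        rw [abs_mul, abs_mul (t * jb t ^ (-2 : ℝ)), abs_mul t, abs_of_nonneg (Ph0_nonneg t),
          abs_of_nonneg (jb_rpow_pos t (-2)).le]
        have h4 : |t| * jb t ^ (-2 : ℝ) * |cth L 1 1 q t| ≤ |t| * jb t ^ (-2 : ℝ) * (B1 * 2) :=
          mul_le_mul_of_nonneg_left h11 (mul_nonneg (abs_nonneg _) (jb_rpow_pos _ _).le)
        exact (mul_le_of_le_one_left (mul_nonneg (mul_nonneg (abs_nonneg _)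
          (jb_rpow_pos _ _).le) (abs_nonneg _)) (Ph0_le t)).trans h4
      calc _ ≤ (|Ph 1 t| + (|t| * jb t ^ (-2 : ℝ)) * (B1 * 2)) * jb t ^ (1 - α) :=
            mul_le_mul_of_nonneg_right ((abs_add_le _ _).trans (add_le_add h2 h3)) hJ0
        _ = |Ph 1 t| * jb t ^ (1 - α)
            + (jb t ^ (1 - α) * (|t| * jb t ^ (-2 : ℝ))) * (B1 * 2) := by ring
        _ ≤ C1 + 1 * (B1 * 2) := add_le_add (hC1' t)
            (mul_le_mul_of_nonneg_right hJt (by positivity))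
        _ = _ := by ring
    rw [← mul_assoc]
    calc _ ≤ (C1 + B1 * 2) * 1 := mul_le_mul h1 hGH (abs_nonneg _) (by positivity)
      _ = _ := mul_one _
  · rw [abs_mul, abs_mul ((1 - α) * (t * jb t ^ (1 - α - 2))), abs_mul (1 - α), abs_mul t,
      abs_of_nonneg (jb_rpow_pos t (1 - α - 2)).le]
    have h1 : |t| * jb t ^ (1 - α - 2) ≤ 1 := by
      rw [show (1 - α - 2 : ℝ) = (1 - α) + (-2) by ring, ← jb_rpow_add]
      linarith [hJt, (by ring : jb t ^ (1 - α) * (|t| * jb t ^ (-2 : ℝ))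
        = |t| * (jb t ^ (1 - α) * jb t ^ (-2 : ℝ)))]
    have h2 : |1 - α| * (|t| * jb t ^ (1 - α - 2)) ≤ |1 - α| :=
      mul_le_of_le_one_right (abs_nonneg _) h1
    calc _ ≤ 1 * (|1 - α| * 1) := by
          refine mul_le_mul hPθ ?_ ?_ zero_le_one
          · exact mul_le_mul h2 hGH (abs_nonneg _) (abs_nonneg _)
          · exact mul_nonneg (mul_nonneg (abs_nonneg _) (mul_nonneg (abs_nonneg _)
              (jb_rpow_pos _ _).le)) (abs_nonneg _)
      _ = _ := by ring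
  · have hu : iD (cu Λ α γ q t) ^ 3 * (γ * (t * jb t ^ (γ - 2)) * Real.sin (cZ Λ α q t))
        = γ * ((t * jb t ^ (-2 : ℝ)) * (iG (cu Λ α γ q t) * iD (cu Λ α γ q t) ^ 2)) := by
      unfold iG
      have h1 : jb t ^ (γ - 2) = jb t ^ (-2 : ℝ) * jb t ^ γ := by
        rw [jb_rpow_add]
        congr 1
        ring
      rw [h1]
      have h2 : cu Λ α γ q t = jb t ^ γ * Real.sin (cZ Λ α q t) := rfl
      nth_rw 2 [h2]
      ring
    rw [hu, abs_mul, abs_mul (jb t ^ (1 - α)), abs_mul _ (cH Λ α q t), abs_mul γ,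
      abs_mul (t * jb t ^ (-2 : ℝ)), abs_mul t, abs_of_nonneg (jb_rpow_pos t (-2)).le,
      abs_of_nonneg hJ0, abs_of_nonneg (cH_nonneg Λ α q t), abs_of_pos hγ]
    have h1 : |iG (cu Λ α γ q t) * iD (cu Λ α γ q t) ^ 2| ≤ 1 := by
      rw [abs_mul, abs_of_nonneg (by positivity : 0 ≤ iD (cu Λ α γ q t) ^ 2)]
      exact mul_le_one₀ (abs_iG_le_one _) (by positivity)
        (pow_le_one₀ (iD_pos _).le (iD_le_one _))
    calc _ = |Ph 0 t * cth L 0 0 q t| * (γ * (jb t ^ (1 - α) * (|t| * jb t ^ (-2 : ℝ)))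
          * (|iG (cu Λ α γ q t) * iD (cu Λ α γ q t) ^ 2| * cH Λ α q t)) := by ring
      _ ≤ 1 * (γ * 1 * (1 * 1)) := by
          have h2 : 0 ≤ jb t ^ (1 - α) * (|t| * jb t ^ (-2 : ℝ)) :=
            mul_nonneg hJ0 (mul_nonneg (abs_nonneg _) (jb_rpow_pos _ _).le)
          have h3 := cH_nonneg Λ α q t
          have h4 := cH_le Λ α q t
          gcongr
      _ = _ := by ring

lemma cE_ge (q : ℕ) (t : ℝ) : -(2 * π) ≤ cE Λ α γ q t := by
  have hu : cu Λ α γ q t = jb t ^ γ * Real.sin (cZ Λ α q t) := rfl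
  have hX := jb_rpow_pos t γ
  have hG := abs_le.1 (abs_iG_le_one (cu Λ α γ q t))
  have hD := iD_pos (cu Λ α γ q t)
  have hD1 := iD_le_one (cu Λ α γ q t)
  have hs := abs_le.1 (Real.abs_sin_le_one (cZ Λ α q t))
  have hsc := Real.sin_sq_add_cos_sq (cZ Λ α q t)
  have hc := Real.neg_one_le_cos (cZ Λ α q t)
  have hπ := Real.pi_pos
  have hGs : iG (cu Λ α γ q t) * Real.sin (cZ Λ α q t) ≤ 1 := by
    refine (le_abs_self _).trans ?_
    rw [abs_mul]
    exact mul_le_one₀ (abs_iG_le_one _) (abs_nonneg _) (Real.abs_sin_le_one _)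
  have hGs0 : 0 ≤ iG (cu Λ α γ q t) * Real.sin (cZ Λ α q t) := by
    unfold iG
    nth_rw 1 [hu]
    have : jb t ^ γ * Real.sin (cZ Λ α q t) * iD (cu Λ α γ q t) * Real.sin (cZ Λ α q t)
      = jb t ^ γ * iD (cu Λ α γ q t) * Real.sin (cZ Λ α q t) ^ 2 := by ring
    rw [this]
    exact mul_nonneg (mul_nonneg hX.le hD.le) (sq_nonneg _)
  have h1 : -1 ≤ jb t ^ γ * (Real.cos (cZ Λ α q t) * (1 + Real.cos (cZ Λ α q t)))
      * iD (cu Λ α γ q t) ^ 3 := by
    have h2 : -(Real.sin (cZ Λ α q t) ^ 2)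
        ≤ Real.cos (cZ Λ α q t) * (1 + Real.cos (cZ Λ α q t)) := by nlinarith
    have h3 : jb t ^ γ * (-(Real.sin (cZ Λ α q t) ^ 2)) * iD (cu Λ α γ q t) ^ 3
        ≤ jb t ^ γ * (Real.cos (cZ Λ α q t) * (1 + Real.cos (cZ Λ α q t)))
          * iD (cu Λ α γ q t) ^ 3 := by
      gcongr
    have h4 : jb t ^ γ * (-(Real.sin (cZ Λ α q t) ^ 2)) * iD (cu Λ α γ q t) ^ 3
        = -((iG (cu Λ α γ q t) * Real.sin (cZ Λ α q t)) * iD (cu Λ α γ q t) ^ 2) := by
      unfold iG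
      nth_rw 2 [hu]
      ring
    have h5 : (iG (cu Λ α γ q t) * Real.sin (cZ Λ α q t)) * iD (cu Λ α γ q t) ^ 2 ≤ 1 :=
      mul_le_one₀ hGs (by positivity) (pow_le_one₀ hD.le hD1)
    linarith
  have e : cE Λ α γ q t = π * (jb t ^ γ * (Real.cos (cZ Λ α q t) * (1 + Real.cos (cZ Λ α q t)))
      * iD (cu Λ α γ q t) ^ 3) - π * (iG (cu Λ α γ q t) * Real.sin (cZ Λ α q t)) := by
    unfold cE cH
    ring
  rw [e]
  nlinarith [mul_le_mul_of_nonneg_left h1 hπ.le, mul_le_mul_of_nonneg_left hGs hπ.le]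

lemma iD_anti {u U : ℝ} (h : |u| ≤ U) : iD U ≤ iD u := by
  unfold iD
  refine inv_anti₀ (by positivity) (Real.sqrt_le_sqrt ?_)
  have := sq_le_sq' (by linarith [neg_abs_le u, abs_nonneg u]) ((le_abs_self u).trans h)
  linarith

lemma cE_big {q : ℕ} {t U : ℝ} (h1 : |Real.sin (cZ Λ α q t / 2)| ≤ 1 / 2)
    (h2 : |cu Λ α γ q t| ≤ U) : 3 * π / 4 * iD U ^ 3 * jb t ^ γ - π ≤ cE Λ α γ q t := by
  have hπ := Real.pi_pos
  have hX := jb_rpow_pos t γ
  have hc : Real.cos (cZ Λ α q t) = 1 - 2 * Real.sin (cZ Λ α q t / 2) ^ 2 := by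
    have := Real.cos_two_mul (cZ Λ α q t / 2)
    rw [mul_div_cancel₀ _ (by norm_num : (2:ℝ) ≠ 0)] at this
    rw [this, Real.cos_sq']
    ring
  have hs2 : Real.sin (cZ Λ α q t / 2) ^ 2 ≤ 1 / 4 := by
    rw [← sq_abs]
    nlinarith [abs_nonneg (Real.sin (cZ Λ α q t / 2))]
  have hc1 : 1 / 2 ≤ Real.cos (cZ Λ α q t) := by rw [hc]; linarith
  have hH : 3 / 4 ≤ cH Λ α q t := by unfold cH; linarith
  have hD := iD_anti h2
  have hDU := iD_pos U
  have hGs : iG (cu Λ α γ q t) * Real.sin (cZ Λ α q t) ≤ 1 := by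
    refine (le_abs_self _).trans ?_
    rw [abs_mul]
    exact mul_le_one₀ (abs_iG_le_one _) (abs_nonneg _) (Real.abs_sin_le_one _)
  have h3 : 2 * π * jb t ^ γ * (1 / 2) * iD U ^ 3 * (3 / 4)
      ≤ 2 * π * jb t ^ γ * Real.cos (cZ Λ α q t) * iD (cu Λ α γ q t) ^ 3 * cH Λ α q t := by
    have := (iD_pos (cu Λ α γ q t)).le
    gcongr
  unfold cE
  have h4 := mul_le_mul_of_nonneg_left hGs hπ.le
  nlinarith [h3, h4]

lemma cF_nonneg (hΛ : 0 < Λ) (hα : 0 < α) (q : ℕ) (t : ℝ) : 0 ≤ cF Λ α L q t := by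
  unfold cF
  rcases le_or_gt t 0 with h | h
  · rw [Ph0, Real.smoothTransition.zero_of_nonpos h, zero_mul, zero_mul]
  · have h1 := Ph0_nonneg t
    have h2 := cth_nonneg L q t
    have h3 := jb_pos t
    positivity

lemma cF_le (hΛ : 0 < Λ) (hα : 0 < α) (q : ℕ) (t : ℝ) : cF Λ α L q t ≤ Λ * α * q := by
  unfold cF
  rcases le_or_gt t 0 with h | h
  · rw [Ph0, Real.smoothTransition.zero_of_nonpos h, zero_mul, zero_mul]; positivity
  · have h1 := Ph0_nonneg t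
    have h2 := cth_nonneg L q t
    have h3 := jb_pos t
    have h4 : t / jb t ≤ 1 := (div_le_one h3).2 ((le_abs_self t).trans (abs_le_jb t))
    have h5 : Ph 0 t * cth L 0 0 q t ≤ 1 := mul_le_one₀ (Ph0_le t) h2 (cth_le L q t)
    calc _ ≤ 1 * ((q : ℝ) * (Λ * α * 1)) := by gcongr
      _ = _ := by ring

lemma cF_ge (hΛ : 0 < Λ) (hα : 0 < α) {q : ℕ} (hq : 1 ≤ q) {t : ℝ} (ht : 1 ≤ t)
    (h : 2 * (q : ℝ) ^ L ≤ t) : Λ * α * q / 2 ≤ cF Λ α L q t := by
  unfold cF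
  have hq0 : (0 : ℝ) < (q : ℝ) ^ L := by
    have : (0 : ℝ) < q := by exact_mod_cast hq
    positivity
  have h1 : Ph 0 t = 1 := by rw [Ph0]; exact Real.smoothTransition.one_of_one_le ht
  have h2 : cth L 0 0 q t = 1 := by
    unfold cth cw
    rw [Ph0, pow_zero, mul_one]
    refine Real.smoothTransition.one_of_one_le ?_
    have h3 : 2 ≤ jb t / (q : ℝ) ^ L := by
      rw [le_div_iff₀ hq0]
      exact h.trans ((le_abs_self t).trans (abs_le_jb t))
    linarith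
  have h4 : 1 / 2 ≤ t / jb t := by
    rw [le_div_iff₀ (jb_pos t)]
    have := jb_le t
    rw [abs_of_pos (by linarith)] at this
    linarith
  rw [h1, h2]
  calc Λ * α * q / 2 = 1 * 1 * ((q : ℝ) * (Λ * α * (1 / 2))) := by ring
    _ ≤ _ := by gcongr

lemma cP_fin (hL : 1 ≤ L) (R : ℝ) : ∃ N : ℕ, ∀ q, N ≤ q → ∀ t, |t| < R → ¬ cP L q t := by
  obtain ⟨N, hN⟩ := exists_nat_gt (1 + R)
  refine ⟨max N 1, fun q hq t ht h => ?_⟩
  have h1 : (1 : ℝ) ≤ q := by exact_mod_cast (le_max_right N 1).trans hq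
  have h2 : (N : ℝ) ≤ q := by exact_mod_cast (le_max_left N 1).trans hq
  have h3 : (q : ℝ) ≤ (q : ℝ) ^ L := le_self_pow₀ h1 (by omega)
  have h4 := jb_le t
  unfold cP at h
  linarith

lemma cf_ev_zero (q : ℕ) (t : ℝ) (h : ¬ cP L q t) : cf Λ α γ L q =ᶠ[𝓝 t] fun _ => 0 := by
  unfold cP at h
  push Not at h
  have hc : Continuous jb := continuous_iff_continuousAt.2 fun t =>
    (jb_hasDerivAt t).continuousAt
  filter_upwards [hc.continuousAt.eventually_lt_const h] with s hs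
  unfold cf cth cw
  have h1 : jb s / (q : ℝ) ^ L - 1 ≤ 0 := by
    have := div_le_one_of_le₀ hs.le (by positivity)
    linarith
  rw [Ph0, Real.smoothTransition.zero_of_nonpos h1]
  ring

theorem clock_exists' (hΛ : 0 < Λ) (hα : 0 < α) (hγ : 0 < γ) (hL : 1 ≤ L) :
    ∃ (T : ℝ → ℝ) (c C : ℝ), 0 < c ∧ Differentiable ℝ T ∧ (∀ t, 1 ≤ deriv T t) ∧
      (∀ t, |T t| ≤ C * jb t) ∧
      TA (γ + 1 / (L:ℝ) + α - 1) (-(γ + 1 / (L:ℝ))) (deriv T) ∧
      ∀ t : ℝ, 1 ≤ t → ∀ q : ℕ, 1 ≤ q → 2 * (q:ℝ) ^ L ≤ t →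
        |Real.sin (Real.pi * (q * (Λ * jb t ^ α)))| ≤ t ^ (-γ) →
        c * jb t ^ γ / (q:ℝ) ^ 2 ≤ deriv T t := by
  have hl : 0 ≤ 1 / (L : ℝ) := by positivity
  have hπ := Real.pi_pos
  obtain ⟨K1, hK10, hK1⟩ := cR_bd Λ α γ L hα hγ
  set K : ℝ := K1 + 2 * π * (Λ * α) + 1 with hK
  have hKpos : 0 < K := by positivity
  set a : ℕ → ℝ := fun q => ((q : ℝ) ^ 3)⁻¹ with ha
  have ha0 : ∀ q, 0 ≤ a q := fun q => by rw [ha]; positivity
  have has : Summable a := Real.summable_nat_pow_inv.2 (by norm_num)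
  have has' : Summable fun q => |a q| := by
    refine has.congr fun q => (abs_of_nonneg (ha0 q)).symm
  have haq : Summable fun q : ℕ => a q * q := by
    refine (Real.summable_nat_pow_inv.2 (by norm_num : 1 < 2)).congr fun q => ?_
    rw [ha]
    rcases Nat.eq_zero_or_pos q with h | h
    · subst h; simp
    · have : (q : ℝ) ≠ 0 := by exact_mod_cast h.ne'
      field_simp
  set S : ℝ := ∑' q : ℕ, a q * q with hS
  have hS0 : 0 ≤ S := tsum_nonneg fun q => mul_nonneg (ha0 q) (Nat.cast_nonneg q)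
  set c0 : ℝ := 1 / (K * (S + 1)) with hc0
  have hc0pos : 0 < c0 := by positivity
  have hc0S : c0 * (K * S) ≤ 1 := by
    rw [hc0, one_div, inv_mul_le_iff₀ (by positivity)]
    nlinarith
  have hc0K : c0 * K ≤ 1 := by
    rw [hc0, one_div, inv_mul_le_iff₀ (by positivity)]
    nlinarith
  have hfin := cP_fin L hL
  have hf := cf_VL Λ α γ L hα hγ hL
  have hz := cf_ev_zero Λ α γ L
  have hfd : ∀ q, Differentiable ℝ (cf Λ α γ L q) :=
    fun q t => (cf_hasDerivAt Λ α γ L q t).differentiableAt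
  have hS1 := fun m => VL.tsum hfin has' (hf m) hz
  have hS2 := fun m => VL.tsum hfin has' (hf (m + 1)).2.2 fun q t hP => by
    simpa using (hz q t hP).deriv
  set T : ℝ → ℝ := fun t => 2 * t + c0 * ∑' q, a q * cf Λ α γ L q t with hT
  have hTd : ∀ t, HasDerivAt T (2 + c0 * ∑' q, a q * deriv (cf Λ α γ L q) t) t := by
    intro t
    have h1 := (hasDerivAt_id t).const_mul (2 : ℝ)
    have h2 := ((hS1 0).2 hfd t).const_mul c0
    have h3 := h1.add h2
    rw [mul_one] at h3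
    exact h3
  have hTe : deriv T = fun t => 2 + c0 * ∑' q, a q * deriv (cf Λ α γ L q) t := by
    funext t
    exact (hTd t).deriv
  have hsum : ∀ t, Summable fun q => a q * deriv (cf Λ α γ L q) t := by
    intro t
    obtain ⟨N, hN⟩ := hfin (|t| + 1)
    refine summable_of_ne_finset_zero (s := Finset.range N) fun q hq => ?_
    have hq' : N ≤ q := by simpa using hq
    have h3 := (hz q t (hN q hq' t (by linarith))).deriv.eq_of_nhds
    rw [h3]
    simp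
  -- lower bound of a single derivative
  have hlow : ∀ q t, 1 ≤ q → -(K * q) ≤ deriv (cf Λ α γ L q) t := by
    intro q t hq
    have hq1 : (1 : ℝ) ≤ q := by exact_mod_cast hq
    rw [(cf_hasDerivAt Λ α γ L q t).deriv]
    have h1 := (abs_le.1 (hK1 q t)).1
    have h2 := mul_le_mul_of_nonneg_left (cE_ge Λ α γ q t) (cF_nonneg Λ α L hΛ hα q t)
    have h3 := mul_le_mul_of_nonneg_right (cF_le Λ α L hΛ hα q t) (by positivity : 0 ≤ 2 * π)
    have h4 : K1 ≤ K1 * q := le_mul_of_one_le_right hK10 hq1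
    have h5 : K * q = K1 * q + 2 * π * (Λ * α) * q + q := by rw [hK]; ring
    nlinarith
  have hterm : ∀ q t, 0 ≤ a q * (deriv (cf Λ α γ L q) t + K * q) := by
    intro q t
    rcases Nat.eq_zero_or_pos q with h | h
    · subst h; simp [ha]
    · exact mul_nonneg (ha0 q) (by linarith [hlow q t h])
  have hmain : ∀ (q0 : ℕ) (t : ℝ), a q0 * (deriv (cf Λ α γ L q0) t + K * q0) - K * S
      ≤ ∑' q, a q * deriv (cf Λ α γ L q) t := by
    intro q0 t
    have h1 : Summable fun q : ℕ => a q * (deriv (cf Λ α γ L q) t + K * q) := by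
      refine ((hsum t).add (haq.mul_left K)).congr fun q => by ring
    have h2 := h1.le_tsum q0 fun q _ => hterm q t
    have h3 : ∑' q : ℕ, a q * (deriv (cf Λ α γ L q) t + K * q)
        = ∑' q, a q * deriv (cf Λ α γ L q) t + K * S := by
      rw [hS, ← tsum_mul_left, ← (hsum t).tsum_add (haq.mul_left K)]
      exact tsum_congr fun q => by ring
    linarith
  have hT1 : ∀ (q0 : ℕ) (t : ℝ), 1 + c0 * (a q0 * (deriv (cf Λ α γ L q0) t + K * q0))
      ≤ deriv T t := by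
    intro q0 t
    rw [hTe]
    have h1 := mul_le_mul_of_nonneg_left (hmain q0 t) hc0pos.le
    have h2 : c0 * (a q0 * (deriv (cf Λ α γ L q0) t + K * q0) - K * S)
      = c0 * (a q0 * (deriv (cf Λ α γ L q0) t + K * q0)) - c0 * (K * S) := by ring
    simp only
    linarith
  have hTge : ∀ t, 1 ≤ deriv T t := by
    intro t
    have := hT1 0 t
    simp only [ha, CharP.cast_eq_zero] at this
    simpa using this
  set U : ℝ := 2 * 2 ^ γ with hU
  set c1 : ℝ := 3 * π / 4 * iD U ^ 3 with hc1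
  have hc1pos : 0 < c1 := by
    have := iD_pos U
    positivity
  set c : ℝ := min (c0 * (Λ * α * c1 / 2)) (1 / (2 * 2 ^ γ)) with hc
  have hcpos : 0 < c := lt_min (by positivity) (by positivity)
  obtain ⟨C1, hC1⟩ : Bd (-(1 - α)) (fun t => ∑' q, a q * cf Λ α γ L q t) := (hS1 0).1
  refine ⟨T, c, 2 + c0 * max C1 0, hcpos, fun t => (hTd t).differentiableAt, hTge, ?_, ?_, ?_⟩
  · intro t
    have h1 := hC1 t
    rw [neg_neg] at h1
    have h2 : ‖∑' q, a q * cf Λ α γ L q t‖ ≤ max C1 0 * jb t := by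
      refine h1.trans ((mul_le_mul_of_nonneg_right (le_max_left C1 0)
        (jb_rpow_pos _ _).le).trans ?_)
      refine mul_le_mul_of_nonneg_left ?_ (le_max_right _ _)
      have := jb_rpow_le (by linarith : 1 - α ≤ 1) t
      rwa [Real.rpow_one] at this
    calc |T t| ≤ |2 * t| + |c0 * ∑' q, a q * cf Λ α γ L q t| := abs_add_le _ _
      _ ≤ 2 * jb t + c0 * (max C1 0 * jb t) := by
          rw [abs_mul, abs_mul, abs_of_pos hc0pos, abs_of_pos (by norm_num : (0:ℝ) < 2)]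
          refine add_le_add (mul_le_mul_of_nonneg_left (abs_le_jb t) (by norm_num))
            (mul_le_mul_of_nonneg_left h2 hc0pos.le)
      _ = _ := by ring
  · intro m
    rw [hTe]
    have h1 : TL (γ + 1 / (L:ℝ) + α - 1) m (-(γ + 1 / (L:ℝ))) (fun _ : ℝ => (2 : ℝ)) :=
      (TA.const _ (2 : ℝ) m).mono le_rfl (by linarith)
    have h2 := (TA.const (γ + 1 / (L:ℝ) + α - 1) c0 m).mul (hS2 m).1
    exact TL.add h1 (h2.mono le_rfl (by linarith))
  · intro t ht q hq hqt hsin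
    have hq1 : (1 : ℝ) ≤ q := by exact_mod_cast hq
    have hq2 : (1 : ℝ) ≤ (q : ℝ) ^ 2 := one_le_pow₀ hq1
    have hX := jb_rpow_pos t γ
    have ht0 : (0 : ℝ) < t := by linarith
    have hjt : jb t ≤ 2 * t := by
      have := jb_le t
      rw [abs_of_pos ht0] at this
      linarith
    have hXt : jb t ^ γ ≤ 2 ^ γ * t ^ γ := by
      rw [← Real.mul_rpow (by norm_num) ht0.le]
      exact Real.rpow_le_rpow (jb_pos t).le hjt hγ.le
    have hZ : cZ Λ α q t / 2 = π * (q * (Λ * jb t ^ α)) := by unfold cZ; ring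
    rw [← hZ] at hsin
    by_cases hcase : |Real.sin (cZ Λ α q t / 2)| ≤ 1 / 2
    · have hu : |cu Λ α γ q t| ≤ U := by
        have e : cu Λ α γ q t = jb t ^ γ *
            (2 * Real.sin (cZ Λ α q t / 2) * Real.cos (cZ Λ α q t / 2)) := by
          unfold cu
          rw [← Real.sin_two_mul, mul_div_cancel₀ _ (by norm_num : (2:ℝ) ≠ 0)]
        rw [e, abs_mul, abs_mul, abs_mul, abs_of_pos hX, abs_of_pos (by norm_num : (0:ℝ) < 2)]
        have h1 : t ^ γ * t ^ (-γ) = 1 := by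
          rw [← Real.rpow_add ht0, add_neg_cancel, Real.rpow_zero]
        calc jb t ^ γ * (2 * |Real.sin (cZ Λ α q t / 2)| * |Real.cos (cZ Λ α q t / 2)|)
            ≤ (2 ^ γ * t ^ γ) * (2 * t ^ (-γ) * 1) := by
              have := Real.abs_cos_le_one (cZ Λ α q t / 2)
              gcongr
          _ = 2 * 2 ^ γ * (t ^ γ * t ^ (-γ)) := by ring
          _ = U := by rw [h1, mul_one]
      have hE := cE_big Λ α γ hcase hu
      have hd : Λ * α * q * (c1 * jb t ^ γ / 2) - (K1 + Λ * α * q * π)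
          ≤ deriv (cf Λ α γ L q) t := by
        rw [(cf_hasDerivAt Λ α γ L q t).deriv]
        have h1 := (abs_le.1 (hK1 q t)).1
        have hF0 := cF_nonneg Λ α L hΛ hα q t
        have h2 := mul_le_mul_of_nonneg_left hE hF0
        have h3 := cF_le Λ α L hΛ hα q t
        have h4 := cF_ge Λ α L hΛ hα hq ht hqt
        have h5 := mul_le_mul_of_nonneg_right h4 (mul_pos hc1pos hX).le
        have h6 := mul_le_mul_of_nonneg_right h3 hπ.le
        rw [← hc1] at h2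
        nlinarith
      have h7 := hT1 q t
      have h8 : c0 * (Λ * α * c1 / 2) * jb t ^ γ / (q : ℝ) ^ 2
          ≤ c0 * (a q * (deriv (cf Λ α γ L q) t + K * q)) := by
        have h9 : Λ * α * q * (c1 * jb t ^ γ / 2) ≤ deriv (cf Λ α γ L q) t + K * q := by
          have h10 : K1 ≤ K1 * q := le_mul_of_one_le_right hK10 hq1
          have h11 : K * q = K1 * q + 2 * π * (Λ * α) * q + q := by rw [hK]; ring
          have h12 : 0 ≤ Λ * α * q * π := by positivity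
          nlinarith
        have h10 := mul_le_mul_of_nonneg_left (mul_le_mul_of_nonneg_left h9 (ha0 q)) hc0pos.le
        refine le_trans (le_of_eq ?_) h10
        rw [ha]
        have : (q : ℝ) ≠ 0 := by positivity
        field_simp
      have h9 : c * jb t ^ γ / (q : ℝ) ^ 2 ≤ c0 * (Λ * α * c1 / 2) * jb t ^ γ / (q : ℝ) ^ 2 := by
        have := min_le_left (c0 * (Λ * α * c1 / 2)) (1 / (2 * 2 ^ γ))
        rw [← hc] at this
        gcongr
      linarith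
    · push Not at hcase
      have h1 : 1 / 2 < t ^ (-γ) := hcase.trans_le hsin
      have h2 : t ^ γ < 2 := by
        rw [Real.rpow_neg ht0.le] at h1
        have h3 := Real.rpow_pos_of_pos ht0 γ
        rw [one_div, inv_lt_inv₀ (by norm_num) h3] at h1
        exact h1
      have h3 : jb t ^ γ ≤ 2 * 2 ^ γ := by
        have : (0:ℝ) < 2 ^ γ := by positivity
        nlinarith
      have h4 : c * jb t ^ γ / (q : ℝ) ^ 2 ≤ 1 := by
        have h5 := min_le_right (c0 * (Λ * α * c1 / 2)) (1 / (2 * 2 ^ γ))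
        rw [← hc] at h5
        rw [div_le_one (by positivity)]
        calc c * jb t ^ γ ≤ 1 / (2 * 2 ^ γ) * (2 * 2 ^ γ) := by gcongr
          _ = 1 := by field_simp
          _ ≤ _ := hq2
      exact h4.trans (hTge t)

end clock

theorem clock_exists {Λ α γ : ℝ} {L : ℕ} (hΛ : 0 < Λ) (hα : 0 < α) (hγ : 0 < γ) (hL : 1 ≤ L)
    (_hσ : γ + 1 / (L:ℝ) + α - 1 < 0) :
    ∃ (T : ℝ → ℝ) (c C : ℝ), 0 < c ∧ Differentiable ℝ T ∧ (∀ t, 1 ≤ deriv T t) ∧
      (∀ t, |T t| ≤ C * jb t) ∧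
      TA (γ + 1 / (L:ℝ) + α - 1) (-(γ + 1 / (L:ℝ))) (deriv T) ∧
      ∀ t : ℝ, 1 ≤ t → ∀ q : ℕ, 1 ≤ q → 2 * (q:ℝ) ^ L ≤ t →
        |Real.sin (Real.pi * (q * (Λ * jb t ^ α)))| ≤ t ^ (-γ) →
        c * jb t ^ γ / (q:ℝ) ^ 2 ≤ deriv T t :=
  clock_exists' Λ α γ L hΛ hα hγ hL

end Ton
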