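import Pool.Agent.helper33.Esc.Bump

/-!
Clusters of touched cells (plan section 6c).
-/

noncomputable section

namespace Esc

open MeasureTheory Set Filter Topology
open scoped ContDiff
open H33

namespace Clu

variable {d : ℕ} {E : Type*} [NormedAddCommGroup E] [InnerProductSpace ℝ E] (L : Lat d E)

/-- closed cell of the cover -/
def Q (p : ℝ) (n : ℕ) (K : Option (Fin d) → ℤ) : Set E :=
  {x | ∀ j, (K j : ℝ) ≤ n * uc L p x j ∧ n * uc L p x j ≤ K j + 1}

/-- the torus cell of a cell of the cover -/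
def tc {n : ℕ} (hn : 0 < n) (K : Option (Fin d) → ℤ) : Cl d n := fun j =>
  ⟨(K j % n).toNat, by
    have h0 : (n : ℤ) ≠ 0 := by exact_mod_cast hn.ne'
    have h1 := Int.emod_nonneg (K j) h0
    have h2 := Int.emod_lt_of_pos (K j) (by exact_mod_cast hn : (0 : ℤ) < n)
    omega⟩

lemma tc_inc {n : ℕ} (hn : 0 < n) {p : ℝ} {K : Option (Fin d) → ℤ} {x : E} (hx : x ∈ Q L p n K) :
    inc L p (tc hn K) x := by
  intro j
  have hn' : (0 : ℝ) < n := by exact_mod_cast hn
  refine ⟨K j / n, ?_⟩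
  have h0 : (n : ℤ) ≠ 0 := by exact_mod_cast hn.ne'
  have h1 := Int.emod_nonneg (K j) h0
  have h3 : ((K j % n).toNat : ℤ) = K j % n := Int.toNat_of_nonneg h1
  have h4 : K j % n + n * (K j / n) = K j := Int.emod_add_mul_ediv (K j) n
  have h5 : (((K j % n).toNat : ℕ) : ℝ) + n * ((K j / n : ℤ) : ℝ) = K j := by
    have h6 : ((K j % n).toNat : ℤ) + n * (K j / n) = K j := by rw [h3]; exact h4
    exact_mod_cast h6
  obtain ⟨ha, hb⟩ := hx j
  have e : uc L p x j - ctr (tc hn K) j - ((K j / n : ℤ) : ℝ)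
      = (n * uc L p x j - K j - 1 / 2) / n := by
    have h6 : ctr (tc hn K) j = ((((K j % n).toNat : ℕ) : ℝ) + 1 / 2) / n := rfl
    rw [h6, ← h5]
    field_simp
    ring
  rw [e, abs_div, abs_of_pos hn', div_le_div_iff₀ hn' (by positivity)]
  have h7 : |(n : ℝ) * uc L p x j - K j - 1 / 2| ≤ 1 / 2 := by
    rw [abs_le]; constructor <;> linarith
  nlinarith

lemma uc_cont [FiniteDimensional ℝ E] (p : ℝ) (j : Option (Fin d)) :
    Continuous fun x : E => uc L p x j :=
  (uc_contDiff L p j (m := 0)).continuous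

lemma Q_closed [FiniteDimensional ℝ E] (p : ℝ) (n : ℕ) (K : Option (Fin d) → ℤ) :
    IsClosed (Q L p n K) := by
  have : Q L p n K = ⋂ j, ({x : E | (K j : ℝ) ≤ n * uc L p x j} ∩ {x : E | n * uc L p x j ≤ K j + 1}) := by
    ext x
    simp [Q]
  rw [this]
  refine isClosed_iInter fun j => ?_
  have h := uc_cont L p j
  exact (isClosed_le continuous_const (continuous_const.mul h)).inter
    (isClosed_le (continuous_const.mul h) continuous_const)

/-- the cell of a point -/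
def fl (p : ℝ) (n : ℕ) (x : E) : Option (Fin d) → ℤ := fun j => ⌊n * uc L p x j⌋

lemma mem_Q_fl (p : ℝ) (n : ℕ) (x : E) : x ∈ Q L p n (fl L p n x) := fun j =>
  ⟨Int.floor_le _, (Int.lt_floor_add_one _).le⟩

/-- the cells of the points near `z` contain `z` -/
lemma ev_mem_Q [FiniteDimensional ℝ E] (p : ℝ) (n : ℕ) (z : E) :
    ∀ᶠ x in 𝓝 z, z ∈ Q L p n (fl L p n x) := by
  have h : ∀ j : Option (Fin d), ∀ᶠ x in 𝓝 z, (((fl L p n x j : ℤ) : ℝ) ≤ n * uc L p z j ∧
      n * uc L p z j ≤ (fl L p n x j : ℤ) + 1) := by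
    intro j
    have hc : ContinuousAt (fun x : E => (n : ℝ) * uc L p x j) z :=
      (continuous_const.mul (uc_cont L p j)).continuousAt
    have h1 : ((⌈(n : ℝ) * uc L p z j⌉ : ℤ) : ℝ) - 1 < n * uc L p z j := by
      have := Int.ceil_lt_add_one ((n : ℝ) * uc L p z j)
      linarith
    have h2 : (n : ℝ) * uc L p z j < (⌊(n : ℝ) * uc L p z j⌋ : ℤ) + 1 := Int.lt_floor_add_one _
    filter_upwards [hc.eventually_const_lt h1, hc.eventually_lt_const h2] with x h3 h4
    constructor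
    · have h5 : fl L p n x j ≤ ⌊(n : ℝ) * uc L p z j⌋ := by
        have : ⌊(n : ℝ) * uc L p x j⌋ < ⌊(n : ℝ) * uc L p z j⌋ + 1 := by
          rw [Int.floor_lt]
          push_cast
          exact h4
        exact Int.lt_add_one_iff.1 this
      have h6 : ((fl L p n x j : ℤ) : ℝ) ≤ (⌊(n : ℝ) * uc L p z j⌋ : ℤ) := by exact_mod_cast h5
      exact h6.trans (Int.floor_le _)
    · have h5 : ⌈(n : ℝ) * uc L p z j⌉ - 1 ≤ fl L p n x j := by
        refine Int.le_floor.2 ?_
        push_cast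
        exact h3.le
      have h6 : ((⌈(n : ℝ) * uc L p z j⌉ : ℤ) : ℝ) - 1 ≤ (fl L p n x j : ℤ) := by exact_mod_cast h5
      have := Int.le_ceil ((n : ℝ) * uc L p z j)
      linarith
  exact (eventually_all.2 h)

end Clu

open Clu

variable {d : ℕ} {E : Type*} [NormedAddCommGroup E] [InnerProductSpace ℝ E] [FiniteDimensional ℝ E]
  (L : Lat d E)

/-- cluster of touched cells -/
theorem cluster {n N0 : ℕ} (hn : 16 * (N0 + 2) ≤ n) (_h4 : 4 ∣ n) {p ℓ : ℝ} (W : E → ℝ)
    (_hper : ∀ (m : Fin d → ℤ) z, W (z + L.lv m) = W z) {z0 : E} (h0 : 3 / 8 ≤ L.y z0 - p) (h0' : L.y z0 - p ≤ 5 / 8)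
    (hz0 : W z0 ≤ ℓ)
    (hcard : ∀ I : Finset (Cl d n), (∀ k ∈ I, ∃ z, inc L p k z ∧ 1 / 4 ≤ L.y z - p ∧ L.y z - p ≤ 3 / 4 ∧ W z ≤ ℓ) →
      I.card ≤ N0) :
    ∃ D : Set E, IsCompact D ∧ z0 ∈ D ∧ (∀ z ∈ D, 1 / 4 ≤ L.y z - p ∧ L.y z - p ≤ 3 / 4) ∧
      (∀ z ∈ D, ‖z - z0‖ ≤ kap2 L) ∧ ∀ z ∈ frontier D, ℓ < W z := by
  classical
  have hnpos : 0 < n := by omega
  have hn' : (0 : ℝ) < n := by exact_mod_cast hnpos
  set K0 := fl L p n z0 with hK0
  -- touched cells and the box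
  set Tc : (Option (Fin d) → ℤ) → Prop := fun K => ∃ z ∈ Q L p n K, W z ≤ ℓ with hTc
  set Bx : (Option (Fin d) → ℤ) → Prop := fun K => ∀ j, |K j - K0 j| ≤ N0 with hBx
  set R : (Option (Fin d) → ℤ) → (Option (Fin d) → ℤ) → Prop := fun K K' =>
    (∀ j, |K j - K' j| ≤ 1) ∧ Tc K' ∧ Bx K' with hR
  set CL : Set (Option (Fin d) → ℤ) := {K | Relation.ReflTransGen R K0 K} with hCL
  have hK0T : Tc K0 := ⟨z0, mem_Q_fl L p n z0, hz0⟩
  have hK0B : Bx K0 := fun j => by simp
  have hmem : ∀ K ∈ CL, Tc K ∧ Bx K := by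
    intro K hK
    induction hK with
    | refl => exact ⟨hK0T, hK0B⟩
    | tail _ h _ => exact h.2
  -- points of the cells of the box
  have hclose : ∀ K, Bx K → ∀ z ∈ Q L p n K, ∀ j, |uc L p z j - uc L p z0 j| ≤ 1 / 16 := by
    intro K hK z hz j
    have h1 := hz j
    have h2 := mem_Q_fl L p n z0 j
    have h3 := abs_le.1 (hK j)
    have h4 : ((K j : ℤ) : ℝ) - K0 j ≤ N0 := by exact_mod_cast h3.2
    have h5 : -(N0 : ℝ) ≤ ((K j : ℤ) : ℝ) - K0 j := by exact_mod_cast h3.1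
    have h6 : (16 : ℝ) * (N0 + 2) ≤ n := by exact_mod_cast hn
    rw [← hK0] at h2
    have h7 : |(n : ℝ) * (uc L p z j - uc L p z0 j)| ≤ N0 + 1 := by
      rw [mul_sub, abs_le]
      constructor <;> linarith [h1.1, h1.2, h2.1, h2.2]
    rw [abs_mul, abs_of_pos hn'] at h7
    by_contra hlt
    push Not at hlt
    nlinarith
  have hstrip : ∀ K, Bx K → ∀ z ∈ Q L p n K, 1 / 4 ≤ L.y z - p ∧ L.y z - p ≤ 3 / 4 := by
    intro K hK z hz
    have h1 := abs_le.1 (hclose K hK z hz none)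
    have h2 : uc L p z none = L.y z - p := rfl
    have h3 : uc L p z0 none = L.y z0 - p := rfl
    rw [h2, h3] at h1
    constructor <;> linarith [h1.1, h1.2]
  -- intermediate values of the coordinates
  have hival : ∀ K ∈ CL, ∀ j, ∀ v : ℤ, (K0 j ≤ v ∧ v ≤ K j) ∨ (K j ≤ v ∧ v ≤ K0 j) →
      ∃ K' ∈ CL, K' j = v := by
    intro K hK j
    induction hK with
    | refl =>
      intro v hv
      exact ⟨K0, Relation.ReflTransGen.refl, by rcases hv with hv | hv <;> omega⟩
    | @tail K1 K2 h1 h2 ih =>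
      intro v hv
      have h3 := abs_le.1 (h2.1 j)
      by_cases hv2 : v = K2 j
      · exact ⟨K2, h1.tail h2, hv2.symm⟩
      · exact ih v (by rcases hv with hv | hv <;> omega)
  -- extent of the cluster
  have hext : ∀ K ∈ CL, ∀ j, |K j - K0 j| ≤ (N0 : ℤ) - 1 := by
    intro K hK j
    by_contra hlt
    push Not at hlt
    have hb := (hmem K hK).2 j
    have heq : |K j - K0 j| = N0 := by omega
    obtain ⟨sg, hsg, hsgv⟩ : ∃ sg : ℤ, (sg = 1 ∨ sg = -1) ∧ ∀ i : ℕ, i ≤ N0 →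
        ∃ K' ∈ CL, K' j = K0 j + sg * i := by
      rcases abs_choice (K j - K0 j) with h | h
      · exact ⟨1, Or.inl rfl, fun i hi => hival K hK j _ (Or.inl (by
          rw [h] at heq
          have : (i : ℤ) ≤ N0 := by exact_mod_cast hi
          omega))⟩
      · exact ⟨-1, Or.inr rfl, fun i hi => hival K hK j _ (Or.inr (by
          rw [h] at heq
          have : (i : ℤ) ≤ N0 := by exact_mod_cast hi
          omega))⟩
    have hsel : ∀ i : ℕ, ∃ K' : Option (Fin d) → ℤ, i ≤ N0 → K' ∈ CL ∧ K' j = K0 j + sg * i := by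
      intro i
      by_cases hi : i ≤ N0
      · obtain ⟨K', h1, h2⟩ := hsgv i hi
        exact ⟨K', fun _ => ⟨h1, h2⟩⟩
      · exact ⟨K0, fun h => absurd h hi⟩
    choose Kf hKf using hsel
    have hinj : Set.InjOn (fun i => tc hnpos (Kf i)) (Finset.range (N0 + 1) : Finset ℕ) := by
      intro i hi i' hi' hii
      rw [Finset.mem_coe, Finset.mem_range] at hi hi'
      have h1 := (hKf i (by omega)).2
      have h2 := (hKf i' (by omega)).2
      have h3 := congrFun hii j
      simp only [tc, Fin.mk.injEq] at h3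
      have hne : (n : ℤ) ≠ 0 := by exact_mod_cast hnpos.ne'
      have h4 := Int.emod_nonneg (Kf i j) hne
      have h5 := Int.emod_nonneg (Kf i' j) hne
      have h6 : Kf i j % n = Kf i' j % n := by omega
      have h7 : (n : ℤ) ∣ Kf i' j - Kf i j := Int.ModEq.dvd (show Kf i j ≡ Kf i' j [ZMOD n] from h6)
      rw [h1, h2] at h7
      have h8 : K0 j + sg * (i' : ℤ) - (K0 j + sg * (i : ℤ)) = sg * ((i' : ℤ) - i) := by ring
      rw [h8] at h7
      have h9 : (n : ℤ) ∣ (i' : ℤ) - i := by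
        rcases hsg with h | h
        · rwa [h, one_mul] at h7
        · rw [h, neg_one_mul] at h7
          exact (dvd_neg).1 h7
      by_contra hne'
      have h10 : (n : ℤ) ≤ |(i' : ℤ) - i| := Int.le_of_dvd (by
        rw [abs_pos]; omega) ((dvd_abs _ _).2 h9)
      have h11 : |(i' : ℤ) - i| ≤ N0 := by rw [abs_le]; constructor <;> omega
      have h12 : (N0 : ℤ) < n := by exact_mod_cast (by omega : N0 < n)
      omega
    have hcard' := hcard ((Finset.range (N0 + 1)).image fun i => tc hnpos (Kf i)) (by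
      intro k hk
      rw [Finset.mem_image] at hk
      obtain ⟨i, hi, rfl⟩ := hk
      rw [Finset.mem_range] at hi
      obtain ⟨hT, hB⟩ := hmem _ (hKf i (by omega)).1
      obtain ⟨z, hz, hzW⟩ := hT
      have := hstrip _ hB z hz
      exact ⟨z, tc_inc L hnpos hz, this.1, this.2, hzW⟩)
    rw [Finset.card_image_of_injOn hinj, Finset.card_range] at hcard'
    omega
  -- closure under touched neighbours
  have hclos : ∀ K ∈ CL, ∀ K', (∀ j, |K j - K' j| ≤ 1) → Tc K' → K' ∈ CL := by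
    intro K hK K' hadj hT
    refine Relation.ReflTransGen.tail hK ⟨hadj, hT, fun j => ?_⟩
    have h1 := abs_le.1 (hext K hK j)
    have h2 := abs_le.1 (hadj j)
    rw [abs_le]
    constructor <;> omega
  -- finiteness
  have hfin : CL.Finite := by
    have : CL ⊆ Set.pi Set.univ (fun j => Set.Icc (K0 j - N0) (K0 j + N0)) := by
      intro K hK j _
      have := abs_le.1 ((hmem K hK).2 j)
      constructor <;> linarith [this.1, this.2]
    exact (Set.Finite.pi' fun j => Set.finite_Icc _ _).subset (by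
      intro K hK j
      exact this hK j (Set.mem_univ j))
  set D : Set E := ⋃ K ∈ CL, Q L p n K with hD
  have hDclosed : IsClosed D := hfin.isClosed_biUnion fun K _ => Q_closed L p n K
  have hDnorm : ∀ z ∈ D, ‖z - z0‖ ≤ kap2 L := by
    intro z hz
    rw [hD, mem_iUnion₂] at hz
    obtain ⟨K, hK, hzK⟩ := hz
    have h1 : ‖z - z0‖ ≤ kap2 L * (1 / 16) := norm_le_uc L _ fun j => by
      rw [← uc_sub L p]
      exact hclose K (hmem K hK).2 z hzK j
    have := kap2_nonneg L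
    linarith
  refine ⟨D, ?_, ?_, ?_, hDnorm, ?_⟩
  · refine Metric.isCompact_of_isClosed_isBounded hDclosed ?_
    refine (Metric.isBounded_closedBall (x := z0) (r := kap2 L)).subset fun z hz => ?_
    rw [Metric.mem_closedBall, dist_eq_norm]
    exact hDnorm z hz
  · rw [hD, mem_iUnion₂]
    exact ⟨K0, Relation.ReflTransGen.refl, mem_Q_fl L p n z0⟩
  · intro z hz
    rw [hD, mem_iUnion₂] at hz
    obtain ⟨K, hK, hzK⟩ := hz
    exact hstrip K (hmem K hK).2 z hzK
  · intro z hz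
    by_contra hle
    push Not at hle
    have hzD : z ∈ D := hDclosed.frontier_subset hz
    rw [hD, mem_iUnion₂] at hzD
    obtain ⟨K, hK, hzK⟩ := hzD
    apply hz.2
    rw [mem_interior_iff_mem_nhds]
    filter_upwards [ev_mem_Q L p n z] with x hx
    rw [hD, mem_iUnion₂]
    refine ⟨fl L p n x, hclos K hK _ (fun j => ?_) ⟨z, hx, hle⟩, mem_Q_fl L p n x⟩
    have h1 := hzK j
    have h2 := hx j
    have h3 : ((K j : ℤ) : ℝ) ≤ (fl L p n x j : ℤ) + 1 := h1.1.trans h2.2
    have h4 : (((fl L p n x j) : ℤ) : ℝ) ≤ (K j : ℤ) + 1 := h2.1.trans h1.2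
    have h5 : K j ≤ fl L p n x j + 1 := by exact_mod_cast h3
    have h6 : fl L p n x j ≤ K j + 1 := by exact_mod_cast h4
    rw [abs_le]
    constructor <;> omega

end Esc
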