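import Pool.Agent.helper42.TonT

/-!
Symbol classes for families `f : ℕ → ℝ → ℝ`, with bounds that are uniform in the index on a region
`P q t`; locally finite sums of such families.
-/

noncomputable section

namespace Ton

open Real Filter Topology

variable {P : ℕ → ℝ → Prop}

/-- uniform bound on the region -/
def VB (P : ℕ → ℝ → Prop) (c : ℝ) (f : ℕ → ℝ → ℝ) : Prop :=
  ∃ C : ℝ, ∀ q t, P q t → ‖f q t‖ ≤ C * jb t ^ (-c)

/-- uniform symbol class of order `m` -/
def VL (P : ℕ → ℝ → Prop) (σ : ℝ) : ℕ → ℝ → (ℕ → ℝ → ℝ) → Prop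
  | 0, c, f => VB P c f
  | m + 1, c, f => VB P c f ∧ (∀ q, Differentiable ℝ (f q)) ∧ VL P σ m (c - σ) (fun q => deriv (f q))

lemma VB.mono {c c' : ℝ} {f : ℕ → ℝ → ℝ} (h : VB P c f) (hc : c' ≤ c) : VB P c' f := by
  obtain ⟨C, hC⟩ := h
  refine ⟨max C 0, fun q t hP => (hC q t hP).trans ?_⟩
  calc C * jb t ^ (-c) ≤ max C 0 * jb t ^ (-c) :=
        mul_le_mul_of_nonneg_right (le_max_left _ _) (jb_rpow_pos _ _).le
    _ ≤ max C 0 * jb t ^ (-c') :=
        mul_le_mul_of_nonneg_left (jb_rpow_le (by linarith) t) (le_max_right _ _)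

lemma VL.bd {σ c : ℝ} {m : ℕ} {f : ℕ → ℝ → ℝ} (h : VL P σ m c f) : VB P c f := by
  cases m with
  | zero => exact h
  | succ m => exact h.1

lemma VL.mono {m : ℕ} : ∀ {σ σ' c c' : ℝ} {f : ℕ → ℝ → ℝ}, VL P σ m c f → σ ≤ σ' → c' ≤ c →
    VL P σ' m c' f := by
  induction m with
  | zero => intro σ σ' c c' f h _ hc; exact VB.mono h hc
  | succ m ih =>
    intro σ σ' c c' f h hs hc
    exact ⟨VB.mono h.1 hc, h.2.1, ih h.2.2 hs (by linarith)⟩

lemma VL.pred {m : ℕ} : ∀ {σ c : ℝ} {f : ℕ → ℝ → ℝ}, VL P σ (m + 1) c f → VL P σ m c f := by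
  induction m with
  | zero => intro σ c f h; exact h.1
  | succ m ih =>
    intro σ c f h
    exact ⟨h.1, h.2.1, ih h.2.2⟩

lemma VL.congr {σ c : ℝ} {m : ℕ} {f g : ℕ → ℝ → ℝ} (h : VL P σ m c f) (e : f = g) :
    VL P σ m c g := e ▸ h

lemma VB.add {c : ℝ} {f g : ℕ → ℝ → ℝ} (hf : VB P c f) (hg : VB P c g) :
    VB P c (fun q t => f q t + g q t) := by
  obtain ⟨C, hC⟩ := hf
  obtain ⟨D, hD⟩ := hg
  refine ⟨C + D, fun q t hP => (norm_add_le _ _).trans ?_⟩
  rw [add_mul]
  exact add_le_add (hC q t hP) (hD q t hP)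

lemma VL.add {m : ℕ} : ∀ {σ c : ℝ} {f g : ℕ → ℝ → ℝ}, VL P σ m c f → VL P σ m c g →
    VL P σ m c (fun q t => f q t + g q t) := by
  induction m with
  | zero => intro σ c f g hf hg; exact VB.add hf hg
  | succ m ih =>
    intro σ c f g hf hg
    refine ⟨VB.add hf.1 hg.1, fun q => (hf.2.1 q).add (hg.2.1 q), ?_⟩
    have : (fun q => deriv (fun t => f q t + g q t)) = fun q t => deriv (f q) t + deriv (g q) t := by
      funext q t
      exact deriv_add (hf.2.1 q t) (hg.2.1 q t)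
    rw [this]
    exact ih hf.2.2 hg.2.2

lemma VB.mul {c d : ℝ} {f g : ℕ → ℝ → ℝ} (hf : VB P c f) (hg : VB P d g) :
    VB P (c + d) (fun q t => f q t * g q t) := by
  obtain ⟨C, hC⟩ := hf
  obtain ⟨D, hD⟩ := hg
  refine ⟨C * D, fun q t hP => ?_⟩
  rw [norm_mul]
  have e : C * D * jb t ^ (-(c + d)) = (C * jb t ^ (-c)) * (D * jb t ^ (-d)) := by
    rw [show -(c + d) = -c + -d by ring, ← jb_rpow_add]
    ring
  rw [e]
  exact mul_le_mul (hC q t hP) (hD q t hP) (norm_nonneg _) ((norm_nonneg _).trans (hC q t hP))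

lemma VL.mul {m : ℕ} : ∀ {σ c d : ℝ} {f g : ℕ → ℝ → ℝ}, VL P σ m c f → VL P σ m d g →
    VL P σ m (c + d) (fun q t => f q t * g q t) := by
  induction m with
  | zero => intro σ c d f g hf hg; exact VB.mul hf hg
  | succ m ih =>
    intro σ c d f g hf hg
    refine ⟨VB.mul hf.1 hg.1, fun q => (hf.2.1 q).mul (hg.2.1 q), ?_⟩
    have : (fun q => deriv (fun t => f q t * g q t))
        = fun q t => deriv (f q) t * g q t + f q t * deriv (g q) t := by
      funext q t
      exact deriv_mul (hf.2.1 q t) (hg.2.1 q t)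
    rw [this]
    have h1 := ih hf.2.2 hg.pred
    have h2 := ih hf.pred hg.2.2
    exact VL.add (h1.mono le_rfl (by linarith)) (h2.mono le_rfl (by linarith))

lemma VL.of_TL {m : ℕ} : ∀ {σ c : ℝ} {f : ℝ → ℝ}, TL σ m c f → VL P σ m c (fun _ => f) := by
  have hb : ∀ {c : ℝ} {f : ℝ → ℝ}, Bd c f → VB P c (fun _ => f) := by
    rintro c f ⟨C, hC⟩
    exact ⟨C, fun q t _ => hC t⟩
  induction m with
  | zero => intro σ c f h; exact hb h
  | succ m ih =>
    intro σ c f h
    exact ⟨hb h.1, fun _ => h.2.1, ih h.2.2⟩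

/-- multiplication by the index -/
lemma VL.index_mul {ℓ : ℝ} (hP : ∀ q t, P q t → (q : ℝ) ≤ jb t ^ ℓ) {m : ℕ} :
    ∀ {σ c : ℝ} {f : ℝ → ℝ}, TL σ m c f → VL P σ m (c - ℓ) (fun q t => (q : ℝ) * f t) := by
  have hb : ∀ {c : ℝ} {f : ℝ → ℝ}, Bd c f → VB P (c - ℓ) (fun q t => (q : ℝ) * f t) := by
    rintro c f ⟨C, hC⟩
    refine ⟨C, fun q t hq => ?_⟩
    rw [norm_mul, show -(c - ℓ) = ℓ + -c by ring, ← jb_rpow_add, ← mul_assoc, mul_comm C, mul_assoc]
    refine mul_le_mul ?_ (hC t) (norm_nonneg _) (jb_rpow_pos _ _).le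
    rw [Real.norm_of_nonneg (Nat.cast_nonneg _)]
    exact hP q t hq
  induction m with
  | zero => intro σ c f h; exact hb h
  | succ m ih =>
    intro σ c f h
    refine ⟨hb h.1, fun q => h.2.1.const_mul _, ?_⟩
    have : (fun q : ℕ => deriv (fun t => (q : ℝ) * f t)) = fun (q : ℕ) t => (q : ℝ) * deriv f t := by
      funext q t
      exact deriv_const_mul _ (h.2.1 t)
    rw [this]
    have := ih h.2.2
    rwa [show c - σ - ℓ = c - ℓ - σ by ring] at this

lemma VL.neg {m : ℕ} {σ c : ℝ} {f : ℕ → ℝ → ℝ} (h : VL P σ m c f) :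
    VL P σ m c (fun q t => - f q t) := by
  have h1 : VL P σ m 0 (fun _ _ => (-1 : ℝ)) := VL.of_TL ((TA.const σ (-1 : ℝ)) m)
  have := h1.mul h
  rw [zero_add] at this
  exact this.congr (by funext q t; ring)

lemma VL.const_mul {m : ℕ} {σ c : ℝ} {f : ℕ → ℝ → ℝ} (a : ℝ) (h : VL P σ m c f) :
    VL P σ m c (fun q t => a * f q t) := by
  have h1 : VL P σ m 0 (fun _ _ => a) := VL.of_TL ((TA.const σ a) m)
  have := h1.mul h
  rw [zero_add] at this
  exact this

/-- sine and cosine of a phase -/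
lemma VL.trig {σ : ℝ} {z zd : ℕ → ℝ → ℝ} (hz : ∀ q t, HasDerivAt (z q) (zd q t) t)
    (hzd : ∀ m, VL P σ m (-σ) zd) (m : ℕ) :
    VL P σ m 0 (fun q t => Real.sin (z q t)) ∧ VL P σ m 0 (fun q t => Real.cos (z q t)) := by
  have hs : VB P 0 (fun q t => Real.sin (z q t)) := ⟨1, fun q t _ => by
    simpa using Real.abs_sin_le_one _⟩
  have hc : VB P 0 (fun q t => Real.cos (z q t)) := ⟨1, fun q t _ => by
    simpa using Real.abs_cos_le_one _⟩
  have hds : ∀ q t, HasDerivAt (fun t => Real.sin (z q t)) (Real.cos (z q t) * zd q t) t :=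
    fun q t => (hz q t).sin
  have hdc : ∀ q t, HasDerivAt (fun t => Real.cos (z q t)) (-Real.sin (z q t) * zd q t) t :=
    fun q t => (hz q t).cos
  induction m with
  | zero => exact ⟨hs, hc⟩
  | succ m ih =>
    refine ⟨⟨hs, fun q t => (hds q t).differentiableAt, ?_⟩,
      ⟨hc, fun q t => (hdc q t).differentiableAt, ?_⟩⟩
    · have : (fun q => deriv (fun t => Real.sin (z q t)))
          = fun q t => Real.cos (z q t) * zd q t := by
        funext q t; exact (hds q t).deriv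
      rw [this]
      exact (ih.2.mul (hzd m)).mono le_rfl (by linarith)
    · have : (fun q => deriv (fun t => Real.cos (z q t)))
          = fun q t => -Real.sin (z q t) * zd q t := by
        funext q t; exact (hdc q t).deriv
      rw [this]
      exact (ih.1.neg.mul (hzd m)).mono le_rfl (by linarith)

/-- `1/√(1+u²)` -/
def iD (u : ℝ) : ℝ := (Real.sqrt (1 + u ^ 2))⁻¹

/-- `u/√(1+u²)` -/
def iG (u : ℝ) : ℝ := u * iD u

lemma iD_pos (u : ℝ) : 0 < iD u := by unfold iD; positivity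

lemma iD_sq (u : ℝ) : iD u ^ 2 * (1 + u ^ 2) = 1 := by
  unfold iD
  rw [inv_pow, Real.sq_sqrt (by positivity)]
  exact inv_mul_cancel₀ (by positivity)

lemma iD_le_one (u : ℝ) : iD u ≤ 1 := by
  have h := iD_sq u
  have h0 := iD_pos u
  nlinarith [sq_nonneg u, sq_nonneg (iD u * u), mul_pos h0 h0]

lemma iG_sq_add (u : ℝ) : iG u ^ 2 + iD u ^ 2 = 1 := by
  have h := iD_sq u
  unfold iG
  linarith [h, (by ring : (u * iD u) ^ 2 + iD u ^ 2 = iD u ^ 2 * (1 + u ^ 2))]

lemma abs_iG_le_one (u : ℝ) : |iG u| ≤ 1 := by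
  rw [abs_le]
  have h := iG_sq_add u
  constructor <;> nlinarith [sq_nonneg (iD u)]

lemma iD_hasDerivAt {u : ℝ → ℝ} {u' t : ℝ} (h : HasDerivAt u u' t) :
    HasDerivAt (fun t => iD (u t)) (-(iG (u t) * (iD (u t) * iD (u t))) * u') t := by
  have h1 : HasDerivAt (fun t => 1 + u t ^ 2) (2 * u t * u') t := by
    have := (h.pow 2).const_add 1
    simpa [mul_assoc] using this
  have h2 := h1.sqrt (by positivity)
  have h3 := h2.inv (by positivity)
  have e : -(2 * u t * u' / (2 * Real.sqrt (1 + u t ^ 2))) / Real.sqrt (1 + u t ^ 2) ^ 2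
      = -(iG (u t) * (iD (u t) * iD (u t))) * u' := by
    have hs : Real.sqrt (1 + u t ^ 2) ≠ 0 := by positivity
    unfold iG iD
    field_simp
  rw [e] at h3
  exact h3

lemma iG_hasDerivAt {u : ℝ → ℝ} {u' t : ℝ} (h : HasDerivAt u u' t) :
    HasDerivAt (fun t => iG (u t)) (iD (u t) * (iD (u t) * iD (u t)) * u') t := by
  have h1 := h.mul (iD_hasDerivAt h)
  have e : u' * iD (u t) + u t * (-(iG (u t) * (iD (u t) * iD (u t))) * u')
      = iD (u t) * (iD (u t) * iD (u t)) * u' := by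
    have h := iD_sq (u t)
    have : iD (u t) = iD (u t) * (iD (u t) ^ 2 * (1 + u t ^ 2)) := by rw [h, mul_one]
    unfold iG
    linear_combination u' * this
  rw [e] at h1
  exact h1

lemma VL.iGD {σ : ℝ} {u ud : ℕ → ℝ → ℝ} (hu : ∀ q t, HasDerivAt (u q) (ud q t) t)
    (hud : ∀ m, VL P σ m (-σ) ud) (m : ℕ) :
    VL P σ m 0 (fun q t => iG (u q t)) ∧ VL P σ m 0 (fun q t => iD (u q t)) := by
  have hG : VB P 0 (fun q t => iG (u q t)) := ⟨1, fun q t _ => by
    simpa using abs_iG_le_one _⟩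
  have hD : VB P 0 (fun q t => iD (u q t)) := ⟨1, fun q t _ => by
    rw [Real.norm_of_nonneg (iD_pos _).le]
    simpa using iD_le_one _⟩
  have hdG := fun q t => iG_hasDerivAt (hu q t)
  have hdD := fun q t => iD_hasDerivAt (hu q t)
  induction m with
  | zero => exact ⟨hG, hD⟩
  | succ m ih =>
    refine ⟨⟨hG, fun q t => (hdG q t).differentiableAt, ?_⟩,
      ⟨hD, fun q t => (hdD q t).differentiableAt, ?_⟩⟩
    · have : (fun q => deriv (fun t => iG (u q t)))
          = fun q t => iD (u q t) * (iD (u q t) * iD (u q t)) * ud q t := by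
        funext q t; exact (hdG q t).deriv
      rw [this]
      exact ((ih.2.mul (ih.2.mul ih.2)).mul (hud m)).mono le_rfl (by linarith)
    · have : (fun q => deriv (fun t => iD (u q t)))
          = fun q t => -(iG (u q t) * (iD (u q t) * iD (u q t))) * ud q t := by
        funext q t; exact (hdD q t).deriv
      rw [this]
      exact ((ih.1.mul (ih.2.mul ih.2)).neg.mul (hud m)).mono le_rfl (by linarith)

/-- locally finite sums -/
lemma VL.tsum (hfin : ∀ R : ℝ, ∃ N : ℕ, ∀ q, N ≤ q → ∀ t, |t| < R → ¬ P q t)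
    {a : ℕ → ℝ} (ha : Summable fun q => |a q|) {m : ℕ} :
    ∀ {σ c : ℝ} {g : ℕ → ℝ → ℝ}, VL P σ m c g → (∀ q t, ¬ P q t → g q =ᶠ[𝓝 t] fun _ => 0) →
      TL σ m c (fun t => ∑' q, a q * g q t) ∧ ((∀ q, Differentiable ℝ (g q)) →
        ∀ t, HasDerivAt (fun t => ∑' q, a q * g q t) (∑' q, a q * deriv (g q) t) t) := by
  have hb : ∀ {c : ℝ} {g : ℕ → ℝ → ℝ}, VB P c g → (∀ q t, ¬ P q t → g q =ᶠ[𝓝 t] fun _ => 0) →
      Bd c (fun t => ∑' q, a q * g q t) := by
    rintro c g ⟨C, hC⟩ hg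
    refine ⟨(∑' q, |a q|) * max C 0, fun t => ?_⟩
    have h1 : ∀ q, ‖a q * g q t‖ ≤ |a q| * (max C 0 * jb t ^ (-c)) := by
      intro q
      rw [norm_mul, Real.norm_eq_abs]
      refine mul_le_mul_of_nonneg_left ?_ (abs_nonneg _)
      by_cases hP : P q t
      · exact (hC q t hP).trans
          (mul_le_mul_of_nonneg_right (le_max_left _ _) (jb_rpow_pos _ _).le)
      · rw [(hg q t hP).eq_of_nhds, norm_zero]
        exact mul_nonneg (le_max_right _ _) (jb_rpow_pos _ _).le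
    have h2 := tsum_of_norm_bounded (ha.mul_right (max C 0 * jb t ^ (-c))).hasSum h1
    rw [tsum_mul_right] at h2
    rw [mul_assoc]
    exact h2
  have hd : ∀ {g : ℕ → ℝ → ℝ}, (∀ q t, ¬ P q t → g q =ᶠ[𝓝 t] fun _ => 0) →
      (∀ q, Differentiable ℝ (g q)) →
        ∀ t, HasDerivAt (fun t => ∑' q, a q * g q t) (∑' q, a q * deriv (g q) t) t := by
    intro g hg hgd t
    obtain ⟨N, hN⟩ := hfin (|t| + 1)
    have h1 : HasDerivAt (fun t => ∑ q ∈ Finset.range N, a q * g q t)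
        (∑ q ∈ Finset.range N, a q * deriv (g q) t) t :=
      HasDerivAt.fun_sum fun q _ => ((hgd q t).hasDerivAt).const_mul (a q)
    have h2 : ∑' q, a q * deriv (g q) t = ∑ q ∈ Finset.range N, a q * deriv (g q) t := by
      refine tsum_eq_sum fun q hq => ?_
      have hq' : N ≤ q := by simpa using hq
      have h3 := (hg q t (hN q hq' t (by linarith))).deriv.eq_of_nhds
      rw [h3]
      simp
    rw [h2]
    refine h1.congr_of_eventuallyEq ?_
    have h4 : ∀ᶠ s in 𝓝 t, |s| < |t| + 1 := by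
      have : Continuous fun s : ℝ => |s| := continuous_abs
      exact this.continuousAt.eventually_lt_const (by linarith)
    filter_upwards [h4] with s hs
    refine tsum_eq_sum fun q hq => ?_
    have hq' : N ≤ q := by simpa using hq
    rw [(hg q s (hN q hq' s hs)).eq_of_nhds, mul_zero]
  induction m with
  | zero =>
    intro σ c g hg hs
    exact ⟨hb hg hs, fun h => hd hs h⟩
  | succ m ih =>
    intro σ c g hg hs
    refine ⟨⟨hb hg.1 hs, fun t => (hd hs hg.2.1 t).differentiableAt, ?_⟩, fun h => hd hs h⟩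
    have : deriv (fun t => ∑' q, a q * g q t) = fun t => ∑' q, a q * deriv (g q) t := by
      funext t
      exact (hd hs hg.2.1 t).deriv
    rw [this]
    refine (ih hg.2.2 fun q t hP => ?_).1
    have := (hs q t hP).deriv
    simpa using this

end Ton
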