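import Pool.Agent.helper33.Esc.Defs

/-!
Module C of the escape theorem: infinite chains of gate points.
-/

noncomputable section

namespace Esc

open MeasureTheory Set Filter Topology

variable {E : Type*} [NormedAddCommGroup E] [InnerProductSpace ℝ E]

/-- infinite sequence of gate points, optimal at every gate -/
theorem chain_points (A : Set E) (g : E) (G : ℕ → E → E → ℝ) (D : ℕ → Set E) (τ : ℕ → E)
    (hD : ∀ n, IsCompact (D n)) (hne : ∀ n, (D n).Nonempty) (hDA : ∀ n, D n ⊆ A)
    (hDg : ∀ n, ∀ z ∈ D n, z - g ∈ A)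
    (hG : ∀ n, ContinuousOn (fun q : E × E => G n q.1 q.2) (A ×ˢ A))
    (hgate : ∀ n, ∀ z ∈ frontier (D (n + 1)), ∃ w ∈ D (n + 1), ∀ x ∈ A, ∀ x' ∈ A,
      G n x w + G (n + 1) (w - g) x' - inner ℝ (τ (n + 1)) w <
        G n x z + G (n + 1) (z - g) x' - inner ℝ (τ (n + 1)) z) :
    ∃ z : ℕ → E, (∀ n, z n ∈ D n) ∧ (∀ n, z (n + 1) ∈ interior (D (n + 1))) ∧
      ∀ n, ∀ w ∈ D (n + 1),
        G n (z n - g) (z (n + 1)) + G (n + 1) (z (n + 1) - g) (z (n + 2)) - inner ℝ (τ (n + 1)) (z (n + 1)) ≤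
          G n (z n - g) w + G (n + 1) (w - g) (z (n + 2)) - inner ℝ (τ (n + 1)) w := by
  classical
  set X : Set (ℕ → E) := Set.pi univ D with hX
  have hXc : IsCompact X := isCompact_univ_pi hD
  have hXne : X.Nonempty := by
    choose z hz using hne
    exact ⟨z, fun n _ => hz n⟩
  have hcont : ∀ n, Continuous fun z : ℕ → E => z n := fun n => continuous_apply n
  -- continuity of the links
  have hlink : ∀ n, ContinuousOn (fun z : ℕ → E => G n (z n - g) (z (n + 1))) X := by
    intro n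
    have h1 : ContinuousOn (fun z : ℕ → E => (z n - g, z (n + 1))) X :=
      (((hcont n).sub continuous_const).prodMk (hcont (n + 1))).continuousOn
    exact (hG n).comp h1 fun z hz => ⟨hDg n _ (hz n (mem_univ _)), hDA _ (hz (n + 1) (mem_univ _))⟩
  have hlinkw : ∀ n, ∀ w ∈ D (n + 1), ContinuousOn (fun z : ℕ → E => G n (z n - g) w) X := by
    intro n w hw
    have h1 : ContinuousOn (fun z : ℕ → E => (z n - g, w)) X :=
      (((hcont n).sub continuous_const).prodMk continuous_const).continuousOn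
    exact (hG n).comp h1 fun z hz => ⟨hDg n _ (hz n (mem_univ _)), hDA _ hw⟩
  have hlinkw' : ∀ n, ∀ w ∈ D (n + 1),
      ContinuousOn (fun z : ℕ → E => G (n + 1) (w - g) (z (n + 2))) X := by
    intro n w hw
    have h1 : ContinuousOn (fun z : ℕ → E => (w - g, z (n + 2))) X :=
      (continuous_const.prodMk (hcont (n + 2))).continuousOn
    exact (hG (n + 1)).comp h1 fun z hz => ⟨hDg _ _ hw, hDA _ (hz (n + 2) (mem_univ _))⟩
  have hin : ∀ n, Continuous fun z : ℕ → E => (inner ℝ (τ n) (z n) : ℝ) := fun n =>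
    continuous_const.inner (hcont n)
  -- the difference at a site
  set h : ℕ → E → (ℕ → E) → ℝ := fun n w z =>
    (G n (z n - g) (z (n + 1)) + G (n + 1) (z (n + 1) - g) (z (n + 2))
        - inner ℝ (τ (n + 1)) (z (n + 1)))
      - (G n (z n - g) w + G (n + 1) (w - g) (z (n + 2)) - inner ℝ (τ (n + 1)) w) with hh
  have hhc : ∀ n, ∀ w ∈ D (n + 1), ContinuousOn (h n w) X := by
    intro n w hw
    exact (((hlink n).add (hlink (n + 1))).sub (hin (n + 1)).continuousOn).sub
      (((hlinkw n w hw).add (hlinkw' n w hw)).sub continuousOn_const)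
  set F : ℕ → Set (ℕ → E) := fun N => {z | z ∈ X ∧ ∀ n, n < N → ∀ w ∈ D (n + 1), h n w z ≤ 0} with hF
  have hFclosed : ∀ N, IsClosed (F N) := by
    intro N
    have h1 : F N = X ∩ ⋂ (n : ℕ) (_ : n < N) (w : E) (_ : w ∈ D (n + 1)), (X ∩ h n w ⁻¹' Iic 0) := by
      ext z
      simp only [hF, mem_setOf_eq, mem_inter_iff, mem_iInter, mem_preimage, mem_Iic]
      constructor
      · rintro ⟨h1, h2⟩
        exact ⟨h1, fun n hn w hw => ⟨h1, h2 n hn w hw⟩⟩
      · rintro ⟨h1, h2⟩
        exact ⟨h1, fun n hn w hw => (h2 n hn w hw).2⟩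
    rw [h1]
    refine hXc.isClosed.inter (isClosed_iInter fun n => isClosed_iInter fun _ =>
      isClosed_iInter fun w => isClosed_iInter fun hw => ?_)
    exact (hhc n w hw).preimage_isClosed_of_isClosed hXc.isClosed isClosed_Iic
  have hFne : ∀ N, (F N).Nonempty := by
    intro N
    set Φ : (ℕ → E) → ℝ := fun z => ∑ n ∈ Finset.range (N + 1),
      (G n (z n - g) (z (n + 1)) - inner ℝ (τ (n + 1)) (z (n + 1))) with hΦ
    have hΦc : ContinuousOn Φ X :=
      continuousOn_finset_sum _ fun n _ => (hlink n).sub (hin (n + 1)).continuousOn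
    obtain ⟨z, hz, hmin⟩ := hXc.exists_isMinOn hXne hΦc
    refine ⟨z, hz, fun n hn w hw => ?_⟩
    set z' := Function.update z (n + 1) w with hz'
    have e1 : z' (n + 1) = w := Function.update_self _ _ _
    have e2 : ∀ k, k ≠ n + 1 → z' k = z k := fun k hk => Function.update_of_ne hk _ _
    have hz'X : z' ∈ X := by
      intro k _
      by_cases hk : k = n + 1
      · rw [hk, e1]; exact hw
      · rw [e2 k hk]; exact hz k (mem_univ _)
    have h1 : Φ z ≤ Φ z' := hmin hz'X
    have hsplit : ∀ y : ℕ → E, Φ y = (∑ k ∈ ((Finset.range (N + 1)).erase n).erase (n + 1),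
        (G k (y k - g) (y (k + 1)) - inner ℝ (τ (k + 1)) (y (k + 1))))
        + (G (n + 1) (y (n + 1) - g) (y (n + 2)) - inner ℝ (τ (n + 2)) (y (n + 2)))
        + (G n (y n - g) (y (n + 1)) - inner ℝ (τ (n + 1)) (y (n + 1))) := by
      intro y
      have hn1 : n ∈ Finset.range (N + 1) := by rw [Finset.mem_range]; omega
      have hn2 : n + 1 ∈ (Finset.range (N + 1)).erase n := by
        rw [Finset.mem_erase, Finset.mem_range]; omega
      rw [hΦ]
      simp only
      rw [← Finset.sum_erase_add _ _ hn1, ← Finset.sum_erase_add _ _ hn2]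
    rw [hsplit z, hsplit z'] at h1
    have hrest : ∑ k ∈ ((Finset.range (N + 1)).erase n).erase (n + 1),
        (G k (z' k - g) (z' (k + 1)) - inner ℝ (τ (k + 1)) (z' (k + 1)))
        = ∑ k ∈ ((Finset.range (N + 1)).erase n).erase (n + 1),
        (G k (z k - g) (z (k + 1)) - inner ℝ (τ (k + 1)) (z (k + 1))) := by
      refine Finset.sum_congr rfl fun k hk => ?_
      have hk1 : k ≠ n + 1 := Finset.ne_of_mem_erase hk
      have hk2 : k ≠ n := Finset.ne_of_mem_erase (Finset.mem_of_mem_erase hk)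
      rw [e2 k hk1, e2 (k + 1) (by omega)]
    rw [hrest, e1, e2 n (by omega), e2 (n + 2) (by omega)] at h1
    simp only [hh]
    linarith
  have hFmono : ∀ N, F (N + 1) ⊆ F N := fun N z hz => ⟨hz.1, fun n hn => hz.2 n (by omega)⟩
  have hF0 : IsCompact (F 0) := hXc.of_isClosed_subset (hFclosed 0) fun z hz => hz.1
  obtain ⟨z, hz⟩ := IsCompact.nonempty_iInter_of_sequence_nonempty_isCompact_isClosed F hFmono hFne
    hF0 hFclosed
  rw [mem_iInter] at hz
  have hzD : ∀ n, z n ∈ D n := fun n => (hz 0).1 n (mem_univ _)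
  have hsite : ∀ n, ∀ w ∈ D (n + 1),
      G n (z n - g) (z (n + 1)) + G (n + 1) (z (n + 1) - g) (z (n + 2))
          - inner ℝ (τ (n + 1)) (z (n + 1)) ≤
        G n (z n - g) w + G (n + 1) (w - g) (z (n + 2)) - inner ℝ (τ (n + 1)) w := by
    intro n w hw
    have := (hz (n + 1)).2 n (by omega) w hw
    simp only [hh] at this
    linarith
  refine ⟨z, hzD, fun n => ?_, hsite⟩
  by_contra hint
  have hfr : z (n + 1) ∈ frontier (D (n + 1)) :=
    ⟨subset_closure (hzD _), hint⟩
  obtain ⟨w, hw, hlt⟩ := hgate n _ hfr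
  have h1 := hlt (z n - g) (hDg n _ (hzD n)) (z (n + 2)) (hDA _ (hzD _))
  have h2 := hsite n w hw
  linarith

end Esc
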