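import Mathlib

/-!
One-dimensional surgery for near-minimal sequences of a kernel `S : ℝ → ℝ → ℝ` with the removal property.
-/

namespace EscR

open Finset

/-- total cost of the first `n` steps -/
def cost (S : ℝ → ℝ → ℝ) (n : ℕ) (x : ℕ → ℝ) : ℝ := ∑ k ∈ range n, S (x k) (x (k + 1))

/-- near minimality of a block with fixed ends, in the room `|y - p| ≤ 7/8` -/
def NM (S : ℝ → ℝ → ℝ) (p δ : ℝ) (n : ℕ) (x : ℕ → ℝ) : Prop :=
  ∀ η : ℕ → ℝ, (∀ k, k ≤ n → |η k - p| ≤ 7 / 8) → η 0 = x 0 → η n = x n →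
    cost S n x ≤ cost S n η + δ

/-- the properties of the kernel -/
structure Ker (S : ℝ → ℝ → ℝ) (p β Φ e : ℝ) : Prop where
  hβ : 0 < β
  up : ∀ a b m, a ≤ m → b ≤ m → S a b + S m m ≤ S a m + S m b
  dn : ∀ a b m, m ≤ a → m ≤ b → S a b + S m m ≤ S a m + S m b
  c2 : ∀ a b, |b - a| ≤ 2 → |S a b - Φ - (b - a) ^ 2 / 2| ≤ 1 / 2000
  le : ∀ v, e ≤ S v v
  mn : ∃ p0, |p0 - p| < 1 / 8 ∧ S p0 p0 = e
  c1 : ∀ v, 1 / 8 ≤ |v - p| → |v - p| ≤ 7 / 8 → e + β ≤ S v v

/-- `v` is near the minimum set -/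
def Nv (S : ℝ → ℝ → ℝ) (β e v : ℝ) : Prop := S v v ≤ e + β / 2

/-- `v` is near the minimum set, wide version -/
def Nwd (S : ℝ → ℝ → ℝ) (β e v : ℝ) : Prop := S v v ≤ e + 3 * β / 4

lemma Nv.wide {S : ℝ → ℝ → ℝ} {β e v : ℝ} (h : Nv S β e v) (hβ : 0 < β) : Nwd S β e v := by
  unfold Nv at h
  unfold Nwd
  linarith

section perm

variable {ι : Type*} [DecidableEq ι] {S : ℝ → ℝ → ℝ}

/-- rearrangement inequality -/
lemma perm_ge (up : ∀ a b m, a ≤ m → b ≤ m → S a b + S m m ≤ S a m + S m b) (y : ι → ℝ) :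
    ∀ (n : ℕ) (s : Finset ι), s.card = n → ∀ σ : Equiv.Perm ι, (∀ x, x ∉ s → σ x = x) →
      ∑ x ∈ s, S (y x) (y x) ≤ ∑ x ∈ s, S (y x) (y (σ x)) := by
  intro n
  induction n with
  | zero =>
    intro s hs σ _
    rw [Finset.card_eq_zero] at hs
    subst hs
    simp
  | succ n ih =>
    intro s hs σ hσ
    have hne : s.Nonempty := by
      rw [← Finset.card_pos]; omega
    obtain ⟨i, hi, hmax⟩ := s.exists_max_image y hne
    have hmem : ∀ x, x ∈ s → σ x ∈ s := by
      intro x hx
      by_contra h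
      have h1 := hσ _ h
      have h2 := σ.injective h1
      rw [h2] at h
      exact h hx
    have hmem' : ∀ x, x ∈ s → σ.symm x ∈ s := by
      intro x hx
      by_contra h
      have h1 := hσ _ h
      rw [Equiv.apply_symm_apply] at h1
      rw [← h1] at h
      exact h hx
    set τ : Equiv.Perm ι := Equiv.swap i (σ i) * σ with hτ
    have hτi : τ i = i := by simp [hτ]
    have hτ' : ∀ x, x ∉ s.erase i → τ x = x := by
      intro x hx
      by_cases hxi : x = i
      · rw [hxi, hτi]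
      · have hxs : x ∉ s := fun h => hx (Finset.mem_erase.2 ⟨hxi, h⟩)
        have h1 := hσ x hxs
        have h2 : x ≠ σ i := fun h => hxs (h ▸ hmem i hi)
        rw [hτ, Equiv.Perm.mul_apply, h1, Equiv.swap_apply_of_ne_of_ne hxi h2]
    have hcard : (s.erase i).card = n := by
      rw [Finset.card_erase_of_mem hi, hs]; rfl
    have hI := ih (s.erase i) hcard τ hτ'
    rw [← Finset.add_sum_erase s _ hi, ← Finset.add_sum_erase s (fun x => S (y x) (y (σ x))) hi]
    by_cases hfix : σ i = i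
    · have h1 : τ = σ := by
        rw [hτ, hfix, Equiv.swap_self]
        rfl
      rw [h1] at hI
      rw [hfix]
      linarith
    · set j := σ.symm i with hj
      have hji : j ≠ i := by
        intro h
        apply hfix
        have : σ (σ.symm i) = i := Equiv.apply_symm_apply _ _
        rw [← hj, h] at this
        exact this
      have hjs : j ∈ s.erase i := Finset.mem_erase.2 ⟨hji, hmem' i hi⟩
      have hσj : σ j = i := by rw [hj, Equiv.apply_symm_apply]
      have hτj : τ j = σ i := by rw [hτ, Equiv.Perm.mul_apply, hσj, Equiv.swap_apply_left]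
      have hrest : ∀ x ∈ (s.erase i).erase j, S (y x) (y (τ x)) = S (y x) (y (σ x)) := by
        intro x hx
        have hx1 : x ≠ j := Finset.ne_of_mem_erase hx
        have hx2 : x ≠ i := Finset.ne_of_mem_erase (Finset.mem_of_mem_erase hx)
        have h1 : σ x ≠ i := by
          intro h
          exact hx1 (σ.injective (h.trans hσj.symm))
        have h2 : σ x ≠ σ i := fun h => hx2 (σ.injective h)
        rw [hτ, Equiv.Perm.mul_apply, Equiv.swap_apply_of_ne_of_ne h1 h2]
      rw [← Finset.add_sum_erase _ (fun x => S (y x) (y (τ x))) hjs, Finset.sum_congr rfl hrest,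
        hτj] at hI
      rw [← Finset.add_sum_erase _ (fun x => S (y x) (y (σ x))) hjs, hσj]
      have h3 := up (y j) (y (σ i)) (y i) (hmax j (Finset.mem_of_mem_erase hjs))
        (hmax _ (hmem i hi))
      linarith

end perm

/-- closed paths -/
lemma closed_ge {S : ℝ → ℝ → ℝ} (up : ∀ a b m, a ≤ m → b ≤ m → S a b + S m m ≤ S a m + S m b)
    (n : ℕ) (x : ℕ → ℝ) :
    ∑ k ∈ range (n + 1), S (x k) (x k) ≤ cost S n x + S (x n) (x 0) := by
  have h := perm_ge up (fun k : Fin (n + 1) => x k) (n + 1) Finset.univ (by simp)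
    (finRotate (n + 1)) (fun x hx => absurd (Finset.mem_univ x) hx)
  rw [Finset.sum_range, cost, Finset.sum_range]
  refine h.trans (le_of_eq ?_)
  rw [Fin.sum_univ_castSucc]
  congr 1
  · refine Finset.sum_congr rfl fun k _ => ?_
    rw [finRotate_of_lt (by simp : ((Fin.castSucc k : Fin (n + 1)) : ℕ) < n)]
    rfl
  · rw [finRotate_last]
    rfl

/-- delete the point with index `u` -/
def del (u : ℕ) (x : ℕ → ℝ) (k : ℕ) : ℝ := if k < u then x k else x (k + 1)

/-- insert a point after the index `t` -/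
def ins (t : ℕ) (w : ℝ) (x : ℕ → ℝ) (k : ℕ) : ℝ :=
  if k ≤ t then x k else if k = t + 1 then w else x (k - 1)

lemma del_lt {u k : ℕ} (x : ℕ → ℝ) (h : k < u) : del u x k = x k := by simp [del, h]

lemma del_ge {u k : ℕ} (x : ℕ → ℝ) (h : u ≤ k) : del u x k = x (k + 1) := by
  simp [del, Nat.not_lt.2 h]

lemma ins_le {t k : ℕ} (w : ℝ) (x : ℕ → ℝ) (h : k ≤ t) : ins t w x k = x k := by simp [ins, h]

lemma ins_eq (t : ℕ) (w : ℝ) (x : ℕ → ℝ) : ins t w x (t + 1) = w := by simp [ins]

lemma ins_gt {t k : ℕ} (w : ℝ) (x : ℕ → ℝ) (h : t < k) : ins t w x (k + 1) = x k := by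
  unfold ins
  rw [if_neg (by omega), if_neg (by omega)]
  simp

lemma cost_succ (S : ℝ → ℝ → ℝ) (n : ℕ) (x : ℕ → ℝ) :
    cost S (n + 1) x = cost S n x + S (x n) (x (n + 1)) := Finset.sum_range_succ _ _

lemma cost_congr {S : ℝ → ℝ → ℝ} {n : ℕ} {x y : ℕ → ℝ} (h : ∀ k, k ≤ n → x k = y k) :
    cost S n x = cost S n y := by
  unfold cost
  refine Finset.sum_congr rfl fun k hk => ?_
  rw [Finset.mem_range] at hk
  rw [h k (by omega), h (k + 1) (by omega)]

lemma cost_del (S : ℝ → ℝ → ℝ) (u m : ℕ) (x : ℕ → ℝ) :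
    cost S (u + 1 + m) (del (u + 1) x) + S (x u) (x (u + 1)) + S (x (u + 1)) (x (u + 2))
      = cost S (u + 2 + m) x + S (x u) (x (u + 2)) := by
  induction m with
  | zero =>
    rw [Nat.add_zero, Nat.add_zero, cost_succ, cost_succ, cost_succ, del_lt x (by omega : u < u + 1),
      del_ge x le_rfl, cost_congr (y := x) (fun k hk => del_lt x (by omega))]
    ring
  | succ m ih =>
    rw [← Nat.add_assoc, ← Nat.add_assoc, cost_succ, cost_succ, del_ge x (by omega),
      del_ge x (by omega)]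
    have e1 : u + 1 + m + 1 = u + 2 + m := by omega
    rw [e1]
    linarith

lemma cost_ins (S : ℝ → ℝ → ℝ) (t m : ℕ) (w : ℝ) (x : ℕ → ℝ) :
    cost S (t + 2 + m) (ins t w x) + S (x t) (x (t + 1))
      = cost S (t + 1 + m) x + S (x t) w + S w (x (t + 1)) := by
  induction m with
  | zero =>
    rw [Nat.add_zero, Nat.add_zero, cost_succ, cost_succ, cost_succ, ins_le w x le_rfl, ins_eq,
      ins_gt w x (by omega), cost_congr (y := x) (fun k hk => ins_le w x hk)]
    ring
  | succ m ih =>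
    rw [← Nat.add_assoc, ← Nat.add_assoc, cost_succ, cost_succ, ins_gt w x (by omega : t < t + 2 + m)]
    have e1 : t + 2 + m = (t + 1 + m) + 1 := by omega
    rw [show ins t w x (t + 2 + m) = x (t + 1 + m) by rw [e1]; exact ins_gt w x (by omega)]
    rw [show x (t + 2 + m) = x (t + 1 + m + 1) by rw [e1]]
    linarith

lemma cost_ins_end (S : ℝ → ℝ → ℝ) (n : ℕ) (w : ℝ) (x : ℕ → ℝ) :
    cost S (n + 1) (ins n w x) = cost S n x + S (x n) w := by
  rw [cost_succ, ins_le w x le_rfl, ins_eq, cost_congr (y := x) (fun k hk => ins_le w x hk)]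

/-- remove an extremal point and duplicate the last one -/
lemma rm_dup_last {S : ℝ → ℝ → ℝ} {p δ : ℝ} {n : ℕ} {x : ℕ → ℝ} (h : NM S p δ n x)
    (hr : ∀ k, k ≤ n → |x k - p| ≤ 7 / 8) {u : ℕ} (hu : u + 1 < n)
    (hx : S (x u) (x (u + 2)) + S (x (u + 1)) (x (u + 1))
      ≤ S (x u) (x (u + 1)) + S (x (u + 1)) (x (u + 2))) :
    S (x (u + 1)) (x (u + 1)) ≤ S (x n) (x n) + δ := by
  obtain ⟨m, rfl⟩ : ∃ m, n = u + 2 + m := ⟨n - (u + 2), by omega⟩
  set x' := ins (u + 2 + m) (x (u + 2 + m)) x with hx'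
  have h1 : ∀ k, k ≤ u + 2 + m → x' k = x k := fun k hk => ins_le _ _ hk
  have h2 : x' (u + 2 + m + 1) = x (u + 2 + m) := ins_eq _ _ _
  have h3 := cost_del S u (m + 1) x'
  have h4 := cost_ins_end S (u + 2 + m) (x (u + 2 + m)) x
  rw [← hx'] at h4
  rw [show u + 1 + (m + 1) = u + 2 + m by omega, show u + 2 + (m + 1) = u + 2 + m + 1 by omega, h4,
    h1 u (by omega), h1 (u + 1) (by omega), h1 (u + 2) (by omega)] at h3
  have h5 := h (del (u + 1) x') (fun k hk => by
    by_cases hku : k < u + 1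
    · rw [del_lt _ hku, h1 k hk]; exact hr k hk
    · rw [del_ge _ (by omega)]
      by_cases hk2 : k + 1 ≤ u + 2 + m
      · rw [h1 _ hk2]; exact hr _ hk2
      · have : k = u + 2 + m := by omega
        rw [this, h2]; exact hr _ le_rfl) (by
    rw [del_lt _ (by omega), h1 0 (by omega)]) (by
    rw [del_ge _ (by omega), h2])
  linarith

/-- remove an extremal point and duplicate the first one -/
lemma rm_dup_first {S : ℝ → ℝ → ℝ} {p δ : ℝ} {n : ℕ} {x : ℕ → ℝ} (h : NM S p δ n x)
    (hr : ∀ k, k ≤ n → |x k - p| ≤ 7 / 8) {u : ℕ} (hu : u + 1 < n)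
    (hx : S (x u) (x (u + 2)) + S (x (u + 1)) (x (u + 1))
      ≤ S (x u) (x (u + 1)) + S (x (u + 1)) (x (u + 2))) :
    S (x (u + 1)) (x (u + 1)) ≤ S (x 0) (x 0) + δ := by
  obtain ⟨m, rfl⟩ : ∃ m, n = u + 2 + m := ⟨n - (u + 2), by omega⟩
  set x' : ℕ → ℝ := fun k => x (k - 1) with hx'
  have h1 : ∀ k, x' (k + 1) = x k := fun k => rfl
  have h0 : x' 0 = x 0 := rfl
  have h3 := cost_del S (u + 1) m x'
  have h4 : cost S (u + 2 + m + 1) x' = S (x 0) (x 0) + cost S (u + 2 + m) x := by
    unfold cost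
    rw [Finset.sum_range_succ']
    rw [add_comm]
    congr 1
  rw [show u + 1 + 1 + m = u + 2 + m by omega, show u + 1 + 2 + m = u + 2 + m + 1 by omega, h4,
    h1 u, show u + 1 + 1 = (u + 1) + 1 by rfl, h1 (u + 1), show u + 1 + 2 = (u + 2) + 1 by rfl,
    h1 (u + 2)] at h3
  have h5 := h (del (u + 1 + 1) x') (fun k hk => by
    by_cases hku : k < u + 1 + 1
    · rw [del_lt _ hku]; exact hr _ (by omega)
    · rw [del_ge _ (by omega), h1]; exact hr _ hk) (by
    rw [del_lt _ (by omega), h0]) (by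
    rw [del_ge _ (by omega), h1])
  linarith

section ker

variable {S : ℝ → ℝ → ℝ} {p β Φ e δ : ℝ}

lemma Ker.far_up (K : Ker S p β Φ e) {n : ℕ} {x : ℕ → ℝ} {k : ℕ} (hk0 : 0 < k) (hkn : k < n)
    (hmax : ∀ j, j ≤ n → x j ≤ x k) : ∃ u, k = u + 1 ∧ u + 1 < n ∧
    S (x u) (x (u + 2)) + S (x (u + 1)) (x (u + 1))
      ≤ S (x u) (x (u + 1)) + S (x (u + 1)) (x (u + 2)) := by
  obtain ⟨u, rfl⟩ : ∃ u, k = u + 1 := ⟨k - 1, by omega⟩
  exact ⟨u, rfl, hkn, K.up _ _ _ (hmax _ (by omega)) (hmax _ (by omega))⟩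

lemma Ker.far_dn (K : Ker S p β Φ e) {n : ℕ} {x : ℕ → ℝ} {k : ℕ} (hk0 : 0 < k) (hkn : k < n)
    (hmin : ∀ j, j ≤ n → x k ≤ x j) : ∃ u, k = u + 1 ∧ u + 1 < n ∧
    S (x u) (x (u + 2)) + S (x (u + 1)) (x (u + 1))
      ≤ S (x u) (x (u + 1)) + S (x (u + 1)) (x (u + 2)) := by
  obtain ⟨u, rfl⟩ : ∃ u, k = u + 1 := ⟨k - 1, by omega⟩
  exact ⟨u, rfl, hkn, K.dn _ _ _ (hmin _ (by omega)) (hmin _ (by omega))⟩

/-- A far maximum or minimum cannot be interior to a block with an `N` endpoint. -/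
lemma Ker.no_far_max (K : Ker S p β Φ e) (hδ : δ < β / 4) {n : ℕ} {x : ℕ → ℝ} (h : NM S p δ n x)
    (hr : ∀ k, k ≤ n → |x k - p| ≤ 7 / 8) (hN : Nwd S β e (x 0) ∨ Nwd S β e (x n)) {k : ℕ}
    (hk0 : 0 < k) (hkn : k < n) (hfar : 1 / 8 ≤ |x k - p|)
    (hext : (∀ j, j ≤ n → x j ≤ x k) ∨ (∀ j, j ≤ n → x k ≤ x j)) : False := by
  have hc := K.c1 _ hfar (hr k hkn.le)
  have : ∃ u, k = u + 1 ∧ u + 1 < n ∧ S (x u) (x (u + 2)) + S (x (u + 1)) (x (u + 1))
      ≤ S (x u) (x (u + 1)) + S (x (u + 1)) (x (u + 2)) := by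
    rcases hext with hext | hext
    · exact K.far_up hk0 hkn hext
    · exact K.far_dn hk0 hkn hext
  obtain ⟨u, rfl, hu, hS⟩ := this
  unfold Nwd at hN
  rcases hN with hN | hN
  · have := rm_dup_first h hr hu hS
    linarith
  · have := rm_dup_last h hr hu hS
    linarith

/-- points that are not far are close -/
lemma Ker.N_close (K : Ker S p β Φ e) {v : ℝ} (hv : |v - p| ≤ 7 / 8) (hN : Nwd S β e v) :
    |v - p| < 1 / 8 := by
  by_contra h
  push Not at h
  have := K.c1 v h hv
  have hβ := K.hβ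
  unfold Nwd at hN
  linarith

/-- (R1) every block of `R1` steps has an interior visit to `N` -/
theorem Ker.R1 (K : Ker S p β Φ e) {n : ℕ} (hδ : δ < 1 / 4) (hn : 5 ≤ ((n : ℝ) - 1) * (β / 2))
    {x : ℕ → ℝ} (h : NM S p δ n x) (hr : ∀ k, k ≤ n → |x k - p| ≤ 7 / 8) :
    ∃ k, 0 < k ∧ k < n ∧ Nv S β e (x k) := by
  by_contra hcon
  push Not at hcon
  obtain ⟨p0, hp0, hSp⟩ := K.mn
  have hβ := K.hβ
  have hn2 : 2 ≤ n := by
    by_contra hlt
    have : (n : ℝ) ≤ 1 := by exact_mod_cast (by omega : n ≤ 1)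
    nlinarith
  obtain ⟨m, rfl⟩ : ∃ m, n = m + 2 := ⟨n - 2, by omega⟩
  set η : ℕ → ℝ := fun k => if k = 0 then x 0 else if k = m + 2 then x (m + 2) else p0 with hη
  have hη0 : η 0 = x 0 := by simp [hη]
  have hηn : η (m + 2) = x (m + 2) := by simp [hη]
  have hηk : ∀ k, k ≠ 0 → k ≠ m + 2 → η k = p0 := by
    intro k h1 h2; simp [hη, h1, h2]
  have h1 := h η (fun k hk => by
    by_cases h0 : k = 0
    · rw [h0, hη0]; exact hr 0 (by omega)
    · by_cases h2 : k = m + 2
      · rw [h2, hηn]; exact hr _ le_rfl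
      · rw [hηk k h0 h2]; linarith) hη0 hηn
  have h2 : cost S (m + 2) η = S (x 0) p0 + m * e + S p0 (x (m + 2)) := by
    rw [show m + 2 = (m + 1) + 1 by rfl, cost_succ, show m + 1 + 1 = m + 2 by rfl, hηn,
      hηk (m + 1) (by omega) (by omega)]
    congr 1
    unfold cost
    rw [Finset.sum_range_succ', hη0, hηk (0 + 1) (by omega) (by omega), add_comm]
    congr 1
    rw [Finset.sum_congr rfl (g := fun _ => e), Finset.sum_const, Finset.card_range, nsmul_eq_mul]
    intro k hk
    rw [Finset.mem_range] at hk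
    rw [hηk _ (by omega) (by omega), hηk _ (by omega) (by omega), hSp]
  have h3 := closed_ge K.up (m + 2) x
  have h4 : ∑ k ∈ range (m + 2 + 1), S (x k) (x k) ≥ 2 * e + (m + 1) * (e + β / 2) := by
    rw [Finset.sum_range_succ, Finset.sum_range_succ']
    have h5 : ∑ k ∈ range (m + 1), S (x (k + 1)) (x (k + 1)) ≥ ∑ k ∈ range (m + 1), (e + β / 2) := by
      refine Finset.sum_le_sum fun k hk => ?_
      rw [Finset.mem_range] at hk
      have := hcon (k + 1) (by omega) (by omega)
      unfold Nv at this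
      exact (not_le.1 this).le
    rw [Finset.sum_const, Finset.card_range, nsmul_eq_mul] at h5
    have h6 := K.le (x 0)
    have h7 := K.le (x (m + 2))
    push_cast at h5
    linarith
  -- bounds of the three big steps
  have hx0 := abs_le.1 (hr 0 (by omega))
  have hxn := abs_le.1 (hr (m + 2) le_rfl)
  have hp0' := abs_lt.1 hp0
  have hbig : ∀ a b : ℝ, |b - a| ≤ 7 / 4 → S a b ≤ Φ + 49 / 32 + 1 / 2000 := by
    intro a b hab
    have h8 := abs_le.1 (K.c2 a b (by linarith))
    have h9 : (b - a) ^ 2 ≤ (7 / 4) ^ 2 := by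
      rw [← sq_abs]
      exact pow_le_pow_left₀ (abs_nonneg _) hab 2
    linarith [h8.2]
  have he : Φ ≤ e + 1 / 2000 := by
    have h8 := abs_le.1 (K.c2 p0 p0 (by norm_num))
    rw [hSp] at h8
    have := h8.1
    norm_num at this
    linarith
  have b1 := hbig (x (m + 2)) (x 0) (by rw [abs_le]; constructor <;> linarith)
  have b2 := hbig (x 0) p0 (by rw [abs_le]; constructor <;> linarith)
  have b3 := hbig p0 (x (m + 2)) (by rw [abs_le]; constructor <;> linarith)
  push_cast at hn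
  nlinarith

/-- near-minimality of a sequence on all blocks of length at most `R` -/
def NMs (S : ℝ → ℝ → ℝ) (p δ : ℝ) (R T : ℕ) (y : ℕ → ℝ) : Prop :=
  ∀ i n, n ≤ R → i + n ≤ T → NM S p δ n (fun k => y (i + k))

/-- (R1) for sequences -/
theorem Ker.visit (K : Ker S p β Φ e) {n R T : ℕ} (hδ : δ < 1 / 4)
    (hn : 5 ≤ ((n : ℝ) - 1) * (β / 2)) (hnR : n ≤ R) {y : ℕ → ℝ} (h : NMs S p δ R T y)
    (hr : ∀ k, k ≤ T → |y k - p| ≤ 7 / 8) {i : ℕ} (hi : i + n ≤ T) :
    ∃ k, i < k ∧ k < i + n ∧ Nv S β e (y k) := by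
  obtain ⟨k, h1, h2, h3⟩ := K.R1 hδ hn (h i n hnR hi) (fun k hk => hr _ (by omega))
  exact ⟨i + k, by omega, by omega, h3⟩

/-- (R2) no far point between two visits -/
theorem Ker.R2 (K : Ker S p β Φ e) {n R T : ℕ} (hδ : δ < 1 / 4) (hδ' : δ < β / 4)
    (hn : 5 ≤ ((n : ℝ) - 1) * (β / 2)) (hnR : n ≤ R) {y : ℕ → ℝ} (h : NMs S p δ R T y)
    (hr : ∀ k, k ≤ T → |y k - p| ≤ 7 / 8) {s t k : ℕ} (hsk : s ≤ k) (hkt : k ≤ t) (htT : t ≤ T)
    (hs : Nwd S β e (y s)) (ht : Nwd S β e (y t)) : |y k - p| < 1 / 8 := by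
  classical
  by_contra hfar
  push Not at hfar
  have hkN : ¬ Nwd S β e (y k) := fun hN => by
    have := K.N_close (hr k (by omega)) hN
    linarith
  -- last visit before `k`
  have hex1 : ∃ a, Nwd S β e (y (k - a)) := ⟨k - s, by rw [show k - (k - s) = s by omega]; exact hs⟩
  set a := Nat.find hex1 with ha
  have ha1 : Nwd S β e (y (k - a)) := Nat.find_spec hex1
  have ha2 : ∀ b, b < a → ¬ Nwd S β e (y (k - b)) := fun b hb => Nat.find_min hex1 hb
  have ha3 : a ≤ k - s := Nat.find_min' hex1 (by rw [show k - (k - s) = s by omega]; exact hs)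
  have hex2 : ∃ b, Nwd S β e (y (k + b)) := ⟨t - k, by rw [show k + (t - k) = t by omega]; exact ht⟩
  set b := Nat.find hex2 with hb
  have hb1 : Nwd S β e (y (k + b)) := Nat.find_spec hex2
  have hb2 : ∀ c, c < b → ¬ Nwd S β e (y (k + c)) := fun c hc => Nat.find_min hex2 hc
  have hb3 : b ≤ t - k := Nat.find_min' hex2 (by rw [show k + (t - k) = t by omega]; exact ht)
  have ha0 : 0 < a := by
    rcases Nat.eq_zero_or_pos a with h0 | h0
    · rw [h0] at ha1; exact absurd ha1 hkN
    · exact h0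
  have hb0 : 0 < b := by
    rcases Nat.eq_zero_or_pos b with h0 | h0
    · rw [h0] at hb1; exact absurd hb1 hkN
    · exact h0
  -- the distance is at most `n`
  have hdist : a + b ≤ n := by
    by_contra hgt
    push Not at hgt
    obtain ⟨c, h1, h2, h3⟩ := K.visit hδ hn hnR h hr (i := k - a) (by omega)
    rcases le_or_gt c k with h4 | h4
    · have := ha2 (k - c) (by omega)
      rw [show k - (k - c) = c by omega] at this
      exact this (h3.wide K.hβ)
    · have := hb2 (c - k) (by omega)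
      rw [show k + (c - k) = c by omega] at this
      exact this (h3.wide K.hβ)
  have hblock := h (k - a) (a + b) (by omega) (by omega)
  set x : ℕ → ℝ := fun j => y (k - a + j) with hx
  have hrx : ∀ j, j ≤ a + b → |x j - p| ≤ 7 / 8 := fun j hj => hr _ (by omega)
  have hx0 : Nwd S β e (x 0) := ha1
  have hxn : Nwd S β e (x (a + b)) := by
    rw [hx]
    simp only
    rw [show k - a + (a + b) = k + b by omega]
    exact hb1
  have hxk : x a = y k := by
    rw [hx]
    simp only
    rw [show k - a + a = k by omega]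
  have hc0 := abs_lt.1 (K.N_close (hrx 0 (by omega)) hx0)
  have hcn := abs_lt.1 (K.N_close (hrx (a + b) le_rfl) hxn)
  rcases le_abs.1 hfar with hf | hf
  · obtain ⟨m, hm, hmax⟩ := (Finset.range (a + b + 1)).exists_max_image x ⟨0, by simp⟩
    rw [Finset.mem_range] at hm
    have h1 : x a ≤ x m := hmax a (by rw [Finset.mem_range]; omega)
    rw [hxk] at h1
    have hm0 : m ≠ 0 := by rintro rfl; linarith
    have hmn : m ≠ a + b := by rintro rfl; linarith
    exact K.no_far_max hδ' hblock hrx (Or.inl hx0) (by omega : 0 < m) (by omega)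
      (le_abs.2 (Or.inl (by linarith)))
      (Or.inl fun j hj => hmax j (by rw [Finset.mem_range]; omega))
  · obtain ⟨m, hm, hmin⟩ := (Finset.range (a + b + 1)).exists_min_image x ⟨0, by simp⟩
    rw [Finset.mem_range] at hm
    have h1 : x m ≤ x a := hmin a (by rw [Finset.mem_range]; omega)
    rw [hxk] at h1
    have hm0 : m ≠ 0 := by rintro rfl; linarith
    have hmn : m ≠ a + b := by rintro rfl; linarith
    exact K.no_far_max hδ' hblock hrx (Or.inl hx0) (by omega : 0 < m) (by omega)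
      (le_abs.2 (Or.inr (by linarith)))
      (Or.inr fun j hj => hmin j (by rw [Finset.mem_range]; omega))

/-- (R3), block version: before a visit far points lie on the side of the starting point and are not beyond it -/
lemma Ker.R3_first (K : Ker S p β Φ e) (hδ' : δ < β / 4) {n : ℕ} {x : ℕ → ℝ} (h : NM S p δ n x)
    (hr : ∀ k, k ≤ n → |x k - p| ≤ 7 / 8) (hN : Nwd S β e (x n)) {k : ℕ} (hk : k ≤ n) :
    (p + 1 / 8 ≤ x k → x k ≤ x 0) ∧ (x k ≤ p - 1 / 8 → x 0 ≤ x k) := by
  have hcn := abs_lt.1 (K.N_close (hr n le_rfl) hN)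
  constructor
  · intro hf
    by_contra hlt
    push Not at hlt
    obtain ⟨m, hm, hmax⟩ := (Finset.range (n + 1)).exists_max_image x ⟨0, by simp⟩
    rw [Finset.mem_range] at hm
    have h1 : x k ≤ x m := hmax k (by rw [Finset.mem_range]; omega)
    have hm0 : m ≠ 0 := by rintro rfl; linarith
    have hmn : m ≠ n := by rintro rfl; linarith
    exact K.no_far_max hδ' h hr (Or.inr hN) (by omega : 0 < m) (by omega)
      (le_abs.2 (Or.inl (by linarith)))
      (Or.inl fun j hj => hmax j (by rw [Finset.mem_range]; omega))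
  · intro hf
    by_contra hlt
    push Not at hlt
    obtain ⟨m, hm, hmin⟩ := (Finset.range (n + 1)).exists_min_image x ⟨0, by simp⟩
    rw [Finset.mem_range] at hm
    have h1 : x m ≤ x k := hmin k (by rw [Finset.mem_range]; omega)
    have hm0 : m ≠ 0 := by rintro rfl; linarith
    have hmn : m ≠ n := by rintro rfl; linarith
    exact K.no_far_max hδ' h hr (Or.inr hN) (by omega : 0 < m) (by omega)
      (le_abs.2 (Or.inr (by linarith)))
      (Or.inr fun j hj => hmin j (by rw [Finset.mem_range]; omega))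

/-- (R3), mirror block version -/
lemma Ker.R3_last (K : Ker S p β Φ e) (hδ' : δ < β / 4) {n : ℕ} {x : ℕ → ℝ} (h : NM S p δ n x)
    (hr : ∀ k, k ≤ n → |x k - p| ≤ 7 / 8) (hN : Nwd S β e (x 0)) {k : ℕ} (hk : k ≤ n) :
    (p + 1 / 8 ≤ x k → x k ≤ x n) ∧ (x k ≤ p - 1 / 8 → x n ≤ x k) := by
  have hcn := abs_lt.1 (K.N_close (hr 0 (by omega)) hN)
  constructor
  · intro hf
    by_contra hlt
    push Not at hlt
    obtain ⟨m, hm, hmax⟩ := (Finset.range (n + 1)).exists_max_image x ⟨0, by simp⟩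
    rw [Finset.mem_range] at hm
    have h1 : x k ≤ x m := hmax k (by rw [Finset.mem_range]; omega)
    have hm0 : m ≠ 0 := by rintro rfl; linarith
    have hmn : m ≠ n := by rintro rfl; linarith
    exact K.no_far_max hδ' h hr (Or.inl hN) (by omega : 0 < m) (by omega)
      (le_abs.2 (Or.inl (by linarith)))
      (Or.inl fun j hj => hmax j (by rw [Finset.mem_range]; omega))
  · intro hf
    by_contra hlt
    push Not at hlt
    obtain ⟨m, hm, hmin⟩ := (Finset.range (n + 1)).exists_min_image x ⟨0, by simp⟩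
    rw [Finset.mem_range] at hm
    have h1 : x m ≤ x k := hmin k (by rw [Finset.mem_range]; omega)
    have hm0 : m ≠ 0 := by rintro rfl; linarith
    have hmn : m ≠ n := by rintro rfl; linarith
    exact K.no_far_max hδ' h hr (Or.inl hN) (by omega : 0 < m) (by omega)
      (le_abs.2 (Or.inr (by linarith)))
      (Or.inr fun j hj => hmin j (by rw [Finset.mem_range]; omega))

/-- (R1)-(R3) combined: a near-minimal sequence of length at least `n` has a first visit `t₁ < n` and a last
visit `t₂ > T - n`; before `t₁` far points are on the side of `y 0` and not beyond it, after `t₂` the same with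
`y T`, and there is no far point between `t₁` and `t₂`. -/
theorem Ker.R3 (K : Ker S p β Φ e) {n R T : ℕ} (hδ : δ < 1 / 4) (hδ' : δ < β / 4)
    (hn : 5 ≤ ((n : ℝ) - 1) * (β / 2)) (hnR : n ≤ R) {y : ℕ → ℝ} (h : NMs S p δ R T y)
    (hr : ∀ k, k ≤ T → |y k - p| ≤ 7 / 8) (hT : n ≤ T) :
    ∃ t₁ t₂, t₁ < n ∧ t₁ ≤ t₂ ∧ t₂ ≤ T ∧ T < t₂ + n ∧ Nv S β e (y t₁) ∧ Nv S β e (y t₂) ∧
      (∀ k, k ≤ t₁ → (p + 1 / 8 ≤ y k → y k ≤ y 0) ∧ (y k ≤ p - 1 / 8 → y 0 ≤ y k)) ∧
      (∀ k, t₁ ≤ k → k ≤ t₂ → |y k - p| < 1 / 8) ∧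
      (∀ k, t₂ ≤ k → k ≤ T → (p + 1 / 8 ≤ y k → y k ≤ y T) ∧ (y k ≤ p - 1 / 8 → y T ≤ y k)) := by
  classical
  obtain ⟨k1, h11, h12, h13⟩ := K.visit hδ hn hnR h hr (i := 0) (by omega)
  obtain ⟨k2, h21, h22, h23⟩ := K.visit hδ hn hnR h hr (i := T - n) (by omega)
  have hex1 : ∃ a, Nv S β e (y a) := ⟨k1, h13⟩
  set t₁ := Nat.find hex1 with ht1
  have ha1 : Nv S β e (y t₁) := Nat.find_spec hex1
  have ha2 : t₁ ≤ k1 := Nat.find_min' hex1 h13
  have ha3 : t₁ ≤ k2 := Nat.find_min' hex1 h23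
  have hex2 : ∃ a, Nv S β e (y (T - a)) := ⟨T - k2, by rw [show T - (T - k2) = k2 by omega]; exact h23⟩
  set a := Nat.find hex2 with hta
  have hb1 : Nv S β e (y (T - a)) := Nat.find_spec hex2
  have hb2 : a ≤ T - k2 := Nat.find_min' hex2 (by rw [show T - (T - k2) = k2 by omega]; exact h23)
  refine ⟨t₁, T - a, by omega, by omega, by omega, by omega, ha1, hb1, ?_, ?_, ?_⟩
  · intro k hk
    have hbl := h 0 t₁ (by omega) (by omega)
    have := K.R3_first hδ' hbl (fun j hj => hr _ (by omega)) (by simpa using ha1.wide K.hβ) hk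
    simpa using this
  · intro k hk1 hk2
    exact K.R2 hδ hδ' hn hnR h hr hk1 hk2 (by omega) (ha1.wide K.hβ) (hb1.wide K.hβ)
  · intro k hk1 hk2
    have hbl := h (T - a) a (by omega) (by omega)
    have := K.R3_last hδ' hbl (fun j hj => hr _ (by omega)) (by simpa using hb1.wide K.hβ)
      (k := k - (T - a)) (by omega)
    rw [show T - a + (k - (T - a)) = k by omega, show T - a + a = T by omega] at this
    exact this

/-- a long sequence in the room has a point where it does not advance much -/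
lemma exists_slow {x : ℕ → ℝ} {a : ℕ} (hr : ∀ k, k ≤ a + 400 → |x k - p| ≤ 7 / 8) :
    ∃ k, a ≤ k ∧ k < a + 399 ∧ (x (k + 1) - x k) * (x (k + 2) - x (k + 1)) ≤ 1 / 128 := by
  by_contra hcon
  push Not at hcon
  have hle : ∀ k, k < a + 400 → |x (k + 1) - x k| ≤ 7 / 4 := by
    intro k hk
    have h1 := abs_le.1 (hr k (by omega))
    have h2 := abs_le.1 (hr (k + 1) (by omega))
    rw [abs_le]
    constructor <;> linarith
  have hspan : |x (a + 400) - x a| ≤ 7 / 4 := by
    have h1 := abs_le.1 (hr a (by omega))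
    have h2 := abs_le.1 (hr (a + 400) le_rfl)
    rw [abs_le]
    constructor <;> linarith
  have key : ∀ z : ℕ → ℝ, (∀ k, k < a + 400 → |z (k + 1) - z k| ≤ 7 / 4) →
      |z (a + 400) - z a| ≤ 7 / 4 →
      (∀ k, a ≤ k → k < a + 399 → 1 / 128 < (z (k + 1) - z k) * (z (k + 2) - z (k + 1))) →
      0 < z (a + 1) - z a → False := by
    intro z hz1 hz2 hz3 hz0
    have h1 : ∀ j, j < 400 → 1 / 224 < z (a + j + 1) - z (a + j) := by
      intro j
      induction j with
      | zero =>
        intro _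
        simp only [Nat.add_zero]
        have h2 := hz3 a le_rfl (by omega)
        have h3 := (abs_le.1 (hz1 (a + 1) (by omega))).2
        have h4 : z (a + 2) = z (a + 1 + 1) := rfl
        rw [h4] at h2
        by_contra hlt
        push Not at hlt
        have h5 : 0 < z (a + 1 + 1) - z (a + 1) := by
          by_contra h6
          push Not at h6
          nlinarith
        have h7 := mul_le_mul hlt h3 h5.le (by norm_num)
        linarith
      | succ j ih =>
        intro hj
        have h2 := ih (by omega)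
        have h3 := hz3 (a + j) (by omega) (by omega)
        have h4 := (abs_le.1 (hz1 (a + j) (by omega))).2
        rw [show a + (j + 1) + 1 = a + j + 2 by omega, show a + (j + 1) = a + j + 1 by omega]
        by_contra hlt
        push Not at hlt
        nlinarith
    have h2 : ∀ j : ℕ, j ≤ 400 → (j : ℝ) / 224 ≤ z (a + j) - z a := by
      intro j
      induction j with
      | zero => intro _; simp
      | succ j ih =>
        intro hj
        have h3 := ih (by omega)
        have h4 := h1 j (by omega)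
        rw [show a + (j + 1) = a + j + 1 by omega]
        push_cast
        linarith
    have h3 := h2 400 le_rfl
    have h4 := (abs_le.1 hz2).2
    norm_num at h3
    linarith
  rcases lt_trichotomy (x (a + 1) - x a) 0 with h0 | h0 | h0
  · refine key (fun k => - x k) (fun k hk => ?_) ?_ (fun k hk1 hk2 => ?_) (by linarith)
    · have := hle k hk
      rw [← abs_neg] at this
      convert this using 2
      ring
    · rw [← abs_neg] at hspan
      convert hspan using 2
      ring
    · have := hcon k hk1 hk2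
      linarith [(by ring : (-x (k + 1) - -x k) * (-x (k + 2) - -x (k + 1))
        = (x (k + 1) - x k) * (x (k + 2) - x (k + 1)))]
  · have := hcon a le_rfl (by omega)
    rw [h0, zero_mul] at this
    linarith
  · exact key x hle hspan hcon h0

/-- the gain of inserting a midpoint and deleting a slow point -/
lemma Ker.gain (K : Ker S p β Φ e) {a b u v w : ℝ} (hab : |b - a| ≤ 7 / 4) (hbig : 1 / 4 ≤ |b - a|)
    (hu : |v - u| ≤ 7 / 4) (hv : |w - v| ≤ 7 / 4) (huw : |w - u| ≤ 7 / 4)
    (hslow : (v - u) * (w - v) ≤ 1 / 128) :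
    S a ((a + b) / 2) + S ((a + b) / 2) b + S u w + 1 / 2000
      < S a b + S u v + S v w := by
  have h1 := (abs_le.1 (K.c2 a b (by linarith))).1
  have h2 := (abs_le.1 (K.c2 u v (by linarith))).1
  have h3 := (abs_le.1 (K.c2 v w (by linarith))).1
  have h4 := (abs_le.1 (K.c2 u w (by linarith))).2
  have hm1 : |(a + b) / 2 - a| ≤ 2 := by
    have : (a + b) / 2 - a = (b - a) / 2 := by ring
    rw [this, abs_div, abs_of_pos (by norm_num : (0:ℝ) < 2)]
    linarith
  have hm2 : |b - (a + b) / 2| ≤ 2 := by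
    have : b - (a + b) / 2 = (b - a) / 2 := by ring
    rw [this, abs_div, abs_of_pos (by norm_num : (0:ℝ) < 2)]
    linarith
  have h5 := (abs_le.1 (K.c2 _ _ hm1)).2
  have h6 := (abs_le.1 (K.c2 _ _ hm2)).2
  have h7 : (1 / 4 : ℝ) ^ 2 ≤ (b - a) ^ 2 := by
    rw [← sq_abs (b - a)]
    exact pow_le_pow_left₀ (by norm_num) hbig 2
  nlinarith

/-- (R4) all steps are short -/
theorem Ker.R4 (K : Ker S p β Φ e) {R T : ℕ} (hδ : δ ≤ 1 / 2000) (hR : 402 ≤ R) (hT : 804 ≤ T)
    {y : ℕ → ℝ} (h : NMs S p δ R T y) (hr : ∀ k, k ≤ T → |y k - p| ≤ 7 / 8) {t : ℕ} (ht : t < T) :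
    |y (t + 1) - y t| < 1 / 4 := by
  by_contra hbig
  push Not at hbig
  have hdiff : ∀ i j, i ≤ T → j ≤ T → |y i - y j| ≤ 7 / 4 := by
    intro i j hi hj
    have h1 := abs_le.1 (hr i hi)
    have h2 := abs_le.1 (hr j hj)
    rw [abs_le]
    constructor <;> linarith
  have hmid : |(y t + y (t + 1)) / 2 - p| ≤ 7 / 8 := by
    have h1 := abs_le.1 (hr t (by omega))
    have h2 := abs_le.1 (hr (t + 1) (by omega))
    rw [abs_le]
    constructor <;> linarith
  rcases le_or_gt (t + 401) T with hc | hc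
  · -- block after `t`
    obtain ⟨k, hk1, hk2, hk3⟩ := exists_slow (p := p) (x := fun j => y (t + j)) (a := 1)
      (fun j hj => hr _ (by omega))
    set x : ℕ → ℝ := fun j => y (t + j) with hx
    have hbl := h t 401 (by omega) hc
    set w := (y t + y (t + 1)) / 2 with hw
    set x' := ins 0 w x with hx'
    have e0 : x' 0 = x 0 := ins_le w x le_rfl
    have e1 : x' 1 = w := ins_eq 0 w x
    have e2 : ∀ j, 0 < j → x' (j + 1) = x j := fun j hj => ins_gt w x hj
    have h1 := cost_ins S 0 400 w x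
    rw [← hx'] at h1
    obtain ⟨m, hm⟩ : ∃ m, 401 = k + 1 + 1 + m := ⟨399 - k, by omega⟩
    have h2 := cost_del S (k + 1) m x'
    rw [← hm, show k + 1 + 2 + m = 402 by omega, e2 k (by omega), show k + 1 + 1 = (k + 1) + 1 by rfl,
      e2 (k + 1) (by omega), show k + 1 + 2 = (k + 2) + 1 by rfl, e2 (k + 2) (by omega)] at h2
    have h3 := hbl (del (k + 1 + 1) x') (fun j hj => by
      by_cases hjk : j < k + 1 + 1
      · rw [del_lt _ hjk]
        rcases Nat.eq_zero_or_pos j with h0 | h0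
        · rw [h0, e0]; exact hr _ (by omega)
        · rcases Nat.eq_or_lt_of_le h0 with h5 | h5
          · rw [← h5, e1]; exact hmid
          · obtain ⟨j', rfl⟩ : ∃ j', j = j' + 1 := ⟨j - 1, by omega⟩
            rw [e2 j' (by omega)]; exact hr _ (by omega)
      · rw [del_ge _ (by omega), e2 j (by omega)]; exact hr _ (by omega)) (by
      rw [del_lt _ (by omega), e0]) (by
      rw [del_ge _ (by omega), e2 _ (by omega)])
    have hx0 : x 0 = y t := rfl
    have hx1 : x (0 + 1) = y (t + 1) := rfl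
    rw [hx0, hx1, show 0 + 2 + 400 = 402 by rfl, show 0 + 1 + 400 = 401 by rfl] at h1
    have h4 := K.gain (a := y t) (b := y (t + 1)) (u := x k) (v := x (k + 1)) (w := x (k + 2))
      (hdiff _ _ (by omega) (by omega)) hbig (hdiff _ _ (by omega) (by omega))
      (hdiff _ _ (by omega) (by omega)) (hdiff _ _ (by omega) (by omega)) hk3
    rw [← hw] at h4
    linarith
  · -- block before `t + 1`
    obtain ⟨k, hk1, hk2, hk3⟩ := exists_slow (p := p) (x := fun j => y (t - 400 + j)) (a := 0)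
      (fun j hj => hr _ (by omega))
    set x : ℕ → ℝ := fun j => y (t - 400 + j) with hx
    have hbl := h (t - 400) 401 (by omega) (by omega)
    set w := (y t + y (t + 1)) / 2 with hw
    set x' := ins 400 w x with hx'
    have e0 : ∀ j, j ≤ 400 → x' j = x j := fun j hj => ins_le w x hj
    have e1 : x' 401 = w := ins_eq 400 w x
    have e2 : x' 402 = x 401 := ins_gt w x (by norm_num : 400 < 401)
    have h1 := cost_ins S 400 0 w x
    rw [← hx'] at h1
    obtain ⟨m, hm⟩ : ∃ m, 401 = k + 1 + m := ⟨400 - k, by omega⟩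
    have h2 := cost_del S k m x'
    rw [← hm, show k + 2 + m = 402 by omega, e0 k (by omega), e0 (k + 1) (by omega),
      e0 (k + 2) (by omega)] at h2
    have h3 := hbl (del (k + 1) x') (fun j hj => by
      by_cases hjk : j < k + 1
      · rw [del_lt _ hjk, e0 j (by omega)]; exact hr _ (by omega)
      · rw [del_ge _ (by omega)]
        rcases lt_trichotomy j 400 with h5 | h5 | h5
        · rw [e0 _ (by omega)]; exact hr _ (by omega)
        · rw [h5, e1]; exact hmid
        · have : j = 401 := by omega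
          rw [this, e2]; exact hr _ (by omega)) (by
      rw [del_lt _ (by omega), e0 _ (by omega)]) (by
      rw [del_ge _ (by omega), e2])
    have hx0 : x 400 = y t := by
      rw [hx]
      simp only
      rw [show t - 400 + 400 = t by omega]
    have hx1 : x 401 = y (t + 1) := by
      rw [hx]
      simp only
      rw [show t - 400 + 401 = t + 1 by omega]
    rw [show 400 + 2 + 0 = 402 by rfl, show 400 + 1 + 0 = 401 by rfl, hx0,
      show x (400 + 1) = x 401 by rfl, hx1] at h1
    have h4 := K.gain (a := y t) (b := y (t + 1)) (u := x k) (v := x (k + 1)) (w := x (k + 2))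
      (hdiff _ _ (by omega) (by omega)) hbig (hdiff _ _ (by omega) (by omega))
      (hdiff _ _ (by omega) (by omega)) (hdiff _ _ (by omega) (by omega)) hk3
    rw [← hw] at h4
    linarith

end ker

end EscR
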