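import Pool.Agent.helper33.Esc.Defs
import Pool.Agent.helper1.Esc.Surg

/-!
Module R of the escape theorem: one-dimensional surgery.
-/

noncomputable section

namespace Esc

open MeasureTheory Set Filter Topology

/-- assumptions on the averaged kernel -/
structure SData (S : ℝ → ℝ → ℝ) (p β Φ e0 ε : ℝ) : Prop where
  cross : ∀ a b a' b', a ≤ b → a' ≤ b' → S a a' + S b b' ≤ S a b' + S b a'
  c2 : ∀ η η', |η' - η| ≤ 2 → |S η η' - Φ - (η' - η) ^ 2 / 2| ≤ 1 / 2000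
  e0_le : ∀ v, e0 ≤ S v v
  p0 : ∃ v, |v - p| < 1 / 8 ∧ S v v = e0
  c1 : ∀ v, 1 / 8 ≤ |v - p| → |v - p| ≤ 7 / 8 → e0 + β ≤ S v v
  β_pos : 0 < β
  β_le : β ≤ 1 / 1000
  ε_nonneg : 0 ≤ ε
  ε_le : ε ≤ β ^ 2 / 200

/-- near-minimality in blocks, inside the room -/
structure NM (S : ℝ → ℝ → ℝ) (p ε : ℝ) (T : ℕ) (y : ℕ → ℝ) : Prop where
  room : ∀ k ≤ T, |y k - p| ≤ 7 / 8
  nm : ∀ i j, i < j → j ≤ T → ∀ η : ℕ → ℝ, η i = y i → η j = y j → (∀ k, i ≤ k → k ≤ j → |η k - p| ≤ 7 / 8) →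
    ∑ k ∈ Finset.Ico i j, S (y k) (y (k + 1)) ≤
      ∑ k ∈ Finset.Ico i j, S (η k) (η (k + 1)) + 2 * ((j : ℝ) - i) * ε

/-- near set -/
def Nr (S : ℝ → ℝ → ℝ) (p β e0 : ℝ) (v : ℝ) : Prop := |v - p| ≤ 7 / 8 ∧ S v v ≤ e0 + β / 2

/-- wide near set -/
def Nw (S : ℝ → ℝ → ℝ) (p β e0 : ℝ) (v : ℝ) : Prop := |v - p| ≤ 7 / 8 ∧ S v v ≤ e0 + 3 * β / 4

variable {S : ℝ → ℝ → ℝ} {p β Φ e0 ε : ℝ} {T : ℕ} {y : ℕ → ℝ}

lemma Nr.wide (hS : SData S p β Φ e0 ε) {v : ℝ} (h : Nr S p β e0 v) : Nw S p β e0 v :=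
  ⟨h.1, by linarith [h.2, hS.β_pos]⟩

lemma SData.ker (h : SData S p β Φ e0 ε) : EscR.Ker S p β Φ e0 where
  hβ := h.β_pos
  up := fun a b m ha hb => by
    have := h.cross a m b m ha hb
    linarith
  dn := fun a b m ha hb => by
    have := h.cross m a m b ha hb
    linarith
  c2 := h.c2
  le := h.e0_le
  mn := h.p0
  c1 := h.c1

lemma SData.R1_ge (h : SData S p β Φ e0 ε) : 5 ≤ ((Lat.R1 β : ℝ) - 1) * (β / 2) := by
  unfold Lat.R1
  have hβ := h.β_pos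
  have h1 : 10 / β ≤ ⌈10 / β⌉₊ := Nat.le_ceil _
  have h2 : 10 / β * β = 10 := div_mul_cancel₀ _ hβ.ne'
  push_cast
  nlinarith

lemma SData.R1_le (h : SData S p β Φ e0 ε) : (Lat.R1 β : ℝ) * β ≤ 11 := by
  unfold Lat.R1
  have hβ := h.β_pos
  have h1 : (⌈10 / β⌉₊ : ℝ) < 10 / β + 1 := Nat.ceil_lt_add_one (by positivity)
  have h2 : 10 / β * β = 10 := div_mul_cancel₀ _ hβ.ne'
  have h3 := h.β_le
  push_cast
  nlinarith

/-- the error allowed on a block of length at most `R` -/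
lemma SData.err (h : SData S p β Φ e0 ε) : 2 * (Lat.R1 β : ℝ) * ε < 1 / 4 ∧
    2 * (Lat.R1 β : ℝ) * ε < β / 4 := by
  have h1 := h.R1_le
  have h2 := h.ε_le
  have h3 := h.ε_nonneg
  have h4 := h.β_pos
  have h5 := h.β_le
  have h6 : (0 : ℝ) ≤ Lat.R1 β := Nat.cast_nonneg _
  have h7 : 2 * (Lat.R1 β : ℝ) * ε ≤ 2 * (Lat.R1 β : ℝ) * (β ^ 2 / 200) :=
    mul_le_mul_of_nonneg_left h2 (by positivity)
  have h8 : 2 * (Lat.R1 β : ℝ) * (β ^ 2 / 200) = (Lat.R1 β : ℝ) * β * (β / 100) := by ring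
  have h9 : (Lat.R1 β : ℝ) * β * (β / 100) ≤ 11 * (β / 100) :=
    mul_le_mul_of_nonneg_right h1 (by positivity)
  constructor <;> linarith

lemma NM.blocks (hS : SData S p β Φ e0 ε) (hy : NM S p ε T y) (R : ℕ) :
    EscR.NMs S p (2 * (R : ℝ) * ε) R T y := by
  intro i n hn hiT η hroom h0 hn'
  rcases Nat.eq_zero_or_pos n with hz | hz
  · subst hz
    simp only [EscR.cost, Finset.range_zero, Finset.sum_empty, zero_add]
    have := hS.ε_nonneg
    positivity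
  have h1 := hy.nm i (i + n) (by omega) hiT (fun k => η (k - i)) (by simpa using h0)
    (by simpa using hn') (fun k hk1 hk2 => hroom _ (by omega))
  have e1 : ∑ k ∈ Finset.Ico i (i + n), S (y k) (y (k + 1)) = EscR.cost S n (fun k => y (i + k)) := by
    rw [Finset.sum_Ico_eq_sum_range, Nat.add_sub_cancel_left]
    rfl
  have e2 : ∑ k ∈ Finset.Ico i (i + n), S (η (k - i)) (η (k + 1 - i)) = EscR.cost S n η := by
    rw [Finset.sum_Ico_eq_sum_range, Nat.add_sub_cancel_left]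
    unfold EscR.cost
    refine Finset.sum_congr rfl fun k _ => ?_
    rw [Nat.add_sub_cancel_left, show i + k + 1 - i = k + 1 by omega]
  rw [e1, e2] at h1
  refine h1.trans ?_
  have h2 : ((i + n : ℕ) : ℝ) - i = n := by push_cast; ring
  rw [h2]
  have h3 : (n : ℝ) ≤ R := by exact_mod_cast hn
  have h4 := hS.ε_nonneg
  have : 2 * (n : ℝ) * ε ≤ 2 * (R : ℝ) * ε := by gcongr
  linarith

theorem surg1 (hS : SData S p β Φ e0 ε) (hy : NM S p ε T y) {i : ℕ} (hi : i + Lat.R1 β ≤ T) :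
    ∃ k, i < k ∧ k < i + Lat.R1 β ∧ Nr S p β e0 (y k) := by
  obtain ⟨k, h1, h2, h3⟩ := hS.ker.visit hS.err.1 hS.R1_ge le_rfl (hy.blocks hS (Lat.R1 β))
    (fun k hk => hy.room k hk) hi
  exact ⟨k, h1, h2, hy.room k (by omega), h3⟩

theorem surg2 (hS : SData S p β Φ e0 ε) (hy : NM S p ε T y) {i j : ℕ} (_hij : i ≤ j) (hj : j ≤ T)
    (hi : Nw S p β e0 (y i)) (hj' : Nw S p β e0 (y j)) {k : ℕ} (hk : i ≤ k) (hk' : k ≤ j) :
    |y k - p| < 1 / 8 :=
  hS.ker.R2 hS.err.1 hS.err.2 hS.R1_ge le_rfl (hy.blocks hS (Lat.R1 β))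
    (fun k hk => hy.room k hk) hk hk' hj hi.2 hj'.2

theorem surg3 (hS : SData S p β Φ e0 ε) (hy : NM S p ε T y) (h0 : y 0 ≤ p - 1 / 8) {t : ℕ} (ht : t ≤ T)
    (ht' : t ≤ Lat.R1 β) (hN : Nw S p β e0 (y t)) {k : ℕ} (hk : k ≤ t) :
    y 0 ≤ y k ∧ y k < p + 1 / 8 := by
  have hbl := hy.blocks hS (Lat.R1 β) 0 t ht' (by omega)
  have h := hS.ker.R3_first hS.err.2 hbl (fun j hj => hy.room _ (by omega))
    (by
      unfold EscR.Nwd
      rw [Nat.zero_add]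
      exact hN.2) hk
  simp only [zero_add] at h
  constructor
  · rcases le_or_gt (y k) (p - 1 / 8) with h1 | h1
    · exact h.2 h1
    · linarith
  · by_contra h1
    push Not at h1
    have := h.1 h1
    linarith

theorem surg3' (hS : SData S p β Φ e0 ε) (hy : NM S p ε T y) (h0 : p + 1 / 8 ≤ y T) {t : ℕ} (ht : t ≤ T)
    (ht' : T ≤ t + Lat.R1 β) (hN : Nw S p β e0 (y t)) {k : ℕ} (hk : t ≤ k) (hk' : k ≤ T) :
    p - 1 / 8 < y k ∧ y k ≤ y T := by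
  have hbl := hy.blocks hS (Lat.R1 β) t (T - t) (by omega) (by omega)
  have h := hS.ker.R3_last hS.err.2 hbl (fun j hj => hy.room _ (by omega))
    (by
      unfold EscR.Nwd
      rw [Nat.add_zero]
      exact hN.2) (k := k - t) (by omega)
  rw [show t + (k - t) = k by omega, show t + (T - t) = T by omega] at h
  constructor
  · by_contra h1
    push Not at h1
    have := h.2 h1
    linarith
  · rcases le_or_gt (p + 1 / 8) (y k) with h1 | h1
    · exact h.1 h1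
    · linarith

/-- conclusion for transitions -/
theorem surg_room (hS : SData S p β Φ e0 ε) (hy : NM S p ε T y) (h0 : y 0 ≤ p - 1 / 8)
    (hT : p + 1 / 8 ≤ y T) (hT2 : 2 * Lat.R1 β + 2 ≤ T) {k : ℕ} (hk : k ≤ T) :
    y 0 ≤ y k ∧ y k ≤ y T := by
  obtain ⟨t1, h11, h12, h13⟩ := surg1 hS hy (i := 0) (by omega)
  obtain ⟨t2, h21, h22, h23⟩ := surg1 hS hy (i := T - Lat.R1 β) (by omega)
  rcases le_or_gt k t1 with hk1 | hk1
  · have := surg3 hS hy h0 (by omega) (by omega) (h13.wide hS) hk1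
    exact ⟨this.1, by linarith [this.2]⟩
  rcases le_or_gt t2 k with hk2 | hk2
  · have := surg3' hS hy hT (by omega) (by omega) (h23.wide hS) hk2 hk
    exact ⟨by linarith [this.1], this.2⟩
  · have := abs_lt.1 (surg2 hS hy (by omega) (by omega) (h13.wide hS) (h23.wide hS) hk1.le hk2.le)
    exact ⟨by linarith [this.1], by linarith [this.2]⟩

theorem surg4 (hS : SData S p β Φ e0 ε) (hy : NM S p ε T y) (hT : 900 ≤ T) {k : ℕ} (hk : k < T) :
    |y (k + 1) - y k| < 1 / 4 := by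
  have h1 := hS.ε_le
  have h2 := hS.β_pos
  have h3 := hS.β_le
  have h4 : β ^ 2 ≤ (1 / 1000) ^ 2 := pow_le_pow_left₀ h2.le h3 2
  refine hS.ker.R4 (R := 402) (δ := 2 * ((402 : ℕ) : ℝ) * ε) ?_ le_rfl (by omega)
    (hy.blocks hS 402) (fun k hk => hy.room k hk) hk
  push_cast
  linarith

end Esc
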