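import Pool.Agent.helper42.TonTrig

/-!
Trigonometric polynomials are dense in the `C^k` functions on `𝕋ⁿ × 𝕋`.
-/

noncomputable section

namespace Ton

open MeasureTheory Filter Topology

variable {n : ℕ}

lemma Per.iteratedFDeriv {G : Type*} [NormedAddCommGroup G] [NormedSpace ℝ G]
    {F : (Fin n → ℝ) × ℝ → G} (hF : Per F) (i : ℕ) : Per (_root_.iteratedFDeriv ℝ i F) := by
  intro k l x t
  have h := iteratedFDeriv_comp_add_right (𝕜 := ℝ) (f := F) i
    (((fun j => (k j : ℝ)), (l : ℝ)) : (Fin n → ℝ) × ℝ) ((x, t) : (Fin n → ℝ) × ℝ)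
  have h2 : (fun p => F (p + ((fun j => (k j : ℝ)), (l : ℝ)))) = F := by
    funext p
    exact hF k l p.1 p.2
  rw [h2] at h
  exact h.symm

lemma PF_clm {μ : Measure (Tor n)} {G H : Type*} [NormedAddCommGroup G] [NormedSpace ℝ G]
    [NormedAddCommGroup H] [NormedSpace ℝ H] (A : G ≃L[ℝ] H) (K : Tor n → ℝ)
    (F : (Fin n → ℝ) × ℝ → G) :
    PF μ K (fun z => A (F z)) = fun z => A (PF μ K F z) := by
  funext z
  unfold PF
  rw [← ContinuousLinearEquiv.integral_comp_comm]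
  refine integral_congr_ae (ae_of_all _ fun τ => ?_)
  simp [DD]

lemma PF_iteratedFDeriv {μ : Measure (Tor n)} [IsFiniteMeasure μ] {K : Tor n → ℝ}
    (hK : Continuous K) {F : (Fin n → ℝ) × ℝ → ℝ} (hF : Per F) {k : ℕ} (hc : ContDiff ℝ k F) :
    ∀ i ≤ k, iteratedFDeriv ℝ i (PF μ K F) = PF μ K (iteratedFDeriv ℝ i F) := by
  intro i
  induction i with
  | zero =>
    intro _
    rw [iteratedFDeriv_zero_eq_comp, iteratedFDeriv_zero_eq_comp]
    exact (PF_clm (μ := μ) ((continuousMultilinearCurryFin0 ℝ ((Fin n → ℝ) × ℝ)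
      ℝ).symm.toContinuousLinearEquiv) K F).symm
  | succ i ih =>
    intro hi
    have hi' : i ≤ k := by omega
    rw [iteratedFDeriv_succ_eq_comp_left, iteratedFDeriv_succ_eq_comp_left, ih hi']
    have hc1 : ContDiff ℝ 1 (iteratedFDeriv ℝ i F) := by
      refine hc.iteratedFDeriv_right ?_
      have : (1 : WithTop ℕ∞) + (i : ℕ) = ((1 + i : ℕ) : WithTop ℕ∞) := by push_cast; rfl
      rw [this]
      exact_mod_cast (by omega : 1 + i ≤ k)
    rw [PF_fderiv hK (hF.iteratedFDeriv i) hc1]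
    exact (PF_clm (μ := μ) ((continuousMultilinearCurryLeftEquiv ℝ
      (fun _ : Fin (i + 1) => ((Fin n → ℝ) × ℝ)) ℝ).symm.toContinuousLinearEquiv) K
      (fderiv ℝ (iteratedFDeriv ℝ i F))).symm

lemma tp_contDiff (S : Finset (Option (Fin n) → ℤ)) (c : (Option (Fin n) → ℤ) → ℂ) {m : WithTop ℕ∞} :
    ContDiff ℝ m (tp S c) := by
  unfold tp
  refine Complex.reCLM.contDiff.comp ?_
  refine ContDiff.sum fun κ _ => ?_
  refine contDiff_const.mul ?_
  refine Complex.contDiff_exp.comp ?_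
  refine contDiff_const.mul ?_
  refine Complex.ofRealCLM.contDiff.comp ?_
  refine ContDiff.add (ContDiff.sum fun i _ => ?_) (contDiff_const.mul contDiff_snd)
  exact contDiff_const.mul ((contDiff_apply ℝ ℝ i).comp contDiff_fst)

theorem trig_approx_k (k : ℕ) {f : (Fin n → ℝ) × ℝ → ℝ} (hf : Per f) (hc : ContDiff ℝ k f) {ε : ℝ}
    (hε : 0 < ε) : ∃ (S : Finset (Option (Fin n) → ℤ)) (c : (Option (Fin n) → ℤ) → ℂ),
      ∀ i ≤ k, ∀ p, ‖iteratedFDeriv ℝ i (fun q => tp S c q - f q) p‖ < ε := by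
  classical
  set μ : Measure (Tor n) := Measure.addHaar with hμ
  have hci : ∀ i ≤ k, Continuous (iteratedFDeriv ℝ i f) := fun i hi =>
    hc.continuous_iteratedFDeriv (by exact_mod_cast hi)
  have hpi : ∀ i, Per (iteratedFDeriv ℝ i f) := fun i => hf.iteratedFDeriv i
  have hbd : ∀ i, ∃ M : ℝ, 0 ≤ M ∧ (i ≤ k → ∀ τ, ‖DD (iteratedFDeriv ℝ i f) τ‖ ≤ M) := by
    intro i
    by_cases hi : i ≤ k
    · obtain ⟨M, hM0, hM⟩ := DD_bounded (hpi i) (hci i hi)
      exact ⟨M, hM0, fun _ => hM⟩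
    · exact ⟨0, le_refl _, fun h => absurd h hi⟩
  choose M hM0 hM using hbd
  -- uniform continuity
  have huc : ∀ i ∈ Finset.range (k + 1), ∀ᶠ τ in 𝓝 (0 : Tor n), ∀ σ,
      ‖DD (iteratedFDeriv ℝ i f) (σ - τ) - DD (iteratedFDeriv ℝ i f) σ‖ ≤ ε / 2 := by
    intro i hi
    have hi' : i ≤ k := by
      rw [Finset.mem_range] at hi; omega
    have h1 : UniformContinuous (DD (iteratedFDeriv ℝ i f)) :=
      CompactSpace.uniformContinuous_of_continuous (DD_cont (hpi i) (hci i hi'))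
    rw [Metric.uniformContinuous_iff] at h1
    obtain ⟨δ, hδ, h1⟩ := h1 (ε / 2) (by positivity)
    filter_upwards [Metric.ball_mem_nhds (0 : Tor n) hδ] with τ hτ σ
    rw [← dist_eq_norm]
    refine (h1 ?_).le
    rw [dist_eq_norm]
    rw [Metric.mem_ball, dist_zero_right] at hτ
    have : σ - τ - σ = -τ := by abel
    rw [this, norm_neg]
    exact hτ
  have hU := (Filter.eventually_all_finset (Finset.range (k + 1))).mpr huc
  obtain ⟨δ, hδ, hU⟩ := Metric.eventually_nhds_iff.mp hU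
  -- the bump
  set φ₀ : Tor n → ℝ := fun τ => max 0 (δ - ‖τ‖) with hφ₀
  have hφ₀c : Continuous φ₀ := continuous_const.max (continuous_const.sub continuous_norm)
  have hφ₀0 : ∀ τ, 0 ≤ φ₀ τ := fun τ => le_max_left _ _
  have hI : 0 < ∫ τ, φ₀ τ ∂μ := by
    refine (integral_pos_iff_support_of_nonneg hφ₀0 (cont_integrable hφ₀c)).mpr ?_
    have hop : IsOpen (Function.support φ₀) := hφ₀c.isOpen_support
    refine hop.measure_pos μ ⟨0, ?_⟩
    rw [Function.mem_support, hφ₀]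
    simp only [norm_zero, sub_zero]
    rw [max_eq_right hδ.le]
    exact hδ.ne'
  set φ : Tor n → ℝ := fun τ => φ₀ τ / ∫ τ, φ₀ τ ∂μ with hφ
  have hφc : Continuous φ := hφ₀c.div_const _
  have hφ0 : ∀ τ, 0 ≤ φ τ := fun τ => div_nonneg (hφ₀0 τ) hI.le
  have hφ1 : ∫ τ, φ τ ∂μ = 1 := by
    rw [hφ, integral_div, div_self hI.ne']
  have hφs : ∀ τ, φ τ ≠ 0 → dist τ 0 < δ := by
    intro τ hτ
    rw [dist_zero_right]
    by_contra h
    push Not at h
    apply hτ
    simp only [hφ, hφ₀]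
    rw [max_eq_left (by linarith), zero_div]
  -- Stone-Weierstrass
  set MM := ∑ i ∈ Finset.range (k + 1), M i + 1 with hMM
  set η := ε / (4 * MM * (μ.real Set.univ + 1)) with hηdef
  have hμ0 : 0 ≤ μ.real Set.univ := measureReal_nonneg
  have hMs : 0 ≤ ∑ i ∈ Finset.range (k + 1), M i := Finset.sum_nonneg fun i _ => hM0 i
  have hMM0 : 0 < MM := by linarith
  have hη0 : 0 < η := by positivity
  have hdense : (⟨fun τ => (φ τ : ℂ), Complex.continuous_ofReal.comp hφc⟩ : C(Tor n, ℂ)) ∈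
      closure ((Submodule.span ℂ (Set.range (UnitAddTorus.mFourier (d := Option (Fin n)))) :
        Submodule ℂ C(Tor n, ℂ)) : Set C(Tor n, ℂ)) := by
    rw [← Submodule.topologicalClosure_coe, UnitAddTorus.span_mFourier_closure_eq_top]
    trivial
  obtain ⟨K, hKs, hKd⟩ := Metric.mem_closure_iff.mp hdense η hη0
  have hKη : ∀ τ, |(K τ).re - φ τ| ≤ η := by
    intro τ
    have h1 : ‖K τ - (φ τ : ℂ)‖ ≤ η := by
      rw [dist_comm, dist_eq_norm] at hKd
      exact (ContinuousMap.norm_coe_le_norm (K - _) τ).trans hKd.le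
    have h2 := (Complex.abs_re_le_norm (K τ - (φ τ : ℂ))).trans h1
    simpa using h2
  have hKc : Continuous (fun τ => (K τ).re) := Complex.continuous_re.comp K.continuous
  obtain ⟨S, c, hSc⟩ := PF_trig (μ := μ) hf hc.continuous hKs
  refine ⟨S, c, ?_⟩
  have key : ∀ M ≤ MM, η * M * μ.real Set.univ + ε / 2 < ε := by
    intro M hM
    have h1 : η * M * μ.real Set.univ ≤ η * MM * (μ.real Set.univ + 1) := by
      refine mul_le_mul (mul_le_mul_of_nonneg_left hM hη0.le) (by linarith) hμ0 (by positivity)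
    have h2 : η * MM * (μ.real Set.univ + 1) = ε / 4 := by
      rw [hηdef]
      field_simp
    linarith
  intro i hi p
  have hir : i ∈ Finset.range (k + 1) := by rw [Finset.mem_range]; omega
  have hb := PF_approx (μ := μ) (hpi i) (hci i hi) hφc hKc hφ0 hφ1 (hM i hi) hKη
    (fun τ hτ => hU (hφs τ hτ) i hir) p
  have h1 : iteratedFDeriv ℝ i (fun q => tp S c q - f q) p
      = PF μ (fun τ => (K τ).re) (iteratedFDeriv ℝ i f) p - iteratedFDeriv ℝ i f p := by
    rw [← PF_iteratedFDeriv hKc hf hc i hi, hSc]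
    exact iteratedFDeriv_sub_apply (tp_contDiff S c).contDiffAt
      ((hc.of_le (by exact_mod_cast hi)).contDiffAt)
  rw [h1]
  refine hb.trans_lt (key (M i) ?_)
  rw [hMM]
  have := Finset.single_le_sum (f := M) (fun i _ => hM0 i) hir
  linarith

end Ton
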